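import Pool.Agent.Lib.GA.Defs

/-! # GA, row BASIC1: the stable rank -/

open scoped Kronecker

namespace Pool.GA

variable {F : Type} [Field F] {k : ℕ} {σ m n : Type} [Fintype σ] [Fintype m] [Fintype n] {P : Fin k → ℕ}

private theorem basic1_prod_pos (hP : ∀ i, 0 < P i) (a : Fin k → ℕ) : 0 < ∏ i, P i ^ a i :=
  Finset.prod_pos fun i _ => pow_pos (hP i) _

private theorem basic1_card (a : Fin k → ℕ) :
    Fintype.card (∀ i : Fin k, Fin (P i ^ a i)) = ∏ i, P i ^ a i := by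
  simp [Fintype.card_pi]

private theorem basic1_le_m (hP : ∀ i, 0 < P i) (T : Pen F k σ m n) {r : ℕ} {a : Fin k → ℕ}
    (X : ∀ i, σ → Matrix (Fin (P i ^ a i)) (Fin (P i ^ a i)) F) (h : r * ∏ i, P i ^ a i ≤ (ev T X).rank) :
    r ≤ Fintype.card m := by
  have h1 := (ev T X).rank_le_card_height
  rw [Fintype.card_prod, basic1_card] at h1
  exact Nat.le_of_mul_le_mul_right (h.trans h1) (basic1_prod_pos hP a)

omit [Fintype m] in
private theorem basic1_le_n (hP : ∀ i, 0 < P i) (T : Pen F k σ m n) {r : ℕ} {a : Fin k → ℕ}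
    (X : ∀ i, σ → Matrix (Fin (P i ^ a i)) (Fin (P i ^ a i)) F) (h : r * ∏ i, P i ^ a i ≤ (ev T X).rank) :
    r ≤ Fintype.card n := by
  have h1 := (ev T X).rank_le_card_width
  rw [Fintype.card_prod, basic1_card] at h1
  exact Nat.le_of_mul_le_mul_right (h.trans h1) (basic1_prod_pos hP a)

private theorem basic1_bdd (hP : ∀ i, 0 < P i) (T : Pen F k σ m n) :
    BddAbove {r | ∃ (a : Fin k → ℕ) (X : ∀ i, σ → Matrix (Fin (P i ^ a i)) (Fin (P i ^ a i)) F),
      r * ∏ i, P i ^ a i ≤ (ev T X).rank} := by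
  refine ⟨Fintype.card m, ?_⟩
  rintro r ⟨a, X, h⟩
  exact basic1_le_m hP T X h

omit [Fintype m] in
private theorem basic1_ne (T : Pen F k σ m n) :
    {r | ∃ (a : Fin k → ℕ) (X : ∀ i, σ → Matrix (Fin (P i ^ a i)) (Fin (P i ^ a i)) F),
      r * ∏ i, P i ^ a i ≤ (ev T X).rank}.Nonempty :=
  ⟨0, fun _ => 0, fun _ _ => 0, by simp⟩

theorem le_rho (hP : ∀ i, 0 < P i) (T : Pen F k σ m n) {r : ℕ} {a : Fin k → ℕ}
    (X : ∀ i, σ → Matrix (Fin (P i ^ a i)) (Fin (P i ^ a i)) F) (h : r * ∏ i, P i ^ a i ≤ (ev T X).rank) :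
    r ≤ rho P T :=
  le_csSup (basic1_bdd hP T) ⟨a, X, h⟩

/-- the supremum is attained -/
theorem exists_rho_le (hP : ∀ i, 0 < P i) (T : Pen F k σ m n) :
    ∃ (a : Fin k → ℕ) (X : ∀ i, σ → Matrix (Fin (P i ^ a i)) (Fin (P i ^ a i)) F),
      rho P T * ∏ i, P i ^ a i ≤ (ev T X).rank :=
  Nat.sSup_mem (basic1_ne T) (basic1_bdd hP T)

theorem rho_le_card_m (hP : ∀ i, 0 < P i) (T : Pen F k σ m n) : rho P T ≤ Fintype.card m := by
  obtain ⟨a, X, h⟩ := exists_rho_le hP T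
  exact basic1_le_m hP T X h

theorem rho_le_card_n (hP : ∀ i, 0 < P i) (T : Pen F k σ m n) : rho P T ≤ Fintype.card n := by
  obtain ⟨a, X, h⟩ := exists_rho_le hP T
  exact basic1_le_n hP T X h

/-- an upper bound for all positions is an upper bound for the stable rank -/
theorem rho_le_of (hP : ∀ i, 0 < P i) (T : Pen F k σ m n) (r : ℕ)
    (h : ∀ (a : Fin k → ℕ) (X : ∀ i, σ → Matrix (Fin (P i ^ a i)) (Fin (P i ^ a i)) F),
      (ev T X).rank ≤ r * ∏ i, P i ^ a i) : rho P T ≤ r := by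
  obtain ⟨a, X, h1⟩ := exists_rho_le hP T
  exact Nat.le_of_mul_le_mul_right (h1.trans (h a X)) (basic1_prod_pos hP a)

/-- without variables the stable rank is the rank -/
theorem rho_zero {P : Fin 0 → ℕ} (T : Pen F 0 σ m n) : rho P T = T.c.rank := by
  have hP : ∀ i, 0 < P i := fun i => i.elim0
  have key : ∀ (a : Fin 0 → ℕ) (X : ∀ i, σ → Matrix (Fin (P i ^ a i)) (Fin (P i ^ a i)) F),
      (ev T X).rank = T.c.rank := by
    intro a X
    have h1 : ev T X = T.c.submatrix (Equiv.prodUnique m (∀ i : Fin 0, Fin (P i ^ a i)))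
        (Equiv.prodUnique n (∀ i : Fin 0, Fin (P i ^ a i))) := by
      ext x y
      have hxy : x.2 = y.2 := Subsingleton.elim _ _
      have h1 : (1 : Matrix (∀ i : Fin 0, Fin (P i ^ a i)) (∀ i : Fin 0, Fin (P i ^ a i)) F) x.2 y.2 = 1 := by
        rw [hxy, Matrix.one_apply_eq]
      simp [ev, Matrix.kroneckerMap_apply, Equiv.prodUnique, h1]
    rw [h1, Matrix.rank_submatrix]
  apply le_antisymm
  · refine rho_le_of hP T _ ?_
    intro a X
    rw [key a X]
    simp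
  · refine le_rho hP T (a := fun _ => 0) (fun _ _ => 0) ?_
    rw [key]
    simp

end Pool.GA
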