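import Pool.Agent.Lib.GA.Defs

/-! # GA, row BASIC2: reindexing -/

open scoped Kronecker

namespace Pool.GA

variable {F : Type} [Field F] {k : ℕ} {σ m n : Type} [Fintype σ] [Fintype m] [Fintype n] {P : Fin k → ℕ}

/-- reindexing of rows and columns -/
theorem rho_sub_equiv {m' n' : Type} [Fintype m'] [Fintype n'] (T : Pen F k σ m n) (e : m' ≃ m) (f : n' ≃ n) :
    rho P (T.sub e f) = rho P T := by
  have key : ∀ (a : Fin k → ℕ) (X : ∀ i, σ → Matrix (Fin (P i ^ a i)) (Fin (P i ^ a i)) F),
      (ev (T.sub e f) X).rank = (ev T X).rank := by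
    intro a X
    have h1 : ev (T.sub e f) X = (ev T X).submatrix (e.prodCongr (Equiv.refl (∀ i, Fin (P i ^ a i))))
        (f.prodCongr (Equiv.refl (∀ i, Fin (P i ^ a i)))) := by
      ext x y
      simp only [ev, Pen.sub, Matrix.kroneckerMap_apply, Matrix.sum_apply, Matrix.add_apply, Matrix.submatrix_apply]
      rfl
    rw [h1, Matrix.rank_submatrix]
  unfold rho
  simp only [key]

omit [Fintype m] in
private theorem basic2_ev {σ' : Type} [Fintype σ'] (T : Pen F k σ m n) (T' : Pen F k σ' m n) (f : σ → σ')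
    (hf : Function.Injective f) (hc : T'.c = T.c) (ha : ∀ i j, T'.a i (f j) = T.a i j)
    (h0 : ∀ i j', (∀ j, f j ≠ j') → T'.a i j' = 0) (a : Fin k → ℕ)
    (X' : ∀ i, σ' → Matrix (Fin (P i ^ a i)) (Fin (P i ^ a i)) F) :
    (ev T fun i j => X' i (f j)).rank = (ev T' X').rank := by
  have h1 : (ev T fun i j => X' i (f j)) = ev T' X' := by
    unfold ev
    rw [hc]
    congr 1
    refine Finset.sum_congr rfl fun i _ => ?_
    refine Fintype.sum_of_injective f hf _ _ ?_ ?_
    · intro j' hj'
      rw [h0 i j' (fun j hj => hj' ⟨j, hj⟩), Matrix.zero_kronecker]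
    · intro j
      rw [ha]
  rw [h1]

/-- letters without coefficients do not matter -/
theorem rho_letters {σ' : Type} [Fintype σ'] (T : Pen F k σ m n) (T' : Pen F k σ' m n) (f : σ → σ')
    (hf : Function.Injective f) (hc : T'.c = T.c) (ha : ∀ i j, T'.a i (f j) = T.a i j)
    (h0 : ∀ i j', (∀ j, f j ≠ j') → T'.a i j' = 0) : rho P T' = rho P T := by
  classical
  unfold rho
  congr 1
  ext r
  constructor
  · rintro ⟨a, X', h⟩
    refine ⟨a, fun i j => X' i (f j), ?_⟩
    rw [basic2_ev T T' f hf hc ha h0 a X']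
    exact h
  · rintro ⟨a, X, h⟩
    refine ⟨a, fun i j' => if hj : ∃ j, f j = j' then X i hj.choose else 0, ?_⟩
    rw [← basic2_ev T T' f hf hc ha h0 a]
    have h2 : (fun (i : Fin k) (j : σ) => if hj : ∃ j₁, f j₁ = f j then X i hj.choose else 0) = X := by
      funext i j
      have hj : ∃ j₁, f j₁ = f j := ⟨j, rfl⟩
      rw [dif_pos hj]
      congr 1
      exact hf hj.choose_spec
    rw [h2]
    exact h

end Pool.GA
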