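import Pool.Agent.Lib.GA.Shift

/-!
The division ring of generic matrices (GA, row of helper80).
-/

set_option linter.unusedSectionVars false

namespace Pool.GA

open WithZero Matrix

namespace DR

variable (F : Type) [Field F] {k : ℕ} (s : Type) (d : Fin k → ℕ) [∀ i, NeZero (d i)]

/-- indices of `⊗ L^(d i)` -/
abbrev G : Type := ∀ i, Fin (d i)

/-- the entries of the generic matrices: part, letter, row, column -/
abbrev Var : Type := (i : Fin k) × (s × Fin (d i) × Fin (d i))

/-- the field of the coefficients -/
abbrev L0 : Type := FractionRing (MvPolynomial (Var s d) F)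

/-- the field `L0(t)` -/
abbrev L : Type := RatFunc (L0 F s d)

/-- one step in part `i` -/
def stp (i i' : Fin k) : Fin (d i') := if i' = i then 1 else 0

/-- the shift of the variables of part `i` -/
def varShift (i : Fin k) : Equiv.Perm (Var s d) :=
  Equiv.sigmaCongrRight fun i' => (Equiv.refl _).prodCongr
    ((Equiv.addRight (stp d i i')).prodCongr (Equiv.addRight (stp d i i')))

theorem varShift_apply (i i' : Fin k) (j : s) (g h : Fin (d i')) :
    varShift s d i ⟨i', j, g, h⟩ = ⟨i', j, g + stp d i i', h + stp d i i'⟩ := rfl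

/-- the automorphism of `L0` given by a permutation of the variables -/
noncomputable def au0 (e : Equiv.Perm (Var s d)) : L0 F s d ≃+* L0 F s d :=
  IsFractionRing.ringEquivOfRingEquiv (MvPolynomial.renameEquiv F e).toRingEquiv

/-- the automorphism of `L` given by a permutation of the variables -/
noncomputable def au (e : Equiv.Perm (Var s d)) : L F s d ≃+* L F s d :=
  IsFractionRing.ringEquivOfRingEquiv (Polynomial.mapEquiv (au0 F s d e))

/-- the variables -/
noncomputable def cv (x : Var s d) : L F s d :=
  algebraMap (Polynomial (L0 F s d)) (L F s d)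
    (Polynomial.C (algebraMap (MvPolynomial (Var s d) F) (L0 F s d) (MvPolynomial.X x)))

theorem au0_algebraMap (e : Equiv.Perm (Var s d)) (p : MvPolynomial (Var s d) F) :
    au0 F s d e (algebraMap _ _ p) = algebraMap _ _ (MvPolynomial.rename e p) := by
  rw [au0, IsFractionRing.ringEquivOfRingEquiv_algebraMap]; rfl

theorem au_algebraMap (e : Equiv.Perm (Var s d)) (p : Polynomial (L0 F s d)) :
    au F s d e (algebraMap _ _ p) = algebraMap _ _ (p.map (au0 F s d e : L0 F s d →+* L0 F s d)) := by
  rw [au, IsFractionRing.ringEquivOfRingEquiv_algebraMap]; rfl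

theorem au_cv (e : Equiv.Perm (Var s d)) (x : Var s d) :
    au F s d e (cv F s d x) = cv F s d (e x) := by
  rw [cv, au_algebraMap, Polynomial.map_C]
  simp only [RingEquiv.coe_toRingHom]
  rw [au0_algebraMap, MvPolynomial.rename_X]; rfl

theorem au_X (e : Equiv.Perm (Var s d)) : au F s d e RatFunc.X = RatFunc.X := by
  rw [← RatFunc.algebraMap_X, au_algebraMap, Polynomial.map_X]

theorem au0_mul (e f : Equiv.Perm (Var s d)) (a : L0 F s d) :
    au0 F s d (e * f) a = au0 F s d e (au0 F s d f a) := by
  obtain ⟨p, q, _, rfl⟩ := IsFractionRing.div_surjective (A := MvPolynomial (Var s d) F) a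
  simp only [map_div₀, au0_algebraMap, MvPolynomial.rename_rename]
  rfl

theorem au_mul (e f : Equiv.Perm (Var s d)) (a : L F s d) :
    au F s d (e * f) a = au F s d e (au F s d f a) := by
  obtain ⟨p, q, _, rfl⟩ := IsFractionRing.div_surjective (A := Polynomial (L0 F s d)) a
  have h : ∀ p : Polynomial (L0 F s d), p.map (au0 F s d (e * f) : L0 F s d →+* L0 F s d) =
      (p.map (au0 F s d f : L0 F s d →+* L0 F s d)).map
        (au0 F s d e : L0 F s d →+* L0 F s d) := by
    intro p
    rw [Polynomial.map_map]
    congr 1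
    ext x
    exact au0_mul F s d e f x
  simp only [map_div₀, au_algebraMap, h]

theorem au0_one (a : L0 F s d) : au0 F s d 1 a = a := by
  obtain ⟨p, q, _, rfl⟩ := IsFractionRing.div_surjective (A := MvPolynomial (Var s d) F) a
  have h : ∀ p : MvPolynomial (Var s d) F,
      MvPolynomial.rename ((1 : Equiv.Perm (Var s d)) : Var s d → Var s d) p = p := by
    intro p
    rw [Equiv.Perm.coe_one, MvPolynomial.rename_id_apply]
  simp only [map_div₀, au0_algebraMap, h]

theorem au_one (a : L F s d) : au F s d 1 a = a := by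
  obtain ⟨p, q, _, rfl⟩ := IsFractionRing.div_surjective (A := Polynomial (L0 F s d)) a
  have h : ∀ p : Polynomial (L0 F s d),
      p.map (au0 F s d 1 : L0 F s d →+* L0 F s d) = p := by
    intro p
    have : (au0 F s d 1 : L0 F s d →+* L0 F s d) = RingHom.id _ := by
      ext x; exact au0_one F s d x
    rw [this, Polynomial.map_id]
  simp only [map_div₀, au_algebraMap, h]

theorem au_pow (e : Equiv.Perm (Var s d)) (n : ℕ) (a : L F s d) :
    ((au F s d e) ^ n) a = au F s d (e ^ n) a := by
  induction n generalizing a with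
  | zero => rw [pow_zero, pow_zero, au_one]; rfl
  | succ n ih =>
    rw [pow_succ, pow_succ, au_mul, ← ih]; rfl

open Classical in
/-- the valuation at infinity -/
noncomputable def vL : Valuation (L F s d) ℤᵐ⁰ := RatFunc.inftyValuation (L0 F s d)

theorem vL_X : vL F s d RatFunc.X = exp 1 := by
  classical
  exact RatFunc.inftyValuation.X (L0 F s d)

theorem vL_poly (p : Polynomial (L0 F s d)) (hp : p ≠ 0) :
    vL F s d (algebraMap _ (L F s d) p) = exp (p.natDegree : ℤ) := by
  classical
  have h1 : algebraMap _ (L F s d) p ≠ 0 := by simpa using hp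
  have h2 := RatFunc.inftyValuation_of_nonzero (L0 F s d) h1
  rw [RatFunc.intDegree_polynomial] at h2
  exact h2

theorem v_au (e : Equiv.Perm (Var s d)) (a : L F s d) :
    vL F s d (au F s d e a) = vL F s d a := by
  obtain ⟨p, q, _, rfl⟩ := IsFractionRing.div_surjective (A := Polynomial (L0 F s d)) a
  have h : ∀ p : Polynomial (L0 F s d),
      vL F s d (algebraMap _ (L F s d) (p.map (au0 F s d e : L0 F s d →+* L0 F s d))) =
      vL F s d (algebraMap _ (L F s d) p) := by
    intro p
    by_cases hp : p = 0
    · subst hp; simp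
    · have hinj : Function.Injective (au0 F s d e : L0 F s d →+* L0 F s d) :=
        (au0 F s d e).injective
      have hp' : p.map (au0 F s d e : L0 F s d →+* L0 F s d) ≠ 0 := by
        rwa [Ne, Polynomial.map_eq_zero_iff hinj]
      rw [vL_poly F s d _ hp, vL_poly F s d _ hp', Polynomial.natDegree_map_eq_of_injective hinj]
  simp only [map_div₀, au_algebraMap, h]

theorem stp_nsmul (i i' : Fin k) : d i • stp d i i' = 0 := by
  unfold stp
  split_ifs with h
  · subst h
    have := card_nsmul_eq_zero (G := Fin (d i')) (x := 1)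
    rwa [Fintype.card_fin] at this
  · simp

/-- one step in part `i`, as an element of `G` -/
def stg (i : Fin k) : G d := fun i' => stp d i i'

theorem stg_nsmul (i : Fin k) : d i • stg d i = 0 := by
  funext i'
  exact stp_nsmul d i i'

theorem addRight_pow {A : Type*} [AddGroup A] (a : A) (n : ℕ) (x : A) :
    ((Equiv.addRight a) ^ n) x = x + n • a := by
  induction n generalizing x with
  | zero => simp
  | succ n ih =>
    rw [pow_succ, Equiv.Perm.mul_apply, ih, Equiv.coe_addRight, add_assoc, succ_nsmul']

theorem varShift_pow (i : Fin k) (n : ℕ) (x : Var s d) :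
    ((varShift s d i) ^ n) x = ⟨x.1, x.2.1, x.2.2.1 + n • stp d i x.1,
      x.2.2.2 + n • stp d i x.1⟩ := by
  induction n generalizing x with
  | zero => simp
  | succ n ih =>
    rw [pow_succ, Equiv.Perm.mul_apply, ih]
    obtain ⟨i', j, g, h⟩ := x
    rw [varShift_apply]
    simp only [succ_nsmul', add_assoc]

theorem varShift_d (i : Fin k) : (varShift s d i) ^ (d i) = 1 := by
  refine Equiv.ext fun x => ?_
  rw [varShift_pow, stp_nsmul]
  simp

theorem gamma_step (i : Fin k) (x : G d) :
    ((Equiv.addRight (stg d i) x) i : ℕ) = ((x i : ℕ) + 1) % d i := by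
  show ((x i + stp d i i : Fin (d i)) : ℕ) = _
  rw [stp, if_pos rfl, Fin.val_add, Fin.val_one', Nat.add_mod_mod]

/-- the shift data of part `i` -/
noncomputable def sd (i : Fin k) : ShiftData (L F s d) (G d) where
  v := vL F s d
  σ := au F s d (varShift s d i)
  t := RatFunc.X
  d := d i
  π := Equiv.addRight (stg d i)
  γ := fun x => (x i : ℕ)
  d_pos := Nat.pos_of_ne_zero (NeZero.ne _)
  γ_lt := fun x => (x i).2
  γ_π := fun x => gamma_step d i x
  π_pow := fun x => by rw [addRight_pow, stg_nsmul, add_zero]
  σ_pow := fun a => by rw [au_pow, varShift_d, au_one]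
  v_σ := fun a => v_au F s d _ a
  v_t := vL_X F s d
  σ_t := au_X F s d _

/-- corner factor -/
noncomputable def tt (i : Fin k) (x : G d) : L F s d := if (x i : ℕ) = 0 then RatFunc.X else 1

theorem sd_b (i : Fin k) (u : G d → L F s d) (x : G d) :
    (sd F s d i).b u (x + stg d i) =
      au F s d (varShift s d i) (u x) * tt F s d i (x + stg d i) := by
  show au F s d (varShift s d i) (u ((Equiv.addRight (stg d i)).symm (x + stg d i))) * _ = _
  have h : (Equiv.addRight (stg d i)).symm (x + stg d i) = x := by
    rw [Equiv.symm_apply_eq]; rfl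
  rw [h]
  rfl

/-- the commutant of the shifts -/
noncomputable def E : Subalgebra F (Matrix (G d) (G d) (L F s d)) where
  carrier := {M | ∀ i u, (sd F s d i).b (M *ᵥ u) = M *ᵥ (sd F s d i).b u}
  mul_mem' := by
    intro M N hM hN i u
    rw [← Matrix.mulVec_mulVec, hM, hN, Matrix.mulVec_mulVec]
  add_mem' := by
    intro M N hM hN i u
    rw [Matrix.add_mulVec, ShiftData.b_add, hM, hN, Matrix.add_mulVec]
  algebraMap_mem' := by
    intro r i u
    have h1 : ∀ w : G d → L F s d,
        (algebraMap F (Matrix (G d) (G d) (L F s d)) r) *ᵥ w = (algebraMap F (L F s d) r) • w := by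
      intro w
      rw [Matrix.algebraMap_eq_diagonal]
      funext x
      simp [Matrix.mulVec_diagonal]
    have h2 : (sd F s d i).σ (algebraMap F (L F s d) r) = algebraMap F (L F s d) r := by
      have h3 : algebraMap F (L F s d) r = algebraMap (Polynomial (L0 F s d)) (L F s d)
          (Polynomial.C (algebraMap (MvPolynomial (Var s d) F) (L0 F s d)
            (MvPolynomial.C r))) := by
        rw [IsScalarTower.algebraMap_apply F (Polynomial (L0 F s d)) (L F s d)]
        rfl
      rw [h3]
      show au F s d _ _ = _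
      rw [au_algebraMap, Polynomial.map_C]
      simp only [RingEquiv.coe_toRingHom]
      rw [au0_algebraMap, MvPolynomial.rename_C]
    rw [h1, h1, ShiftData.b_smul, h2]

theorem mem_E {M : Matrix (G d) (G d) (L F s d)} :
    M ∈ E F s d ↔ ∀ i u, (sd F s d i).b (M *ᵥ u) = M *ᵥ (sd F s d i).b u := Iff.rfl

theorem mem_E_of {M : Matrix (G d) (G d) (L F s d)}
    (h : ∀ i g g', au F s d (varShift s d i) (M g g') * tt F s d i (g + stg d i) =
      M (g + stg d i) (g' + stg d i) * tt F s d i (g' + stg d i)) : M ∈ E F s d := by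
  intro i u
  funext x
  obtain ⟨g, rfl⟩ : ∃ g, x = g + stg d i := ⟨x - stg d i, by rw [sub_add_cancel]⟩
  rw [sd_b, Matrix.mulVec, dotProduct, map_sum, Finset.sum_mul, Matrix.mulVec, dotProduct,
    ← Equiv.sum_comp (Equiv.addRight (stg d i))
      (fun x => M (g + stg d i) x * (sd F s d i).b u x)]
  refine Finset.sum_congr rfl fun g' _ => ?_
  rw [Equiv.coe_addRight, sd_b, map_mul]
  have := h i g g'
  calc au F s d (varShift s d i) (M g g') * au F s d (varShift s d i) (u g') *
        tt F s d i (g + stg d i)
      = (au F s d (varShift s d i) (M g g') * tt F s d i (g + stg d i)) *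
          au F s d (varShift s d i) (u g') := by ring
    _ = _ := by rw [this]; ring

theorem isUnit_or_eq_zero (hd : Pairwise fun i j => Nat.Coprime (d i) (d j)) (a : E F s d) :
    IsUnit a ∨ a = 0 := by
  classical
  by_cases ha : a = 0
  · exact Or.inr ha
  left
  obtain ⟨M, hM⟩ := a
  have hM0 : M ≠ 0 := fun h => ha (Subtype.ext h)
  set U : Submodule (L F s d) (G d → L F s d) := LinearMap.ker (Matrix.mulVecLin M) with hU
  have hdiv : ∀ i, d i ∣ Module.finrank (L F s d) U := by
    intro i
    refine (sd F s d i).dvd_finrank U ?_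
    intro x hx
    rw [hU, LinearMap.mem_ker, Matrix.mulVecLin_apply] at hx ⊢
    rw [← hM, hx, ShiftData.b_zero]
  have hprod : (∏ i, d i) ∣ Module.finrank (L F s d) U := by
    have h1 : (∏ i, (d i : ℤ)) ∣ (Module.finrank (L F s d) U : ℤ) := by
      refine Fintype.prod_dvd_of_coprime ?_ (fun i => by exact_mod_cast hdiv i)
      intro i j hij
      exact (hd hij).isCoprime
    exact_mod_cast h1
  have hcard : Module.finrank (L F s d) (G d → L F s d) = ∏ i, d i := by
    rw [Module.finrank_fintype_fun_eq_card, Fintype.card_pi]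
    simp
  have hlt : Module.finrank (L F s d) U < ∏ i, d i := by
    rw [← hcard]
    refine Submodule.finrank_lt ?_
    intro htop
    apply hM0
    rw [hU, LinearMap.ker_eq_top] at htop
    ext g h
    have := congrFun (LinearMap.congr_fun htop (Pi.single h 1)) g
    simpa using this
  have h0 : Module.finrank (L F s d) U = 0 := Nat.eq_zero_of_dvd_of_lt hprod hlt
  have hker : LinearMap.ker (Matrix.mulVecLin M) = ⊥ := Submodule.finrank_eq_zero.1 h0
  have hinj : Function.Injective M.mulVec := by
    intro u w huw
    have := LinearMap.ker_eq_bot.1 hker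
    exact this huw
  have hMu : IsUnit M := Matrix.mulVec_injective_iff_isUnit.1 hinj
  obtain ⟨Mu, hMu'⟩ := hMu
  have hinvE : (↑Mu⁻¹ : Matrix (G d) (G d) (L F s d)) ∈ E F s d := by
    intro i u
    apply hinj
    show M *ᵥ _ = M *ᵥ _
    rw [← hM]
    have h1 : M * (↑Mu⁻¹ : Matrix (G d) (G d) (L F s d)) = 1 := by
      rw [← hMu']; exact Mu.mul_inv
    rw [Matrix.mulVec_mulVec, Matrix.mulVec_mulVec, h1, Matrix.one_mulVec, Matrix.one_mulVec]
  refine ⟨⟨⟨M, hM⟩, ⟨_, hinvE⟩, ?_, ?_⟩, rfl⟩
  · apply Subtype.ext
    show M * (↑Mu⁻¹ : Matrix (G d) (G d) (L F s d)) = 1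
    rw [← hMu']; exact Mu.mul_inv
  · apply Subtype.ext
    show (↑Mu⁻¹ : Matrix (G d) (G d) (L F s d)) * M = 1
    rw [← hMu']; exact Mu.inv_mul

/-- the generic matrices -/
noncomputable def xm (i : Fin k) (j : s) : Matrix (G d) (G d) (L F s d) := fun g h =>
  if (∀ i', i' ≠ i → g i' = h i') then
    cv F s d ⟨i, j, g i, h i⟩ * (if g i < h i then RatFunc.X else 1) else 0

theorem corner {R : Type*} [CommRing R] {X : R} {n : ℕ} [NeZero n] (a b : Fin n) :
    (if a < b then X else 1) * (if ((a + 1 : Fin n) : ℕ) = 0 then X else 1) =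
      (if a + 1 < b + 1 then X else 1) * (if ((b + 1 : Fin n) : ℕ) = 0 then X else 1) := by
  have hn : 0 < n := Nat.pos_of_ne_zero (NeZero.ne n)
  have hs : ∀ c : Fin n, ((c + 1 : Fin n) : ℕ) = if (c : ℕ) + 1 = n then 0 else (c : ℕ) + 1 := by
    intro c
    rw [Fin.val_add, Fin.val_one', Nat.add_mod_mod]
    have := c.2
    split_ifs with h
    · rw [h, Nat.mod_self]
    · exact Nat.mod_eq_of_lt (by omega)
  have ha := a.2
  have hb := b.2
  simp only [Fin.lt_def, hs]
  by_cases h1 : (a : ℕ) + 1 = n
  · have h3 : ¬ (a : ℕ) < b := by omega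
    by_cases h2 : (b : ℕ) + 1 = n
    · simp [h1, h2, h3]
    · simp [h1, h2, h3]
  · by_cases h2 : (b : ℕ) + 1 = n
    · have h3 : (a : ℕ) < b := by omega
      simp [h1, h2, h3]
    · simp [h1, h2]

theorem xm_mem (i : Fin k) (j : s) : xm F s d i j ∈ E F s d := by
  apply mem_E_of
  intro i' g h
  by_cases hgh : ∀ i', i' ≠ i → g i' = h i'
  · have hgh' : ∀ i'', i'' ≠ i → (g + stg d i') i'' = (h + stg d i') i'' := by
      intro i'' hne
      rw [Pi.add_apply, Pi.add_apply, hgh i'' hne]
    rw [xm, xm, if_pos hgh, if_pos hgh', map_mul, au_cv, varShift_apply]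
    by_cases hi : i = i'
    · subst hi
      have hd1 : stp d i i = 1 := by rw [stp, if_pos rfl]
      have h2 : ∀ g : G d, (g + stg d i) i = g i + 1 := by
        intro g
        rw [Pi.add_apply]
        show g i + stp d i i = _
        rw [hd1]
      have h3 : ∀ c : Prop, [Decidable c] → au F s d (varShift s d i)
          (if c then RatFunc.X else 1) = if c then RatFunc.X else 1 := by
        intro c _
        split_ifs
        · exact au_X F s d _
        · exact map_one _
      rw [h3, hd1, tt, tt, h2, h2, mul_assoc, mul_assoc]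
      congr 1
      exact corner (g i) (h i)
    · have h1 : stp d i' i = 0 := by rw [stp, if_neg hi]
      have h2 : stg d i' i = 0 := h1
      have h3 : tt F s d i' (g + stg d i') = tt F s d i' (h + stg d i') := by
        rw [tt, tt, hgh' i' (fun h => hi h.symm)]
      rw [h3, Pi.add_apply, Pi.add_apply, h1, h2, add_zero, add_zero]
      congr 2
      split_ifs
      · exact au_X F s d _
      · exact map_one _
  · have hgh' : ¬ ∀ i'', i'' ≠ i → (g + stg d i') i'' = (h + stg d i') i'' := by
      intro hc
      apply hgh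
      intro i'' hne
      have := hc i'' hne
      rw [Pi.add_apply, Pi.add_apply] at this
      exact add_right_cancel this
    rw [xm, xm, if_neg hgh, if_neg hgh', map_zero, zero_mul, zero_mul]

end DR

end Pool.GA
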