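import Mathlib

/-! # GA: ranks of matrices over tensor products of free algebras, by matrix positions

`Pen F k σ m n`: an affine matrix with rows `m`, columns `n`, with `k` parts of variables, the variables of
every part indexed by `σ`.  Variables of different parts commute, variables of one part are free.
Part `0` is the TOP part. -/

open scoped Kronecker

namespace Pool.GA

/-- an affine matrix with `k` parts of variables indexed by `σ`: constant term `c`, coefficients `a i j` -/
structure Pen (F : Type) (k : ℕ) (σ m n : Type) where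
  /-- constant term -/
  c : Matrix m n F
  /-- coefficient of variable `j` of part `i` -/
  a : Fin k → σ → Matrix m n F

section Ev

variable {F : Type} [Field F] {k : ℕ} {σ m n : Type}

/-- the matrix `A` acting in the `i`-th factor of the product of the `G i` -/
def fac {G : Fin k → Type} [∀ i, DecidableEq (G i)] (i : Fin k) (A : Matrix (G i) (G i) F) :
    Matrix (∀ i, G i) (∀ i, G i) F :=
  Matrix.of fun g h => if ∀ j, j ≠ i → g j = h j then A (g i) (h i) else 0

/-- evaluation of an affine matrix at a position: the variable `j` of part `i` becomes the matrix `X i j`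
acting in the `i`-th tensor factor -/
def ev [Fintype σ] {G : Fin k → Type} [∀ i, DecidableEq (G i)] (T : Pen F k σ m n)
    (X : ∀ i, σ → Matrix (G i) (G i) F) : Matrix (m × (∀ i, G i)) (n × (∀ i, G i)) F :=
  T.c ⊗ₖ (1 : Matrix (∀ i, G i) (∀ i, G i) F) + ∑ i, ∑ j, T.a i j ⊗ₖ fac i (X i j)

/-- the stable rank with bases `P`: the largest `r` such that some position of sizes `P i ^ a i` has rank at
least `r * ∏ i, P i ^ a i` -/
noncomputable def rho [Fintype σ] [Fintype m] [Fintype n] (P : Fin k → ℕ) (T : Pen F k σ m n) : ℕ :=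
  sSup {r | ∃ (a : Fin k → ℕ) (X : ∀ i, σ → Matrix (Fin (P i ^ a i)) (Fin (P i ^ a i)) F),
    r * ∏ i, P i ^ a i ≤ (ev T X).rank}

/-- evaluation of the top part at matrices indexed by an arbitrary finite type -/
def evTop [Fintype σ] {δ : Type} [DecidableEq δ] (T : Pen F (k + 1) σ m n) (M : σ → Matrix δ δ F) :
    Pen F k σ (m × δ) (n × δ) where
  c := T.c ⊗ₖ (1 : Matrix δ δ F) + ∑ j, T.a 0 j ⊗ₖ M j
  a i j := T.a i.succ j ⊗ₖ (1 : Matrix δ δ F)

end Ev

namespace Pen

variable {F : Type} [Field F] {k : ℕ} {σ m n : Type}

/-- apply a map to all entries -/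
def map {F' : Type} (f : F → F') (T : Pen F k σ m n) : Pen F' k σ m n where
  c := T.c.map f
  a i j := (T.a i j).map f

/-- select rows and columns -/
def sub {m' n' : Type} (T : Pen F k σ m n) (f : m' → m) (g : n' → n) : Pen F k σ m' n' where
  c := T.c.submatrix f g
  a i j := (T.a i j).submatrix f g

/-- multiply by constant matrices from both sides -/
def mul {m' n' : Type} [Fintype m] [Fintype n] (P : Matrix m' m F) (T : Pen F k σ m n)
    (Q : Matrix n n' F) : Pen F k σ m' n' where
  c := P * T.c * Q
  a i j := P * T.a i j * Q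

/-- append constant columns -/
def addCols {e : Type} (T : Pen F k σ m n) (J : Matrix m e F) : Pen F k σ m (n ⊕ e) where
  c := Matrix.fromCols T.c J
  a i j := Matrix.fromCols (T.a i j) 0

/-- `ι` diagonal copies -/
def copies (ι : Type) [DecidableEq ι] (T : Pen F k σ m n) : Pen F k σ (ι × m) (ι × n) where
  c := (1 : Matrix ι ι F) ⊗ₖ T.c
  a i j := (1 : Matrix ι ι F) ⊗ₖ T.a i j

end Pen

/-! ## Values in a division ring -/

section DivisionRing

variable {F : Type} [Field F] {k : ℕ} {σ m n : Type}

/-- evaluation of an affine matrix at elements of an algebra -/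
def evE {E : Type} [Ring E] [Algebra F E] [Fintype σ] (T : Pen F k σ m n) (x : Fin k → σ → E) : Matrix m n E :=
  T.c.map (algebraMap F E) + ∑ i, ∑ j, (T.a i j).map fun c => algebraMap F E c * x i j

/-- the rank over a division ring: dimension of the left space generated by the rows -/
noncomputable def rkE {E : Type} [DivisionRing E] [Fintype m] (A : Matrix m n E) : ℕ :=
  Module.finrank E (LinearMap.range A.vecMulLinear)

/-- a division ring with elements `x i j` which realise the maximal ranks at sizes `d`, for all affine matrices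
at once -/
structure Model (F : Type) [Field F] {k : ℕ} (σ : Type) [Fintype σ] (d : Fin k → ℕ) where
  /-- the division ring -/
  E : Type
  /-- it is a division ring -/
  [dr : DivisionRing E]
  /-- it contains `F` in its centre -/
  [alg : Algebra F E]
  /-- the values of the variables -/
  x : Fin k → σ → E
  /-- upper bound -/
  le : ∀ (m n : Type) [Fintype m] [Fintype n] [DecidableEq m] [DecidableEq n] (T : Pen F k σ m n)
    (X : ∀ i, σ → Matrix (Fin (d i)) (Fin (d i)) F), (ev T X).rank ≤ (∏ i, d i) * rkE (evE T x)
  /-- attained -/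
  ge : ∀ (m n : Type) [Fintype m] [Fintype n] [DecidableEq m] [DecidableEq n] (T : Pen F k σ m n),
    ∃ X : ∀ i, σ → Matrix (Fin (d i)) (Fin (d i)) F, (∏ i, d i) * rkE (evE T x) = (ev T X).rank

attribute [instance] Model.dr Model.alg

end DivisionRing

/-! ## The matrices of the local search -/

section Search

variable {F : Type} [Field F] {k : ℕ} {σ m n : Type}

/-- the constant columns `(j, i')`, `j < b`: in row `(i, a)` the entry `L j a` if `i = i'` -/
def colsL {D : ℕ} [DecidableEq m] (L : ℕ → Fin D → F) (b : ℕ) : Matrix (m × Fin D) (Fin b × m) F :=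
  Matrix.of fun x y => if x.1 = y.2 then L y.1 x.2 else 0

/-- `P_b`: the top part is evaluated at `M`, and `b` blocks of constant columns are appended -/
def PB [Fintype σ] [DecidableEq m] {D : ℕ} (T : Pen F (k + 1) σ m n) (M : σ → Matrix (Fin D) (Fin D) F)
    (L : ℕ → Fin D → F) (b : ℕ) : Pen F k σ (m × Fin D) ((n × Fin D) ⊕ (Fin b × m)) :=
  (evTop T M).addCols (colsL L b)

/-- the constant columns `i'`: in row `(c, (i, a))` the entry `1` if `a = c` and `i = i'` -/
def colsS (F : Type) [Field F] (D : ℕ) (m : Type) [DecidableEq m] : Matrix (Fin D × (m × Fin D)) m F :=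
  Matrix.of fun x y => if x.2.2 = x.1 ∧ x.2.1 = y then 1 else 0

/-- `D` copies of `P_b` and the constant columns `colsS` -/
def PH [Fintype σ] [DecidableEq m] {D : ℕ} (T : Pen F (k + 1) σ m n) (M : σ → Matrix (Fin D) (Fin D) F)
    (L : ℕ → Fin D → F) (b : ℕ) :
    Pen F k σ (Fin D × (m × Fin D)) ((Fin D × ((n × Fin D) ⊕ (Fin b × m))) ⊕ m) :=
  ((PB T M L b).copies (Fin D)).addCols (colsS F D m)

/-- the potential; `P` are the bases of the sizes of the lower parts -/
noncomputable def Phi [Fintype σ] [Fintype m] [Fintype n] [DecidableEq m] {D : ℕ} (P : Fin k → ℕ)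
    (T : Pen F (k + 1) σ m n) (M : σ → Matrix (Fin D) (Fin D) F) (L : ℕ → Fin D → F) (B : ℕ) : ℕ :=
  ∑ b ∈ Finset.range (B + 1), (rho P (PB T M L b) + rho P (PH T M L b))

/-- change one entry of one matrix -/
def updM [DecidableEq σ] {D : ℕ} (M : σ → Matrix (Fin D) (Fin D) F) (j : σ) (a a' : Fin D) (t : F) :
    σ → Matrix (Fin D) (Fin D) F :=
  fun j₁ => Matrix.of fun x y => if j₁ = j ∧ x = a ∧ y = a' then t else M j₁ x y

/-- change one entry of one functional -/
def updL {D : ℕ} (L : ℕ → Fin D → F) (i : ℕ) (a : Fin D) (t : F) : ℕ → Fin D → F :=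
  fun i₁ x => if i₁ = i ∧ x = a then t else L i₁ x

end Search

end Pool.GA
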