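import Mathlib

/-!
# The rank of the flattening of a matrix over a division ring

For a ring homomorphism `φ : E → Matrix G G L` from a division ring into matrices over a field, the
flattening of a matrix `A` over `E` has rank `card G` times the (left row) rank of `A` over `E`.
-/

namespace Pool.GA

open Matrix

/-- The flattening of a matrix over `E` along `φ`. -/
def flat {L : Type*} [Field L] {G : Type*} [Fintype G] [DecidableEq G] {E : Type*} [DivisionRing E]
    (φ : E →+* Matrix G G L) {m n : Type*} (A : Matrix m n E) : Matrix (m × G) (n × G) L :=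
  Matrix.of fun (p : m × G) (q : n × G) => φ (A p.1 q.1) p.2 q.2

theorem flat_mul {L : Type*} [Field L] {G : Type*} [Fintype G] [DecidableEq G] {E : Type*}
    [DivisionRing E] (φ : E →+* Matrix G G L) {m n l : Type*} [Fintype n]
    (A : Matrix m n E) (B : Matrix n l E) : flat φ (A * B) = flat φ A * flat φ B := by
  ext p q
  simp only [flat, Matrix.of_apply, Matrix.mul_apply, map_sum, Matrix.sum_apply, map_mul,
    Fintype.sum_prod_type]

theorem flat_one {L : Type*} [Field L] {G : Type*} [Fintype G] [DecidableEq G] {E : Type*}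
    [DivisionRing E] (φ : E →+* Matrix G G L) {m : Type*} [DecidableEq m] :
    flat φ (1 : Matrix m m E) = 1 := by
  ext p q
  obtain ⟨a, b⟩ := p
  obtain ⟨c, d⟩ := q
  simp only [flat, Matrix.of_apply, Matrix.one_apply, Prod.mk.injEq]
  by_cases h : a = c
  · simp [h, Matrix.one_apply]
  · simp [h]

theorem rank_flat {L : Type*} [Field L] {G : Type*} [Fintype G] [DecidableEq G] {E : Type*}
    [DivisionRing E] (φ : E →+* Matrix G G L) {m n : Type*} [Fintype m] [Fintype n]
    [DecidableEq m] [DecidableEq n] (A : Matrix m n E) :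
    (Matrix.of fun (p : m × G) (q : n × G) => φ (A p.1 q.1) p.2 q.2).rank
      = Fintype.card G * Module.finrank E (LinearMap.range A.vecMulLinear) := by
  classical
  change (flat φ A).rank = _
  set R := LinearMap.range A.vecMulLinear with hR
  set r := Module.finrank E R with hr
  let b : Module.Basis (Fin r) E R := Module.finBasis E R
  -- rows of C : the basis
  let C : Matrix (Fin r) n E := Matrix.of fun k => (b k : n → E)
  have hCrow : ∀ k, C k = (b k : n → E) := fun k => rfl
  -- each row of A lies in R
  have hA : ∀ i, A i ∈ R := by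
    intro i
    refine ⟨Pi.single i 1, ?_⟩
    simp [Matrix.row]
  let B : Matrix m (Fin r) E := Matrix.of fun i k => b.repr ⟨A i, hA i⟩ k
  have hvm : ∀ v : Fin r → E, v ᵥ* C = ((∑ k, v k • b k : R) : n → E) := by
    intro v
    ext j
    simp only [Matrix.vecMul, dotProduct, Submodule.coe_sum, Finset.sum_apply, Submodule.coe_smul,
      Pi.smul_apply, smul_eq_mul, C, Matrix.of_apply]
  have hBC : A = B * C := by
    ext i j
    have h1 := congrArg (fun x : R => (x : n → E) j) (b.sum_repr ⟨A i, hA i⟩)
    have h2 := congrFun (hvm (B i)) j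
    have h3 : (B * C) i j = (B i ᵥ* C) j := by
      simp [Matrix.mul_apply, Matrix.vecMul, dotProduct]
    rw [h3, h2]
    exact h1.symm
  have hCinj : ∀ v : Fin r → E, v ᵥ* C = 0 → v = 0 := by
    intro v hv
    rw [hvm v] at hv
    have h1 : (∑ k, v k • b k : R) = 0 := Subtype.ext hv
    have h2 := (Fintype.linearIndependent_iff.mp b.linearIndependent) v h1
    funext k
    exact h2 k
  -- H with H * A = C
  have hH : ∀ k, ∃ u : m → E, u ᵥ* A = C k := by
    intro k
    obtain ⟨u, hu⟩ := (b k).2
    exact ⟨u, hu⟩
  choose H hH using hH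
  have hHA : (Matrix.of H) * A = C := by
    ext k j
    have := congrFun (hH k) j
    simpa [Matrix.mul_apply, Matrix.vecMul, dotProduct] using this
  have hHB : (Matrix.of H) * B = (1 : Matrix (Fin r) (Fin r) E) := by
    have h1 : ((Matrix.of H) * B) * C = (1 : Matrix (Fin r) (Fin r) E) * C := by
      rw [Matrix.mul_assoc, ← hBC, hHA, Matrix.one_mul]
    have h2 : ((Matrix.of H) * B - (1 : Matrix (Fin r) (Fin r) E)) * C = 0 := by
      rw [Matrix.sub_mul, h1, sub_self]
    have h3 : ∀ k, ((Matrix.of H) * B - (1 : Matrix (Fin r) (Fin r) E)) k = 0 := by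
      intro k
      apply hCinj
      funext j
      have := congrFun (congrFun h2 k) j
      simpa [Matrix.mul_apply, Matrix.vecMul, dotProduct] using this
    have h4 : (Matrix.of H) * B - (1 : Matrix (Fin r) (Fin r) E) = 0 := by
      funext k
      exact h3 k
    exact sub_eq_zero.mp h4
  -- right inverse of C
  have hCli : LinearMap.ker (Matrix.vecMulLinear C) = ⊥ := by
    rw [LinearMap.ker_eq_bot']
    intro v hv
    exact hCinj v (by simpa [Matrix.vecMulLinear_apply] using hv)
  obtain ⟨g, hg⟩ := LinearMap.exists_leftInverse_of_injective (Matrix.vecMulLinear C) hCli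
  let G' : Matrix n (Fin r) E := Matrix.of fun j => g (Pi.single j 1)
  have hgm : ∀ w : n → E, g w = w ᵥ* G' := by
    intro w
    have h1 : w = ∑ j, w j • (Pi.single j (1 : E) : n → E) := by
      funext j
      simp [Finset.sum_apply, Pi.single_apply]
    conv_lhs => rw [h1]
    rw [map_sum]
    funext k
    simp only [map_smul, Finset.sum_apply, Pi.smul_apply, smul_eq_mul, Matrix.vecMul, dotProduct,
      G', Matrix.of_apply]
  have hCG : C * G' = 1 := by
    ext k l
    have h1 := congrFun (congrArg (fun f : (Fin r → E) →ₗ[E] (Fin r → E) => f (Pi.single k 1)) hg) l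
    simp only [LinearMap.comp_apply, LinearMap.id_apply, Matrix.vecMulLinear_apply,
      Matrix.single_one_vecMul] at h1
    rw [hgm] at h1
    have h2 : (C * G') k l = (C.row k ᵥ* G') l := by
      simp [Matrix.mul_apply, Matrix.vecMul, dotProduct, Matrix.row]
    rw [h2, h1, Matrix.one_apply, Pi.single_apply]
    by_cases hkl : k = l
    · simp [hkl]
    · simp [hkl, Ne.symm hkl]
  -- the two inequalities
  have hup : (flat φ A).rank ≤ Fintype.card (Fin r × G) := by
    rw [hBC, flat_mul]
    refine (Matrix.rank_mul_le_left _ _).trans ?_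
    exact Matrix.rank_le_card_width _
  have hlow : Fintype.card (Fin r × G) ≤ (flat φ A).rank := by
    have h1 : flat φ (Matrix.of H) * flat φ A * flat φ G' = 1 := by
      rw [← flat_mul, ← flat_mul, hHA, hCG, flat_one]
    calc Fintype.card (Fin r × G) = (1 : Matrix (Fin r × G) (Fin r × G) L).rank :=
          (Matrix.rank_one).symm
      _ = (flat φ (Matrix.of H) * flat φ A * flat φ G').rank := by rw [h1]
      _ ≤ (flat φ (Matrix.of H) * flat φ A).rank := Matrix.rank_mul_le_left _ _
      _ ≤ (flat φ A).rank := Matrix.rank_mul_le_right _ _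
  have hcard : Fintype.card (Fin r × G) = Fintype.card G * r := by
    rw [Fintype.card_prod, Fintype.card_fin, mul_comm]
  rw [← hcard]
  exact le_antisymm hup hlow

end Pool.GA
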