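import Mathlib

/-!
Specialisation of the rank (GA, row of helper80).
-/

namespace Pool.GA

theorem rank_submatrix_le' {L : Type*} [Field L] {m n a b : Type*} [Fintype m] [Fintype n]
    [Fintype a] [Fintype b] [DecidableEq m] [DecidableEq n] (A : Matrix m n L) (f : a → m)
    (g : b → n) : (A.submatrix f g).rank ≤ A.rank := by
  have h : A.submatrix f g = ((1 : Matrix m m L).submatrix f id) *
      (A * ((1 : Matrix n n L).submatrix id g)) := by
    ext i j
    simp [Matrix.mul_apply, Matrix.one_apply]
  rw [h]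
  exact (Matrix.rank_mul_le_right _ _).trans (Matrix.rank_mul_le_left _ _)

/-- linearly independent rows (helper83) -/
theorem exists_rows' {F : Type*} [Field F] {m n : Type*} [Fintype m] [Fintype n]
    (Q : Matrix m n F) {r : ℕ} (h : r ≤ Q.rank) :
    ∃ f : Fin r → m, LinearIndependent F (Q.submatrix f id).row := by
  classical
  obtain ⟨κ, a, ha, hsp, hli⟩ := exists_linearIndependent' F Q.row
  have : Finite κ := Finite.of_injective a ha
  have : Fintype κ := Fintype.ofFinite κ
  have hcard : Fintype.card κ = Q.rank := by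
    rw [Q.rank_eq_finrank_span_row, ← hsp, finrank_span_eq_card hli]
  have ι : Fin r ↪ κ := (Fin.castLEEmb (by rw [hcard]; exact h)).trans
    (Fintype.equivFin κ).symm.toEmbedding
  refine ⟨fun i => a (ι i), ?_⟩
  exact hli.comp ι ι.injective

/-- a nonsingular square submatrix (helper83) -/
theorem exists_minor' {F : Type*} [Field F] {m n : Type*} [Fintype m] [Fintype n]
    (Q : Matrix m n F) {r : ℕ} (h : r ≤ Q.rank) :
    ∃ (f : Fin r → m) (g : Fin r → n), (Q.submatrix f g).det ≠ 0 := by
  obtain ⟨f, hf⟩ := exists_rows' Q h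
  have h1 : (Q.submatrix f id).rank = r := by
    rw [hf.rank_matrix, Fintype.card_fin]
  have h2 : r ≤ (Q.submatrix f id).transpose.rank := by
    rw [Matrix.rank_transpose, h1]
  obtain ⟨g, hg⟩ := exists_rows' _ h2
  refine ⟨f, g, ?_⟩
  have h3 : IsUnit ((Q.submatrix f id).transpose.submatrix g id) :=
    Matrix.linearIndependent_rows_iff_isUnit.1 hg
  have h4 := (Matrix.isUnit_iff_isUnit_det _).1 h3
  have h5 : (Q.submatrix f id).transpose.submatrix g id = (Q.submatrix f g).transpose := rfl
  rw [h5, Matrix.det_transpose] at h4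
  exact h4.ne_zero

theorem spec {F : Type*} [Field F] [Infinite F] {L : Type*} [Field L] {τ : Type*}
    (φ : MvPolynomial τ F →+* L) (hφ : Function.Injective φ) {m n : Type*} [Fintype m] [Fintype n]
    [DecidableEq m] [DecidableEq n] (N : Matrix m n (MvPolynomial τ F)) :
    (∀ x : τ → F, (N.map (MvPolynomial.eval x)).rank ≤ (N.map φ).rank) ∧
      ∃ x : τ → F, (N.map (MvPolynomial.eval x)).rank = (N.map φ).rank := by
  have h1 : ∀ x : τ → F, (N.map (MvPolynomial.eval x)).rank ≤ (N.map φ).rank := by
    intro x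
    obtain ⟨f, g, hfg⟩ := exists_minor' (N.map (MvPolynomial.eval x)) le_rfl
    have h2 : (N.submatrix f g).det ≠ 0 := by
      intro h0
      apply hfg
      have h3 : (N.map (MvPolynomial.eval x)).submatrix f g =
          (MvPolynomial.eval x).mapMatrix (N.submatrix f g) := rfl
      rw [h3, ← RingHom.map_det, h0, map_zero]
    have h4 : ((N.map φ).submatrix f g).det ≠ 0 := by
      have h3 : (N.map φ).submatrix f g = φ.mapMatrix (N.submatrix f g) := rfl
      rw [h3, ← RingHom.map_det, Ne, map_eq_zero_iff φ hφ]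
      exact h2
    have h5 : ((N.map φ).submatrix f g).rank = (N.map (MvPolynomial.eval x)).rank := by
      rw [Matrix.rank_of_isUnit _ ((Matrix.isUnit_iff_isUnit_det _).2 (isUnit_iff_ne_zero.2 h4)),
        Fintype.card_fin]
    rw [← h5]
    exact rank_submatrix_le' _ _ _
  refine ⟨h1, ?_⟩
  obtain ⟨f, g, hfg⟩ := exists_minor' (N.map φ) le_rfl
  have h2 : (N.submatrix f g).det ≠ 0 := by
    intro h0
    apply hfg
    have h3 : (N.map φ).submatrix f g = φ.mapMatrix (N.submatrix f g) := rfl
    rw [h3, ← RingHom.map_det, h0, map_zero]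
  obtain ⟨x, hx⟩ : ∃ x : τ → F, MvPolynomial.eval x (N.submatrix f g).det ≠ 0 := by
    by_contra hcon
    push Not at hcon
    exact h2 (MvPolynomial.funext fun x => by rw [hcon x, map_zero])
  refine ⟨x, le_antisymm (h1 x) ?_⟩
  have h4 : ((N.map (MvPolynomial.eval x)).submatrix f g).det ≠ 0 := by
    have h3 : (N.map (MvPolynomial.eval x)).submatrix f g =
        (MvPolynomial.eval x).mapMatrix (N.submatrix f g) := rfl
    rw [h3, ← RingHom.map_det]
    exact hx
  have h5 : ((N.map (MvPolynomial.eval x)).submatrix f g).rank = (N.map φ).rank := by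
    rw [Matrix.rank_of_isUnit _ ((Matrix.isUnit_iff_isUnit_det _).2 (isUnit_iff_ne_zero.2 h4)),
      Fintype.card_fin]
  rw [← h5]
  exact rank_submatrix_le' _ _ _

end Pool.GA
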