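import Pool.Agent.Lib.GA.Comm
import Pool.Agent.Lib.GA.Defs
import Pool.Agent.Lib.GA.RankFlat
import Pool.Agent.Lib.GA.Spec

/-!
The division ring of generic matrices is a model (GA, row of helper80).
-/

set_option linter.unusedSectionVars false

namespace Pool.GA

namespace DR

open Matrix

open scoped Kronecker

variable (F : Type) [Field F] {k : ℕ} (s : Type) (d : Fin k → ℕ) [∀ i, NeZero (d i)]

/-- the polynomial ring of the entries and of `t` inside `L` -/
noncomputable def phi : MvPolynomial (Option (Var s d)) F →+* L F s d :=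
  (algebraMap (Polynomial (L0 F s d)) (L F s d)).comp
    ((Polynomial.mapRingHom (algebraMap (MvPolynomial (Var s d) F) (L0 F s d))).comp
      (MvPolynomial.optionEquivLeft F (Var s d)).toRingEquiv.toRingHom)

theorem phi_inj : Function.Injective (phi F s d) := by
  intro a b h
  have h1 : (Polynomial.mapRingHom (algebraMap (MvPolynomial (Var s d) F) (L0 F s d)))
      ((MvPolynomial.optionEquivLeft F (Var s d)) a) =
      (Polynomial.mapRingHom (algebraMap (MvPolynomial (Var s d) F) (L0 F s d)))
      ((MvPolynomial.optionEquivLeft F (Var s d)) b) :=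
    RatFunc.algebraMap_injective (L0 F s d) h
  have h2 := Polynomial.map_injective (algebraMap (MvPolynomial (Var s d) F) (L0 F s d))
    (IsFractionRing.injective _ _) h1
  exact (MvPolynomial.optionEquivLeft F (Var s d)).injective h2

theorem phi_none : phi F s d (MvPolynomial.X none) = RatFunc.X := by
  show algebraMap (Polynomial (L0 F s d)) (L F s d)
    (Polynomial.map (algebraMap (MvPolynomial (Var s d) F) (L0 F s d)) ((MvPolynomial.optionEquivLeft F (Var s d))
    (MvPolynomial.X none))) = _
  rw [MvPolynomial.optionEquivLeft_X_none, Polynomial.map_X, RatFunc.algebraMap_X]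

theorem phi_some (x : Var s d) : phi F s d (MvPolynomial.X (some x)) = cv F s d x := by
  show algebraMap (Polynomial (L0 F s d)) (L F s d)
    (Polynomial.map (algebraMap (MvPolynomial (Var s d) F) (L0 F s d)) ((MvPolynomial.optionEquivLeft F (Var s d))
    (MvPolynomial.X (some x)))) = _
  rw [MvPolynomial.optionEquivLeft_X_some, Polynomial.map_C]
  rfl

theorem phi_C (a : F) : phi F s d (MvPolynomial.C a) = algebraMap F (L F s d) a := by
  show algebraMap (Polynomial (L0 F s d)) (L F s d)
    (Polynomial.map (algebraMap (MvPolynomial (Var s d) F) (L0 F s d)) ((MvPolynomial.optionEquivLeft F (Var s d))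
    (MvPolynomial.C a))) = _
  rw [MvPolynomial.optionEquivLeft_C, Polynomial.map_C,
    IsScalarTower.algebraMap_apply F (Polynomial (L0 F s d)) (L F s d)]
  rfl

/-- the polynomial position -/
noncomputable def XP (i : Fin k) (j : s) (g h : Fin (d i)) :
    MvPolynomial (Option (Var s d)) F :=
  MvPolynomial.X (some ⟨i, j, g, h⟩) * (if g < h then MvPolynomial.X none else 1)

variable {m n : Type} [Fintype m] [Fintype n] [DecidableEq m] [DecidableEq n] [Fintype s]

/-- the polynomial matrix -/
noncomputable def NP (T : Pen F k s m n) :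
    Matrix (m × G d) (n × G d) (MvPolynomial (Option (Var s d)) F) :=
  Matrix.of fun p q => MvPolynomial.C (T.c p.1 q.1) * (if p.2 = q.2 then 1 else 0) +
    ∑ i, ∑ j, MvPolynomial.C (T.a i j p.1 q.1) *
      (if ∀ i', i' ≠ i → p.2 i' = q.2 i' then XP F s d i j (p.2 i) (q.2 i) else 0)

/-- numeric positions from points -/
def XF (x : Option (Var s d) → F) (i : Fin k) (j : s) : Matrix (Fin (d i)) (Fin (d i)) F :=
  Matrix.of fun g h => x (some ⟨i, j, g, h⟩) * (if g < h then x none else 1)

theorem NP_eval (T : Pen F k s m n) (x : Option (Var s d) → F) :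
    (NP F s d T).map (MvPolynomial.eval x) = ev T (XF F s d x) := by
  ext p q
  simp only [NP, Matrix.map_apply, Matrix.of_apply, map_add, map_mul, map_sum,
    MvPolynomial.eval_C, ev, Matrix.add_apply, Matrix.sum_apply, Matrix.kroneckerMap_apply, fac,
    Matrix.one_apply, XF]
  congr 1
  · split_ifs <;> simp
  · refine Finset.sum_congr rfl fun i _ => Finset.sum_congr rfl fun j _ => ?_
    split_ifs with h1 h2
    · simp [XP, h2]
    · simp [XP, h2]
    · simp

variable (hd : Pairwise fun i j => Nat.Coprime (d i) (d j))

instance : Nontrivial (E F s d) := by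
  refine ⟨0, 1, ?_⟩
  intro h
  have h1 : (0 : Matrix (G d) (G d) (L F s d)) = 1 := congrArg Subtype.val h
  exact zero_ne_one h1

/-- the division ring structure -/
noncomputable abbrev divE : DivisionRing (E F s d) :=
  DivisionRing.ofIsUnitOrEqZero (isUnit_or_eq_zero F s d hd)

/-- the generic elements -/
noncomputable def xE (i : Fin k) (j : s) : E F s d := ⟨xm F s d i j, xm_mem F s d i j⟩

theorem NP_phi (T : Pen F k s m n) :
    (NP F s d T).map (phi F s d) = Matrix.of fun (p : m × G d) (q : n × G d) =>
      ((evE T (xE F s d) p.1 q.1 : E F s d) : Matrix (G d) (G d) (L F s d)) p.2 q.2 := by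
  ext p q
  simp only [NP, Matrix.map_apply, Matrix.of_apply, map_add, map_mul, map_sum, phi_C, evE,
    Matrix.add_apply, Matrix.sum_apply]
  rw [Subalgebra.coe_add, Matrix.add_apply]
  congr 1
  · rw [Subalgebra.coe_algebraMap, Matrix.algebraMap_matrix_apply]
    split_ifs <;> simp
  · rw [AddSubmonoidClass.coe_finsetSum, Matrix.sum_apply]
    refine Finset.sum_congr rfl fun i _ => ?_
    rw [AddSubmonoidClass.coe_finsetSum, Matrix.sum_apply]
    refine Finset.sum_congr rfl fun j _ => ?_
    rw [Subalgebra.coe_mul, Subalgebra.coe_algebraMap, Matrix.algebraMap_eq_diagonal,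
      Matrix.diagonal_mul]
    simp only [Pi.algebraMap_apply, xE, xm, XP]
    split_ifs with h1 h2
    · simp [phi_some, phi_none]
    · simp [phi_some]
    · simp

include hd in
theorem rank_phi (T : Pen F k s m n) :
    letI := divE F s d hd
    ((NP F s d T).map (phi F s d)).rank = (∏ i, d i) * rkE (evE T (xE F s d)) := by
  letI := divE F s d hd
  rw [NP_phi]
  have h := rank_flat (E F s d).val.toRingHom (evE T (xE F s d))
  have hc : Fintype.card (G d) = ∏ i, d i := by
    rw [Fintype.card_pi]; simp
  rw [hc] at h
  exact h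

end DR

/-- the model -/
noncomputable def model (F : Type) [Field F] [Infinite F] {k : ℕ} (σ : Type) [Fintype σ]
    (d : Fin k → ℕ) (hpos : ∀ i, 0 < d i) (hd : Pairwise fun i j => Nat.Coprime (d i) (d j)) :
    Model F σ d := by
  haveI : ∀ i, NeZero (d i) := fun i => ⟨(hpos i).ne'⟩
  letI := DR.divE F σ d hd
  exact
    { E := DR.E F σ d
      dr := DR.divE F σ d hd
      alg := inferInstance
      x := DR.xE F σ d
      le := by
        intro m n _ _ _ _ T X
        have h1 := (spec (DR.phi F σ d) (DR.phi_inj F σ d) (DR.NP F σ d T)).1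
          (fun v => match v with
            | none => 1
            | some ⟨i, j, g, h⟩ => X i j g h)
        rw [DR.NP_eval, DR.rank_phi F σ d hd] at h1
        refine le_trans (le_of_eq ?_) h1
        congr 2
        funext i j
        ext g h
        simp [DR.XF]
      ge := by
        intro m n _ _ _ _ T
        obtain ⟨x, hx⟩ := (spec (DR.phi F σ d) (DR.phi_inj F σ d) (DR.NP F σ d T)).2
        refine ⟨DR.XF F σ d x, ?_⟩
        rw [← DR.NP_eval, hx, DR.rank_phi F σ d hd] }

theorem exists_model (F : Type) [Field F] [Infinite F] {k : ℕ} (σ : Type) [Fintype σ]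
    (d : Fin k → ℕ) (hpos : ∀ i, 0 < d i) (hd : Pairwise fun i j => Nat.Coprime (d i) (d j)) :
    Nonempty (Model F σ d) := ⟨model F σ d hpos hd⟩

end Pool.GA
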