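import Pool.Agent.Lib.GA.Fac2
import Pool.Agent.Lib.GA.Basic1
import Pool.Agent.Lib.GA.ModelEx

/-! # GA, row EXACT: models at large exponents are exact -/

open scoped Kronecker

namespace Pool.GA

variable {F : Type} [Field F] {k : ℕ} {σ m n : Type} [Fintype σ] [Fintype m] [Fintype n] [DecidableEq m]
  [DecidableEq n]

/-- models at sizes `P i ^ a i` -/
abbrev PModel (F : Type) [Field F] {k : ℕ} (σ : Type) [Fintype σ] (P a : Fin k → ℕ) := Model F σ fun i => P i ^ a i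

theorem exists_pmodel (F : Type) [Field F] [Infinite F] {k : ℕ} (σ : Type) [Fintype σ] {P : Fin k → ℕ}
    (hP : ∀ i, 0 < P i) (hco : ∀ i j, i ≠ j → (P i).Coprime (P j)) (a : Fin k → ℕ) :
    Nonempty (PModel F σ P a) :=
  exists_model F σ _ (fun i => pow_pos (hP i) _) fun i j hij => (hco i j hij).pow _ _

theorem rkE_le_rho {P : Fin k → ℕ} (hP : ∀ i, 0 < P i) {a : Fin k → ℕ} (Mo : PModel F σ P a)
    (T : Pen F k σ m n) : rkE (evE T Mo.x) ≤ rho P T := by
  obtain ⟨X, hX⟩ := Mo.ge m n T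
  refine le_rho hP T X ?_
  rw [← hX, mul_comm]

/-- exactness for all exponents above some exponent -/
theorem exists_exact {P : Fin k → ℕ} (hP : ∀ i, 0 < P i) (T : Pen F k σ m n) :
    ∃ a0 : Fin k → ℕ, ∀ a, a0 ≤ a → ∀ Mo : PModel F σ P a, rkE (evE T Mo.x) = rho P T := by
  obtain ⟨a0, X, hX⟩ := exists_rho_le hP T
  refine ⟨a0, fun a ha Mo => le_antisymm (rkE_le_rho hP Mo T) ?_⟩
  obtain ⟨X', hX'⟩ := exists_rank_mul ha T X
  have h1 := Mo.le m n T X'
  rw [hX'] at h1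
  have h2 : ∏ i, P i ^ a i = (∏ i, P i ^ a0 i) * ∏ i, P i ^ (a i - a0 i) := by
    rw [← Finset.prod_mul_distrib]
    refine Finset.prod_congr rfl fun i _ => ?_
    rw [← pow_add]
    congr 1
    have h4 : a0 i ≤ a i := ha i
    omega
  have h3 : (∏ i, P i ^ a i) * rho P T ≤ (∏ i, P i ^ a i) * rkE (evE T Mo.x) := by
    refine le_trans ?_ h1
    rw [h2, mul_comm, ← mul_assoc]
    exact Nat.mul_le_mul_right _ hX
  exact Nat.le_of_mul_le_mul_left h3 (Finset.prod_pos fun i _ => pow_pos (hP i) _)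

/-- for all large exponents every model is exact -/
theorem eventually_exact {P : Fin k → ℕ} (hP : ∀ i, 0 < P i) (T : Pen F k σ m n) :
    ∀ᶠ a : Fin k → ℕ in Filter.atTop, ∀ Mo : PModel F σ P a, rkE (evE T Mo.x) = rho P T := by
  obtain ⟨a0, h0⟩ := exists_exact hP T
  exact Filter.eventually_atTop.mpr ⟨a0, fun a ha => h0 a ha⟩

/-- no position has a rank larger than `rho P T` times its size -/
theorem rank_ev_le [Infinite F] {P : Fin k → ℕ} (hP : ∀ i, 0 < P i) (hco : ∀ i j, i ≠ j → (P i).Coprime (P j))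
    (T : Pen F k σ m n) {a : Fin k → ℕ} (X : ∀ i, σ → Matrix (Fin (P i ^ a i)) (Fin (P i ^ a i)) F) :
    (ev T X).rank ≤ rho P T * ∏ i, P i ^ a i := by
  obtain ⟨Mo⟩ := exists_pmodel F σ hP hco a
  refine (Mo.le m n T X).trans ?_
  rw [mul_comm]
  exact Nat.mul_le_mul_right _ (rkE_le_rho hP Mo T)

/-- one exponent for a finite family -/
theorem exists_exact_family {P : Fin k → ℕ} (hP : ∀ i, 0 < P i) {ι : Type*} [Finite ι] (m n : ι → Type)
    [∀ i, Fintype (m i)] [∀ i, Fintype (n i)] [∀ i, DecidableEq (m i)] [∀ i, DecidableEq (n i)]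
    (T : ∀ i, Pen F k σ (m i) (n i)) :
    ∃ a0 : Fin k → ℕ, ∀ a, a0 ≤ a → ∀ (Mo : PModel F σ P a) (i : ι), rkE (evE (T i) Mo.x) = rho P (T i) := by
  classical
  cases nonempty_fintype ι
  choose a0 h0 using fun i => exists_exact hP (T i)
  refine ⟨fun j => ∑ i, a0 i j, fun a ha Mo i => h0 i a (fun j => ?_) Mo⟩
  exact (Finset.single_le_sum (f := fun i => a0 i j) (fun _ _ => Nat.zero_le _) (Finset.mem_univ i)).trans (ha j)

end Pool.GA
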