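import Mathlib

/-!
MP_37c7bf_co, GA: first order lemma for pencils of linear maps over a division ring with a central
subfield.
-/

set_option autoImplicit false

namespace Pool.GA
open Module

section FO
variable {F E U U' V : Type*} [Field F] [DivisionRing E] [Algebra F E]
  [AddCommGroup U] [Module E U]
  [AddCommGroup U'] [Module E U'] [Module F U'] [IsScalarTower F E U'] [SMulCommClass E F U']
  [AddCommGroup V] [Module E V] [Module F V] [IsScalarTower F E V] [SMulCommClass E F V]

/-- eigenvectors to different central eigenvalues are independent over `E` -/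
theorem FO_eig (H : V →ₗ[E] V) (S : Finset F) (v : F → V) (hv : ∀ t ∈ S, v t ≠ 0)
    (hH : ∀ t ∈ S, v t + t • H (v t) = 0) : LinearIndepOn E v (S : Set F) := by
  classical
  induction S using Finset.induction_on with
  | empty => simp
  | insert a S ha ih =>
    have ih' := ih (fun t ht => hv t (Finset.mem_insert_of_mem ht))
      (fun t ht => hH t (Finset.mem_insert_of_mem ht))
    rw [Finset.coe_insert]
    refine ih'.insert ?_
    intro hmem
    obtain ⟨c, hc⟩ := (Submodule.mem_span_image_finset_iff_exists_fun' E).1 hmem
    have key : ∀ i ∈ S, i ≠ 0 ∧ v i + a • H (v i) = (1 - a * i⁻¹) • v i := by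
      intro i hi
      have h1 := hH i (Finset.mem_insert_of_mem hi)
      have h2 := hv i (Finset.mem_insert_of_mem hi)
      have hi0 : i ≠ 0 := by
        rintro rfl
        rw [zero_smul, add_zero] at h1
        exact h2 h1
      refine ⟨hi0, ?_⟩
      have h3 : H (v i) = -(i⁻¹ • v i) := by
        have h4 : i • H (v i) = - v i := by
          rw [eq_neg_iff_add_eq_zero, add_comm]; exact h1
        rw [← smul_neg, ← h4, smul_smul, inv_mul_cancel₀ hi0, one_smul]
      rw [h3, smul_neg, smul_smul, sub_smul, one_smul, sub_eq_add_neg]
    have h5 : ∑ i ∈ S, (c i * algebraMap F E (1 - a * i⁻¹)) • v i = 0 := by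
      have h6 := hH a (Finset.mem_insert_self a S)
      rw [← hc, map_sum, Finset.smul_sum, ← Finset.sum_add_distrib] at h6
      rw [← h6]
      refine Finset.sum_congr rfl fun i hi => ?_
      rw [map_smul, ← smul_comm (c i) a, ← smul_add, (key i hi).2, mul_smul, algebraMap_smul]
    have h7 := linearIndepOn_finset_iff.1 ih' _ h5
    have h8 : v a = 0 := by
      rw [← hc]
      refine Finset.sum_eq_zero fun i hi => ?_
      have h9 := h7 i hi
      have h10 : algebraMap F E (1 - a * i⁻¹) ≠ 0 := by
        rw [Ne, map_eq_zero]
        intro h11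
        have h12 : a * i⁻¹ = 1 := (sub_eq_zero.1 h11).symm
        have h13 : a = i := by
          rw [← mul_one a, ← inv_mul_cancel₀ (key i hi).1, ← mul_assoc, h12, one_mul]
        exact ha (h13 ▸ hi)
      rw [(mul_eq_zero.1 h9).resolve_right h10, zero_smul]
    exact hv a (Finset.mem_insert_self a S) h8

/-- `1 + t H` is injective for all but at most `dim V` values of `t` -/
theorem FO_inj [FiniteDimensional E V] (H : V →ₗ[E] V) (S : Finset F)
    (hS : ∀ t ∈ S, ¬ Function.Injective (LinearMap.id + t • H : V →ₗ[E] V)) :
    S.card ≤ finrank E V := by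
  classical
  have h1 : ∀ t : F, ∃ v : V, t ∈ S → v ≠ 0 ∧ v + t • H v = 0 := by
    intro t
    by_cases ht : t ∈ S
    · have h2 := hS t ht
      rw [← LinearMap.ker_eq_bot, Submodule.eq_bot_iff] at h2
      push Not at h2
      obtain ⟨v, hv, hv0⟩ := h2
      exact ⟨v, fun _ => ⟨hv0, hv⟩⟩
    · exact ⟨0, fun h => absurd h ht⟩
  choose v hv using h1
  have h2 := FO_eig H S v (fun t ht => (hv t ht).1) (fun t ht => (hv t ht).2)
  have h3 := LinearIndependent.fintype_card_le_finrank (b := fun x : (S : Set F) => v x) h2
  simpa using h3

/-- an injective linear map stays injective along a pencil for all but `dim V` values -/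
theorem FO_pencil [FiniteDimensional E V] (Q Q' : V →ₗ[E] U') (hQ : Function.Injective Q)
    (S : Finset F) (hS : ∀ t ∈ S, ¬ Function.Injective (Q + t • Q')) : S.card ≤ finrank E V := by
  obtain ⟨G, hG⟩ := Q.exists_leftInverse_of_injective (LinearMap.ker_eq_bot.2 hQ)
  refine FO_inj (G ∘ₗ Q') S fun t ht h => hS t ht ?_
  have h1 : LinearMap.id + t • (G ∘ₗ Q') = G ∘ₗ (Q + t • Q') := by
    ext x
    have h2 : G (t • Q' x) = t • G (Q' x) := by
      rw [← algebraMap_smul E t (Q' x), map_smul, algebraMap_smul]
    have h3 : G (Q x) = x := LinearMap.congr_fun hG x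
    simp [h2, h3]
  rw [h1] at h
  exact Function.Injective.of_comp (f := G) (by simpa using h)

/-- independent vectors stay independent along a pencil for all but `|ι|` values -/
theorem FO_vec {ι : Type*} [Fintype ι] (y z : ι → U') (hy : LinearIndependent E y)
    (S : Finset F) (hS : ∀ t ∈ S, ¬ LinearIndependent E (fun i => y i + t • z i)) :
    S.card ≤ Fintype.card ι := by
  classical
  have h := FO_pencil (F := F) (V := ι → E) (Fintype.linearCombination E y)
    (Fintype.linearCombination E z) hy.fintypeLinearCombination_injective S
    (fun t ht hinj => hS t ht ?_)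
  · simpa using h
  · rw [linearIndependent_iff_injective_fintypeLinearCombination]
    convert hinj using 1
    funext c
    simp only [Fintype.linearCombination_apply, LinearMap.add_apply, LinearMap.smul_apply,
      Finset.smul_sum, smul_add, Finset.sum_add_distrib]
    congr 1
    exact Finset.sum_congr rfl fun i _ => smul_comm (c i) t (z i)

/-- the rank does not drop for all but at most `rank P` values of `t` -/
theorem FO_ge [FiniteDimensional E U'] (P P' : U →ₗ[E] U') (S : Finset F)
    (hS : ∀ t ∈ S, finrank E (LinearMap.range (P + t • P')) < finrank E (LinearMap.range P)) :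
    S.card ≤ finrank E (LinearMap.range P) := by
  classical
  let b := finBasis E (LinearMap.range P)
  have h1 : ∀ i, ∃ u, P u = b i := fun i => (b i).2
  choose u hu using h1
  have hy : LinearIndependent E (fun i => P (u i)) := by
    have h2 : (fun i => P (u i)) = (LinearMap.range P).subtype ∘ b := by
      funext i; rw [hu]; rfl
    rw [h2]
    exact b.linearIndependent.map' _ (Submodule.ker_subtype _)
  have h := FO_vec (F := F) (fun i => P (u i)) (fun i => P' (u i)) hy S (fun t ht hli => ?_)
  · simpa using h
  · have h3 : LinearIndependent E (fun i => (⟨(P + t • P') (u i), ⟨u i, rfl⟩⟩ :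
        LinearMap.range (P + t • P'))) := by
      apply LinearIndependent.of_comp (LinearMap.range (P + t • P')).subtype
      exact hli
    have h4 := h3.fintype_card_le_finrank
    rw [Fintype.card_fin] at h4
    exact absurd (hS t ht) (not_lt.2 h4)

/-- the rank increases for all but at most `rank P + 2` values of `t` if `P'` does not map the
kernel of `P` into the range of `P` -/
theorem FO_gt [FiniteDimensional E U'] (P P' : U →ₗ[E] U') (u0 : U) (h0 : P u0 = 0)
    (h0' : P' u0 ∉ LinearMap.range P) (S : Finset F)
    (hS : ∀ t ∈ S, finrank E (LinearMap.range (P + t • P')) ≤ finrank E (LinearMap.range P)) :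
    S.card ≤ finrank E (LinearMap.range P) + 2 := by
  classical
  let b := finBasis E (LinearMap.range P)
  have h1 : ∀ i, ∃ u, P u = b i := fun i => (b i).2
  choose u hu using h1
  have hy : LinearIndependent E (fun i => P (u i)) := by
    have h2 : (fun i => P (u i)) = (LinearMap.range P).subtype ∘ b := by
      funext i; rw [hu]; rfl
    rw [h2]
    exact b.linearIndependent.map' _ (Submodule.ker_subtype _)
  let y : Option (Fin (finrank E (LinearMap.range P))) → U' := fun o => o.elim (P' u0) (fun i => P (u i))
  let z : Option (Fin (finrank E (LinearMap.range P))) → U' := fun o => o.elim 0 (fun i => P' (u i))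
  have hy' : LinearIndependent E y := by
    rw [linearIndependent_option]
    refine ⟨hy, fun hmem => h0' ?_⟩
    refine Submodule.span_le.2 ?_ hmem
    rintro _ ⟨i, rfl⟩
    exact ⟨u i, rfl⟩
  have h := FO_vec (F := F) y z hy' (S.erase 0) (fun t ht hli => ?_)
  · rw [Fintype.card_option, Fintype.card_fin] at h
    have h5 := Finset.pred_card_le_card_erase (s := S) (a := 0)
    omega
  · have ht0 : t ≠ 0 := Finset.ne_of_mem_erase ht
    have hmem : ∀ o, y o + t • z o ∈ LinearMap.range (P + t • P') := by
      intro o
      cases o with
      | none =>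
        refine ⟨algebraMap F E t⁻¹ • u0, ?_⟩
        simp only [LinearMap.add_apply, LinearMap.smul_apply, map_smul, h0, smul_zero, zero_add, y, z,
          Option.elim]
        rw [algebraMap_smul, smul_smul, inv_mul_cancel₀ ht0, one_smul, add_zero]
      | some i => exact ⟨u i, rfl⟩
    have h3 : LinearIndependent E (fun o => (⟨y o + t • z o, hmem o⟩ :
        LinearMap.range (P + t • P'))) := by
      apply LinearIndependent.of_comp (LinearMap.range (P + t • P')).subtype
      exact hli
    have h4 := h3.fintype_card_le_finrank
    rw [Fintype.card_option, Fintype.card_fin] at h4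
    have h6 := hS t (Finset.mem_of_mem_erase ht)
    omega

end FO

/-- the first order lemma for a finite family: if for all `t` in a large finite set the sum of the
ranks of `P i + t P' i` is not larger than the sum of the ranks of `P i`, then `P' i` maps the kernel
of `P i` into the range of `P i`, for all `i` -/
theorem FO_family {F E ι : Type*} [Field F] [DivisionRing E] [Algebra F E] [Fintype ι]
    {U U' : ι → Type*} [∀ i, AddCommGroup (U i)] [∀ i, Module E (U i)]
    [∀ i, AddCommGroup (U' i)] [∀ i, Module E (U' i)] [∀ i, Module F (U' i)]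
    [∀ i, IsScalarTower F E (U' i)] [∀ i, SMulCommClass E F (U' i)]
    [∀ i, FiniteDimensional E (U' i)] (P P' : ∀ i, U i →ₗ[E] U' i) (S : Finset F)
    (hcard : ∑ i, finrank E (LinearMap.range (P i)) + 2 < S.card)
    (hS : ∀ t ∈ S, ∑ i, finrank E (LinearMap.range (P i + t • P' i)) ≤
      ∑ i, finrank E (LinearMap.range (P i)))
    (i : ι) (u : U i) (hu : P i u = 0) : P' i u ∈ LinearMap.range (P i) := by
  classical
  by_contra hno
  -- for each `t` one of the ranks drops, or the rank of number `i` does not increase
  have h1 : S ⊆ (Finset.univ.erase i).biUnion (fun k => S.filter (fun t =>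
      finrank E (LinearMap.range (P k + t • P' k)) < finrank E (LinearMap.range (P k)))) ∪
      S.filter (fun t =>
        finrank E (LinearMap.range (P i + t • P' i)) ≤ finrank E (LinearMap.range (P i))) := by
    intro t ht
    by_contra hn
    simp only [Finset.mem_union, Finset.mem_biUnion, Finset.mem_erase, Finset.mem_univ, and_true,
      Finset.mem_filter, not_or, not_exists, not_and, not_lt, not_le] at hn
    have h2 := hS t ht
    have h3 : ∑ k, finrank E (LinearMap.range (P k)) <
        ∑ k, finrank E (LinearMap.range (P k + t • P' k)) := by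
      refine Finset.sum_lt_sum (fun k _ => ?_) ⟨i, Finset.mem_univ i, hn.2 ht⟩
      by_cases hk : k = i
      · subst hk; exact (hn.2 ht).le
      · exact hn.1 k hk ht
    omega
  have h4 := Finset.card_le_card h1
  have h5 := Finset.card_union_le ((Finset.univ.erase i).biUnion (fun k => S.filter (fun t =>
      finrank E (LinearMap.range (P k + t • P' k)) < finrank E (LinearMap.range (P k)))))
      (S.filter (fun t =>
        finrank E (LinearMap.range (P i + t • P' i)) ≤ finrank E (LinearMap.range (P i))))
  have h6 : ((Finset.univ.erase i).biUnion (fun k => S.filter (fun t =>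
      finrank E (LinearMap.range (P k + t • P' k)) < finrank E (LinearMap.range (P k))))).card ≤
      ∑ k ∈ Finset.univ.erase i, finrank E (LinearMap.range (P k)) := by
    refine Finset.card_biUnion_le.trans (Finset.sum_le_sum fun k _ => ?_)
    exact FO_ge (P k) (P' k) _ (fun t ht => (Finset.mem_filter.1 ht).2)
  have h7 : (S.filter (fun t =>
        finrank E (LinearMap.range (P i + t • P' i)) ≤ finrank E (LinearMap.range (P i)))).card ≤
      finrank E (LinearMap.range (P i)) + 2 :=
    FO_gt (P i) (P' i) u hu hno _ (fun t ht => (Finset.mem_filter.1 ht).2)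
  have h8 : ∑ k ∈ Finset.univ.erase i, finrank E (LinearMap.range (P k)) +
      finrank E (LinearMap.range (P i)) = ∑ k, finrank E (LinearMap.range (P k)) :=
    Finset.sum_erase_add _ _ (Finset.mem_univ i)
  omega

end Pool.GA
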