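import Pool.Agent.Lib.GA.Defs

/-! # GA, row FAC2: reindexing and multiples of positions -/

set_option linter.unusedSectionVars false

open scoped Kronecker

namespace Pool.GA

section Kron

variable {F : Type*} [Field F]

/-- the rank of copies of a matrix -/
theorem rank_kron_one {m n ι : Type*} [Fintype m] [Fintype n] [Fintype ι] [DecidableEq ι] (A : Matrix m n F) :
    (A ⊗ₖ (1 : Matrix ι ι F)).rank = Fintype.card ι * A.rank := by
  classical
  have key : ∀ (v : n × ι → F) (r : m) (s : ι),
      (A ⊗ₖ (1 : Matrix ι ι F)).mulVec v (r, s) = A.mulVec (fun c => v (c, s)) r := by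
    intro v r s
    rw [Matrix.mulVec, Matrix.mulVec, dotProduct, dotProduct, Fintype.sum_prod_type]
    refine Finset.sum_congr rfl fun c _ => ?_
    rw [Finset.sum_eq_single s]
    · simp [Matrix.kroneckerMap_apply]
    · intro b _ hb
      simp [Matrix.kroneckerMap_apply, Matrix.one_apply_ne (Ne.symm hb)]
    · simp
  let e : LinearMap.range (A ⊗ₖ (1 : Matrix ι ι F)).mulVecLin ≃ₗ[F] (ι → LinearMap.range A.mulVecLin) :=
    { toFun := fun w s => ⟨fun r => w.1 (r, s), by
        obtain ⟨v, hv⟩ := w.2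
        refine ⟨fun c => v (c, s), ?_⟩
        funext r
        rw [← hv, Matrix.mulVecLin_apply, Matrix.mulVecLin_apply, key]⟩
      invFun := fun w => ⟨fun p => (w p.2).1 p.1, by
        choose v hv using fun s => (w s).2
        refine ⟨fun p => v p.2 p.1, ?_⟩
        funext p
        obtain ⟨r, s⟩ := p
        rw [Matrix.mulVecLin_apply, key]
        have := congrFun (hv s) r
        rw [Matrix.mulVecLin_apply] at this
        exact this⟩
      map_add' := fun _ _ => rfl
      map_smul' := fun _ _ => rfl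
      left_inv := fun _ => rfl
      right_inv := fun _ => rfl }
  rw [Matrix.rank, LinearEquiv.finrank_eq e, Module.finrank_pi_fintype, Matrix.rank]
  simp

end Kron

section Scale

variable {F : Type} [Field F] {k : ℕ} {σ m n : Type} [Fintype σ]

/-- pairs of families are families of pairs -/
def splitE {m : Type} {k : ℕ} (G H : Fin k → Type) :
    (m × (∀ i, G i × H i)) ≃ ((m × (∀ i, G i)) × (∀ i, H i)) where
  toFun p := ((p.1, fun i => (p.2 i).1), fun i => (p.2 i).2)
  invFun p := (p.1.1, fun i => (p.1.2 i, p.2 i))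
  left_inv _ := rfl
  right_inv _ := rfl

variable {G H : Fin k → Type} [∀ i, DecidableEq (G i)] [∀ i, DecidableEq (H i)]

theorem ev_kron_one (T : Pen F k σ m n) (X : ∀ i, σ → Matrix (G i) (G i) F) :
    ev T (fun i j => X i j ⊗ₖ (1 : Matrix (H i) (H i) F)) =
      ((ev T X) ⊗ₖ (1 : Matrix (∀ i, H i) (∀ i, H i) F)).submatrix (splitE G H) (splitE G H) := by
  classical
  ext ⟨r, p⟩ ⟨c, q⟩
  have h0 : ∀ i, (1 : Matrix (∀ i, H i) (∀ i, H i) F) (fun i => (p i).2) (fun i => (q i).2) =
      (if ∀ j, j ≠ i → (p j).2 = (q j).2 then 1 else 0) * (1 : Matrix (H i) (H i) F) (p i).2 (q i).2 := by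
    intro i
    simp only [Matrix.one_apply]
    by_cases h : ∀ i, (p i).2 = (q i).2
    · rw [if_pos (funext h), if_pos (fun j _ => h j), if_pos (h i), one_mul]
    · rw [if_neg (fun h1 => h (fun i => congrFun h1 i))]
      by_cases h1 : ∀ j, j ≠ i → (p j).2 = (q j).2
      · rw [if_pos h1, one_mul, if_neg]
        intro h2
        apply h
        intro j
        by_cases hj : j = i
        · subst hj; exact h2
        · exact h1 j hj
      · rw [if_neg h1, zero_mul]
  have hfac : ∀ (i : Fin k) (j : σ), fac i (X i j ⊗ₖ (1 : Matrix (H i) (H i) F)) p q =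
      fac i (X i j) (fun i => (p i).1) (fun i => (q i).1) *
        (1 : Matrix (∀ i, H i) (∀ i, H i) F) (fun i => (p i).2) (fun i => (q i).2) := by
    intro i j
    rw [h0 i]
    simp only [fac, Matrix.of_apply, Matrix.kroneckerMap_apply]
    by_cases h1 : ∀ j, j ≠ i → p j = q j
    · rw [if_pos h1, if_pos (fun j hj => by rw [h1 j hj]), if_pos (fun j hj => by rw [h1 j hj]), one_mul]
    · rw [if_neg h1]
      by_cases h2 : ∀ j, j ≠ i → (p j).1 = (q j).1
      · rw [if_pos h2, if_neg, zero_mul, mul_zero]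
        intro h3
        exact h1 (fun j hj => Prod.ext (h2 j hj) (h3 j hj))
      · rw [if_neg h2, zero_mul]
  have hone : (1 : Matrix (∀ i, G i × H i) (∀ i, G i × H i) F) p q =
      (1 : Matrix (∀ i, G i) (∀ i, G i) F) (fun i => (p i).1) (fun i => (q i).1) *
        (1 : Matrix (∀ i, H i) (∀ i, H i) F) (fun i => (p i).2) (fun i => (q i).2) := by
    by_cases h : p = q
    · subst h; simp
    · rw [Matrix.one_apply_ne h]
      by_cases h1 : (fun i => (p i).1) = (fun i => (q i).1)
      · rw [Matrix.one_apply_ne (i := (fun i => (p i).2)), mul_zero]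
        intro h2
        apply h
        funext i
        exact Prod.ext (congrFun h1 i) (congrFun h2 i)
      · rw [Matrix.one_apply_ne h1, zero_mul]
  simp only [ev, Matrix.add_apply, Matrix.sum_apply, Matrix.kroneckerMap_apply, Matrix.submatrix_apply,
    splitE, Equiv.coe_fn_mk]
  rw [add_mul, hone, Finset.sum_mul]
  congr 1
  · ring
  · refine Finset.sum_congr rfl fun i _ => ?_
    rw [Finset.sum_mul]
    refine Finset.sum_congr rfl fun j _ => ?_
    rw [hfac]
    ring

/-- multiples of a position -/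
theorem rank_ev_kron [Fintype m] [Fintype n] [DecidableEq m] [DecidableEq n] [∀ i, Fintype (G i)]
    {H : Fin k → Type} [∀ i, DecidableEq (H i)] [∀ i, Fintype (H i)] (T : Pen F k σ m n)
    (X : ∀ i, σ → Matrix (G i) (G i) F) :
    (ev T fun i j => X i j ⊗ₖ (1 : Matrix (H i) (H i) F)).rank
      = (ev T X).rank * ∏ i, Fintype.card (H i) := by
  rw [ev_kron_one, Matrix.rank_submatrix, rank_kron_one, Fintype.card_pi, mul_comm]

/-- reindexing a position -/
theorem ev_reindex {G' : Fin k → Type} [∀ i, DecidableEq (G' i)] (e : ∀ i, G' i ≃ G i)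
    (T : Pen F k σ m n) (X : ∀ i, σ → Matrix (G i) (G i) F) :
    ev T (fun i j => (X i j).submatrix (e i) (e i)) =
      (ev T X).submatrix (Equiv.prodCongr (Equiv.refl m) (Equiv.piCongrRight e))
        (Equiv.prodCongr (Equiv.refl n) (Equiv.piCongrRight e)) := by
  ext ⟨r, p⟩ ⟨c, q⟩
  simp only [ev, Matrix.add_apply, Matrix.sum_apply, Matrix.kroneckerMap_apply, Matrix.submatrix_apply,
    Equiv.prodCongr_apply, Prod.map_apply, Equiv.refl_apply, fac, Matrix.of_apply,
    Equiv.piCongrRight_apply, Pi.map_apply, EmbeddingLike.apply_eq_iff_eq]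
  congr 1
  congr 1
  by_cases h : p = q
  · subst h; simp
  · rw [Matrix.one_apply_ne h, Matrix.one_apply_ne]
    intro h1
    apply h
    funext i
    exact (e i).injective (congrFun h1 i)

/-- reindexing of the position -/
theorem rank_ev_reindex [Fintype n] [∀ i, Fintype (G i)] {G' : Fin k → Type} [∀ i, DecidableEq (G' i)]
    [∀ i, Fintype (G' i)] (e : ∀ i, G' i ≃ G i) (T : Pen F k σ m n)
    (X : ∀ i, σ → Matrix (G i) (G i) F) :
    (ev T fun i j => (X i j).submatrix (e i) (e i)).rank = (ev T X).rank := by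
  rw [ev_reindex, Matrix.rank_submatrix]

end Scale

section

variable {F : Type} [Field F] {k : ℕ} {σ m n : Type} [Fintype σ]

/-- multiples of a position, sizes `P i ^ a i` -/
theorem exists_rank_mul [Fintype m] [Fintype n] [DecidableEq m] [DecidableEq n] {P : Fin k → ℕ}
    {a b : Fin k → ℕ} (hab : a ≤ b) (T : Pen F k σ m n)
    (X : ∀ i, σ → Matrix (Fin (P i ^ a i)) (Fin (P i ^ a i)) F) :
    ∃ X' : ∀ i, σ → Matrix (Fin (P i ^ b i)) (Fin (P i ^ b i)) F,
      (ev T X').rank = (ev T X).rank * ∏ i, P i ^ (b i - a i) := by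
  have e : ∀ i, Fin (P i ^ b i) ≃ Fin (P i ^ a i) × Fin (P i ^ (b i - a i)) := fun i =>
    (finCongr (by rw [← pow_add]; congr 1; have h1 : a i ≤ b i := hab i; omega)).trans finProdFinEquiv.symm
  refine ⟨fun i j => ((X i j) ⊗ₖ (1 : Matrix (Fin (P i ^ (b i - a i))) (Fin (P i ^ (b i - a i))) F)).submatrix
    (e i) (e i), ?_⟩
  rw [rank_ev_reindex e, rank_ev_kron]
  simp

end

end Pool.GA
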