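import Pool.Agent.Lib.GA.Defs

/-! # GA, row FAC3: the top part of a position -/

open scoped Kronecker

namespace Pool.GA

variable {F : Type} [Field F] {k : ℕ} {σ m n : Type} [Fintype σ]

private theorem fac3_zero {G : Fin (k + 1) → Type} [∀ i, DecidableEq (G i)]
    (A : Matrix (G 0) (G 0) F) (g0 h0 : G 0) (g h : ∀ i : Fin k, G i.succ) :
    fac 0 A (Fin.cons g0 g) (Fin.cons h0 h) = if g = h then A g0 h0 else 0 := by
  unfold fac
  rw [Matrix.of_apply]
  congr 1
  · apply propext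
    constructor
    · intro H
      funext i
      exact H i.succ (Fin.succ_ne_zero i)
    · rintro rfl j hj
      obtain ⟨i, rfl⟩ := Fin.exists_succ_eq.2 hj
      rfl

private theorem fac3_succ {G : Fin (k + 1) → Type} [∀ i, DecidableEq (G i)] (i : Fin k)
    (A : Matrix (G i.succ) (G i.succ) F) (g0 h0 : G 0) (g h : ∀ i : Fin k, G i.succ) :
    fac i.succ A (Fin.cons g0 g) (Fin.cons h0 h) =
      (1 : Matrix (G 0) (G 0) F) g0 h0 * fac (G := fun i => G i.succ) i A g h := by
  unfold fac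
  rw [Matrix.of_apply, Matrix.of_apply, Matrix.one_apply]
  by_cases h1 : g0 = h0
  · rw [if_pos h1, one_mul]
    congr 1
    apply propext
    constructor
    · intro H j hj
      exact H j.succ fun hh => hj (Fin.succ_injective _ hh)
    · intro H j hj
      induction j using Fin.cases with
      | zero => exact h1
      | succ j => exact H j fun hh => hj (by rw [hh])
  · rw [if_neg h1, zero_mul, if_neg]
    intro H
    exact h1 (H 0 (Fin.succ_ne_zero i).symm)

/-- splitting off the top part of a position -/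
theorem rank_ev_evTop [Fintype n] {G : Fin (k + 1) → Type} [∀ i, DecidableEq (G i)] [∀ i, Fintype (G i)]
    (T : Pen F (k + 1) σ m n) (X : ∀ i, σ → Matrix (G i) (G i) F) :
    (ev (evTop T (X 0)) fun i j => X i.succ j).rank = (ev T X).rank := by
  classical
  let er : (m × G 0) × (∀ i : Fin k, G i.succ) ≃ m × (∀ i, G i) :=
    (Equiv.prodAssoc _ _ _).trans (Equiv.prodCongr (Equiv.refl m) (Fin.consEquiv G))
  let ec : (n × G 0) × (∀ i : Fin k, G i.succ) ≃ n × (∀ i, G i) :=
    (Equiv.prodAssoc _ _ _).trans (Equiv.prodCongr (Equiv.refl n) (Fin.consEquiv G))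
  have e : (ev (evTop T (X 0)) fun i j => X i.succ j) = (ev T X).submatrix er ec := by
    ext ⟨⟨r, g0⟩, g⟩ ⟨⟨c, h0⟩, h⟩
    have h1 : er ((r, g0), g) = (r, Fin.cons g0 g) := rfl
    have h2 : ec ((c, h0), h) = (c, Fin.cons h0 h) := rfl
    rw [Matrix.submatrix_apply, h1, h2]
    unfold ev evTop
    simp only [Matrix.add_apply, Matrix.sum_apply, Matrix.kroneckerMap_apply, Fin.sum_univ_succ,
      fac3_zero, fac3_succ]
    have h3 : (1 : Matrix (∀ i, G i) (∀ i, G i) F) (Fin.cons g0 g) (Fin.cons h0 h) =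
        (1 : Matrix (G 0) (G 0) F) g0 h0 *
          (1 : Matrix (∀ i : Fin k, G i.succ) (∀ i : Fin k, G i.succ) F) g h := by
      simp only [Matrix.one_apply, Fin.cons_inj]
      by_cases h4 : g0 = h0 <;> by_cases h5 : g = h <;> simp [h4, h5]
    rw [h3, add_mul, Finset.sum_mul, add_assoc]
    congr 1
    · ring
    · congr 1
      · refine Finset.sum_congr rfl fun j _ => ?_
        rw [Matrix.one_apply]
        split_ifs <;> ring
      · refine Finset.sum_congr rfl fun i _ => Finset.sum_congr rfl fun j _ => ?_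
        ring
  rw [e, Matrix.rank_submatrix]

/-- prepending a top part to a position, sizes `P i ^ a i` -/
theorem rank_ev_cons [Fintype n] {P : Fin (k + 1) → ℕ} {δ : Type} [DecidableEq δ] [Fintype δ] {e : ℕ}
    (hδ : Fintype.card δ = P 0 ^ e) {a : Fin k → ℕ} (T : Pen F (k + 1) σ m n) (M : σ → Matrix δ δ F)
    (X : ∀ i : Fin k, σ → Matrix (Fin (P i.succ ^ a i)) (Fin (P i.succ ^ a i)) F) :
    ∃ X' : ∀ i : Fin (k + 1), σ → Matrix (Fin (P i ^ (Fin.cons e a : Fin (k + 1) → ℕ) i))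
        (Fin (P i ^ (Fin.cons e a : Fin (k + 1) → ℕ) i)) F,
      (ev T X').rank = (ev (evTop T M) X).rank := by
  classical
  let ε : δ ≃ Fin (P 0 ^ e) := Fintype.equivFinOfCardEq hδ
  let X0 : σ → Matrix (Fin (P 0 ^ e)) (Fin (P 0 ^ e)) F := fun j => (M j).submatrix ε.symm ε.symm
  refine ⟨Fin.cases (motive := fun i => σ → Matrix (Fin (P i ^ (Fin.cons e a : Fin (k + 1) → ℕ) i))
        (Fin (P i ^ (Fin.cons e a : Fin (k + 1) → ℕ) i)) F) X0 X, ?_⟩
  rw [← rank_ev_evTop]
  show (ev (evTop T X0) X).rank = _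
  let er : (m × Fin (P 0 ^ e)) × (∀ i : Fin k, Fin (P i.succ ^ a i)) ≃
      (m × δ) × (∀ i : Fin k, Fin (P i.succ ^ a i)) :=
    Equiv.prodCongr (Equiv.prodCongr (Equiv.refl m) ε.symm) (Equiv.refl _)
  let ec : (n × Fin (P 0 ^ e)) × (∀ i : Fin k, Fin (P i.succ ^ a i)) ≃
      (n × δ) × (∀ i : Fin k, Fin (P i.succ ^ a i)) :=
    Equiv.prodCongr (Equiv.prodCongr (Equiv.refl n) ε.symm) (Equiv.refl _)
  have e1 : ev (evTop T X0) X = (ev (evTop T M) X).submatrix er ec := by
    ext ⟨⟨r, g0⟩, g⟩ ⟨⟨c, h0⟩, h⟩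
    have h1 : er ((r, g0), g) = ((r, ε.symm g0), g) := rfl
    have h2 : ec ((c, h0), h) = ((c, ε.symm h0), h) := rfl
    rw [Matrix.submatrix_apply, h1, h2]
    unfold ev evTop
    simp only [Matrix.add_apply, Matrix.sum_apply, Matrix.kroneckerMap_apply, Matrix.one_apply,
      X0, Matrix.submatrix_apply, EmbeddingLike.apply_eq_iff_eq]
  rw [e1, Matrix.rank_submatrix]

end Pool.GA
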