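import Pool.Agent.Lib.GA.Defs

/-! # GA: stuck states -/

open scoped Kronecker

namespace Pool.GA

variable {F : Type} [Field F] {k : ℕ} {σ m n : Type} [Fintype σ] [DecidableEq σ] [Fintype m] [Fintype n]
  [DecidableEq m] [DecidableEq n]

/-- no single change of an entry to a value `v < q` improves the potential; `P` are the bases of the lower
parts -/
structure IsStuck (q : ℕ) {D : ℕ} (P : Fin k → ℕ) (T : Pen F (k + 1) σ m n) (M : σ → Matrix (Fin D) (Fin D) F)
    (L : ℕ → Fin D → F) (B : ℕ) : Prop where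
  moveM : ∀ j a a', ∀ v < q, Phi P T (updM M j a a' (v : F)) L B ≤ Phi P T M L B
  moveL : ∀ i < B, ∀ a, ∀ v < q, Phi P T M (updL L i a (v : F)) B ≤ Phi P T M L B

end Pool.GA
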