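import Pool.Agent.Lib.GA.StuckG
import Pool.Agent.Lib.GA.FO

/-!
# GA: the level step for linear maps

If no change of a single entry of the state `(M, L)` to a value of `S` increases the potential, then the state
satisfies the first order conditions, hence the rank of `T(M')` is at most `card δ * ⌈rank T(M) / D⌉` for all `M'`.
-/

namespace GA

set_option linter.unusedSectionVars false

open Module

variable {F E : Type*} [Field F] [DivisionRing E] [Algebra F E]
variable {V V' : Type*} [AddCommGroup V] [Module E V] [Module F V] [IsScalarTower F E V] [FiniteDimensional E V]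
  [AddCommGroup V'] [Module E V'] [Module F V'] [IsScalarTower F E V'] [FiniteDimensional E V']
variable {ι α : Type*} [Fintype ι] [DecidableEq ι] [Fintype α] [DecidableEq α]

/-- change one entry of `M` -/
def updM' (M : ι → α → α → F) (j : ι) (a a' : α) (t : F) : ι → α → α → F :=
  fun j₁ x y => if j₁ = j ∧ x = a ∧ y = a' then t else M j₁ x y

/-- change one entry of `L` -/
def updL' (L : ℕ → α → F) (i : ℕ) (a : α) (t : F) : ℕ → α → F :=
  fun i₁ x => if i₁ = i ∧ x = a then t else L i₁ x

/-- the potential of a state -/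
noncomputable def pot (A0 : V →ₗ[E] V') (A : ι → V →ₗ[E] V') (M : ι → α → α → F) (L : ℕ → α → F) (n : ℕ) : ℕ :=
  ∑ b ∈ Finset.range (n + 1),
    (finrank E (LinearMap.range (PP A0 A b M (fun i : Fin n => L i))) +
      finrank E (LinearMap.range (hat (PP A0 A b M (fun i : Fin n => L i)))))

/-- direction in `M` -/
def dirM (F : Type*) [Field F] (j : ι) (a a' : α) : ι → α → α → F :=
  fun j₁ x y => if j₁ = j ∧ x = a ∧ y = a' then 1 else 0

/-- direction in `L` -/
def dirL (F : Type*) [Field F] {n : ℕ} (i : ℕ) (a : α) : Fin n → α → F :=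
  fun i₁ x => if (i₁ : ℕ) = i ∧ x = a then 1 else 0

variable {A0 : V →ₗ[E] V'} {A : ι → V →ₗ[E] V'} {M : ι → α → α → F} {L : ℕ → α → F}

theorem Tdir_dirM (j : ι) (a a' : α) (κ : α → V) :
    Tdir A (dirM F j a a') κ = Pi.single a' (A j (κ a)) := by
  funext y
  rw [Tdir_apply, Finset.sum_eq_single j]
  · rw [Finset.sum_eq_single a]
    · by_cases h : y = a'
      · subst h; simp [dirM]
      · simp [dirM, h, Pi.single_eq_of_ne]
    · intro b _ hb; simp [dirM, hb]
    · simp
  · intro k _ hk; simp [dirM, hk]
  · simp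

theorem ev_dirL {n : ℕ} (i : ℕ) (a : α) (k : Fin n) (κ : α → V) :
    ev (E := E) (dirL F i a k) κ = if (k : ℕ) = i then κ a else 0 := by
  rw [ev_apply]
  by_cases h : (k : ℕ) = i
  · rw [if_pos h, Finset.sum_eq_single a]
    · simp [dirL, h]
    · intro b _ hb; simp [dirL, hb]
    · simp
  · rw [if_neg h]
    exact Finset.sum_eq_zero (fun b _ => by simp [dirL, h])

theorem PP_fst {n b : ℕ} (l : Fin n → α → F) (κ : α → V) : (PP A0 A b M l κ).1 = TT A0 A M κ := rfl
theorem PP_snd {n b : ℕ} (l : Fin n → α → F) (κ : α → V) : (PP A0 A b M l κ).2 = Lpart (E := E) b l κ := rfl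
theorem Pdir_fst {n b : ℕ} (l : Fin n → α → F) (κ : α → V) : (Pdir A b M l κ).1 = Tdir A M κ := rfl
theorem Pdir_snd {n b : ℕ} (l : Fin n → α → F) (κ : α → V) :
    (Pdir A b M l κ).2 = Lpart (E := E) b l κ := rfl

theorem PP_updM (n b : ℕ) (j : ι) (a a' : α) (t : F) (l : Fin n → α → F) :
    PP A0 A b (updM' M j a a' t) l = PP A0 A b M l + (t - M j a a') • Pdir A b (dirM F j a a') 0 := by
  apply LinearMap.ext
  intro κ
  refine Prod.ext ?_ ?_
  · funext y
    simp only [LinearMap.add_apply, LinearMap.smul_apply,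
      Prod.fst_add, Prod.smul_fst, Pi.add_apply, Pi.smul_apply, PP_fst, Pdir_fst, Tdir_dirM, TT_apply]
    rw [add_assoc]
    congr 1
    have h1 : ∀ k x, updM' M j a a' t k x y • A k (κ x) =
        M k x y • A k (κ x) + (if k = j then (if x = a then
          (t - M j a a') • (Pi.single a' (A j (κ a)) : α → V') y else 0) else 0) := by
      intro k x
      by_cases hk : k = j
      · by_cases hx : x = a
        · by_cases hy : y = a'
          · subst hk hx hy
            simp only [updM', and_self, if_true, Pi.single_eq_same]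
            rw [sub_smul]; abel
          · subst hk hx
            simp [updM', hy, Pi.single_eq_of_ne]
        · simp [updM', hx]
      · simp [updM', hk]
    simp_rw [h1, Finset.sum_add_distrib]
    congr 1
    simp
  · funext k
    simp only [LinearMap.add_apply, LinearMap.smul_apply,
      Prod.snd_add, Prod.smul_snd, Pi.add_apply, Pi.smul_apply, PP_snd, Pdir_snd, Lpart_apply]
    split
    · simp [ev_zero]
    · simp

theorem PP_updL (n b : ℕ) (i : ℕ) (a : α) (t : F) :
    PP A0 A b M (fun k : Fin n => updL' L i a t k) =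
      PP A0 A b M (fun k : Fin n => L k) + (t - L i a) • Pdir A b 0 (dirL F i a) := by
  apply LinearMap.ext
  intro κ
  refine Prod.ext ?_ ?_
  · funext y
    simp only [LinearMap.add_apply, LinearMap.smul_apply,
      Prod.fst_add, Prod.smul_fst, Pi.add_apply, Pi.smul_apply, PP_fst, Pdir_fst, Tdir_apply]
    simp
  · funext k
    simp only [LinearMap.add_apply, LinearMap.smul_apply,
      Prod.snd_add, Prod.smul_snd, Pi.add_apply, Pi.smul_apply, PP_snd, Pdir_snd, Lpart_apply]
    split
    · rw [ev_dirL, ev_apply, ev_apply]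
      have h1 : ∀ x, updL' L i a t k x • κ x = L k x • κ x +
          (if x = a then (t - L i a) • (if (k : ℕ) = i then κ a else 0) else 0) := by
        intro x
        by_cases hx : x = a
        · by_cases hk : (k : ℕ) = i
          · subst hx
            simp only [updL', hk, and_self, if_true]
            rw [sub_smul]; abel
          · simp [updL', hk]
        · simp [updL', hx]
      simp_rw [h1, Finset.sum_add_distrib]
      congr 1
      simp
    · simp

theorem hat_add {Y : Type*} [AddCommGroup Y] [Module E Y] [Module F Y] [IsScalarTower F E Y]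
    (Q Q' : (α → V) →ₗ[E] Y) (s : F) : hat (Q + s • Q') = hat Q + s • hatdir Q' := by
  apply LinearMap.ext
  intro κ
  refine Prod.ext ?_ ?_
  · funext c
    simp [hat, hatdir]
  · simp [hat, hatdir]

theorem finrank_range_prodMap {U U' X X' : Type*} [AddCommGroup U] [Module E U] [AddCommGroup U'] [Module E U']
    [AddCommGroup X] [Module E X] [AddCommGroup X'] [Module E X'] [FiniteDimensional E X] [FiniteDimensional E X']
    (f : U →ₗ[E] X) (g : U' →ₗ[E] X') :
    finrank E (LinearMap.range (f.prodMap g)) = finrank E (LinearMap.range f) + finrank E (LinearMap.range g) := by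
  rw [LinearMap.range_prodMap]
  have e : (Submodule.prod (LinearMap.range f) (LinearMap.range g)) ≃ₗ[E]
      (LinearMap.range f × LinearMap.range g) :=
    { toFun := fun x => (⟨x.1.1, x.2.1⟩, ⟨x.1.2, x.2.2⟩)
      invFun := fun x => ⟨(x.1.1, x.2.1), ⟨x.1.2, x.2.2⟩⟩
      map_add' := fun _ _ => rfl
      map_smul' := fun _ _ => rfl
      left_inv := fun _ => rfl
      right_inv := fun _ => rfl }
  rw [LinearEquiv.finrank_eq e, finrank_prod]

/-- the general form of the first order step: a direction `(Q b)` of all the `P_b` -/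
theorem fo_core {n : ℕ} (S : Finset F) (hcard : pot A0 A M L n + 2 < S.card)
    (Q : ℕ → (α → V) →ₗ[E] (α → V') × (Fin n → V))
    (hS : ∀ t ∈ S, ∑ b ∈ Finset.range (n + 1),
      (finrank E (LinearMap.range (PP A0 A b M (fun i : Fin n => L i) + t • Q b)) +
      finrank E (LinearMap.range (hat (PP A0 A b M (fun i : Fin n => L i) + t • Q b)))) ≤ pot A0 A M L n)
    (b : ℕ) (hb : b ≤ n) :
    (∀ κ : α → V, PP A0 A b M (fun i : Fin n => L i) κ = 0 →
      Q b κ ∈ LinearMap.range (PP A0 A b M (fun i : Fin n => L i))) ∧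
    (∀ η : α → α → V, hat (PP A0 A b M (fun i : Fin n => L i)) η = 0 →
      hatdir (Q b) η ∈ LinearMap.range (hat (PP A0 A b M (fun i : Fin n => L i)))) := by
  classical
  have key := Pool.GA.FO_family (F := F) (E := E) (ι := Fin (n + 1))
    (U := fun _ => (α → V) × (α → α → V))
    (U' := fun _ => ((α → V') × (Fin n → V)) × ((α → (α → V') × (Fin n → V)) × V))
    (fun c => (PP A0 A c M (fun i : Fin n => L i)).prodMap (hat (PP A0 A c M (fun i : Fin n => L i))))
    (fun c => (Q c).prodMap (hatdir (Q c))) S ?_ ?_ ⟨b, by omega⟩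
  · constructor
    · intro κ hκ
      have h1 := key (κ, 0) (by simp [hκ])
      rw [LinearMap.range_prodMap, Submodule.mem_prod] at h1
      exact h1.1
    · intro η hη
      have h1 := key (0, η) (by simp [hη])
      rw [LinearMap.range_prodMap, Submodule.mem_prod] at h1
      exact h1.2
  · simp_rw [finrank_range_prodMap]
    rw [Fin.sum_univ_eq_sum_range (fun c => finrank E (LinearMap.range (PP A0 A c M (fun i : Fin n => L i))) +
      finrank E (LinearMap.range (hat (PP A0 A c M (fun i : Fin n => L i))))) (n + 1)]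
    exact hcard
  · intro t ht
    have h2 := hS t ht
    have h2' : ∀ c, hat (PP A0 A c M (fun i : Fin n => L i) + t • Q c) =
        hat (PP A0 A c M (fun i : Fin n => L i)) + t • hatdir (Q c) := fun c => hat_add _ _ t
    rw [Finset.sum_congr rfl (fun c _ => by rw [h2' c])] at h2
    have h3 : ∀ c : Fin (n + 1), (PP A0 A c M (fun i : Fin n => L i)).prodMap
        (hat (PP A0 A c M (fun i : Fin n => L i))) + t • (Q c).prodMap (hatdir (Q c)) =
        (PP A0 A c M (fun i : Fin n => L i) + t • Q c).prodMap
          (hat (PP A0 A c M (fun i : Fin n => L i)) + t • hatdir (Q c)) := by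
      intro c
      apply LinearMap.ext
      rintro ⟨x, y⟩
      rfl
    rw [Finset.sum_congr rfl (fun c _ => by rw [h3 c, finrank_range_prodMap])]
    simp_rw [finrank_range_prodMap]
    rw [Fin.sum_univ_eq_sum_range (fun c => finrank E (LinearMap.range (PP A0 A c M (fun i : Fin n => L i))) +
      finrank E (LinearMap.range (hat (PP A0 A c M (fun i : Fin n => L i))))) (n + 1),
      Fin.sum_univ_eq_sum_range (fun c => finrank E (LinearMap.range (PP A0 A c M (fun i : Fin n => L i) + t • Q c)) +
      finrank E (LinearMap.range (hat (PP A0 A c M (fun i : Fin n => L i)) + t • hatdir (Q c)))) (n + 1)]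
    exact h2

theorem PP_eq_zero {n b : ℕ} (hb : b ≤ n) (κ : α → V) :
    PP A0 A b M (fun i : Fin n => L i) κ = 0 ↔ κ ∈ KK A0 A M L b := by
  rw [mem_KK]
  constructor
  · intro h
    have h1 := congrArg Prod.fst h
    have h2 := congrArg Prod.snd h
    refine ⟨h1, fun i hi => ?_⟩
    have h3 := congrFun h2 ⟨i, by omega⟩
    change Lpart (E := E) b (fun i : Fin n => L i) κ ⟨i, _⟩ = 0 at h3
    rw [Lpart_apply, if_pos hi] at h3
    exact h3
  · rintro ⟨h1, h2⟩
    refine Prod.ext h1 ?_
    funext i
    change Lpart (E := E) b (fun i : Fin n => L i) κ i = 0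
    rw [Lpart_apply]
    split
    · exact h2 i (by assumption)
    · rfl

theorem FOg_of_local {n : ℕ} (S : Finset F) (hcard : pot A0 A M L n + 2 < S.card)
    (hM : ∀ j a a', ∀ t ∈ S, pot A0 A (updM' M j a a' t) L n ≤ pot A0 A M L n)
    (hL : ∀ i < n, ∀ a, ∀ t ∈ S, pot A0 A M (updL' L i a t) n ≤ pot A0 A M L n) :
    FOg A0 A M L n := by
  classical
  have kM : ∀ (j : ι) (a a' : α) (b : ℕ) (hb : b ≤ n),
      (∀ κ : α → V, PP A0 A b M (fun i : Fin n => L i) κ = 0 →
      Pdir A b (dirM F j a a') (0 : Fin n → α → F) κ ∈ LinearMap.range (PP A0 A b M (fun i : Fin n => L i))) ∧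
    (∀ η : α → α → V, hat (PP A0 A b M (fun i : Fin n => L i)) η = 0 →
      hatdir (Pdir A b (dirM F j a a') (0 : Fin n → α → F)) η ∈
        LinearMap.range (hat (PP A0 A b M (fun i : Fin n => L i)))) := by
    intro j a a' b hb
    refine fo_core (S.image (fun t => t - M j a a'))
      (by rwa [Finset.card_image_of_injective _ (sub_left_injective)])
      (fun b => Pdir A b (dirM F j a a') (0 : Fin n → α → F)) ?_ b hb
    intro t' ht'
    obtain ⟨t, ht, rfl⟩ := Finset.mem_image.mp ht'
    have h := hM j a a' t ht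
    have h' : ∀ c, PP A0 A c M (fun i : Fin n => L i) + (t - M j a a') • Pdir A c (dirM F j a a') 0 =
      PP A0 A c (updM' M j a a' t) (fun i : Fin n => L i) := fun c => (PP_updM n c j a a' t _).symm
    refine le_trans (le_of_eq (Finset.sum_congr rfl (fun c _ => ?_))) h
    rw [h' c]
  have kL : ∀ (i : ℕ) (hi : i < n) (a : α) (b : ℕ) (hb : b ≤ n),
      (∀ κ : α → V, PP A0 A b M (fun i : Fin n => L i) κ = 0 →
      Pdir A b 0 (dirL F (n := n) i a) κ ∈ LinearMap.range (PP A0 A b M (fun i : Fin n => L i))) := by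
    intro i hi a b hb
    refine (fo_core (S.image (fun t => t - L i a))
      (by rwa [Finset.card_image_of_injective _ (sub_left_injective)])
      (fun b => Pdir A b 0 (dirL F (n := n) i a)) ?_ b hb).1
    intro t' ht'
    obtain ⟨t, ht, rfl⟩ := Finset.mem_image.mp ht'
    have h := hL i hi a t ht
    have h' : ∀ c, PP A0 A c M (fun i : Fin n => L i) + (t - L i a) • Pdir A c 0 (dirL F i a) =
      PP A0 A c M (fun k : Fin n => updL' L i a t k) := fun c => (PP_updL n c i a t).symm
    refine le_trans (le_of_eq (Finset.sum_congr rfl (fun c _ => ?_))) h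
    rw [h' c]
  refine ⟨?_, ?_, ?_⟩
  · intro i hi a κ hκ
    obtain ⟨y, hy⟩ := kL i hi a (i + 1) (by omega) κ ((PP_eq_zero (by omega) κ).mpr hκ)
    have h1 := congrArg Prod.fst hy
    have h2 := congrArg Prod.snd hy
    change TT A0 A M y = Tdir A 0 κ at h1
    have h3 : ∀ k : Fin n, (if k.val < i + 1 then ev (E := E) (L k) y else 0) =
        if k.val < i + 1 then ev (E := E) (dirL F i a k) κ else 0 := by
      intro k
      have h4 := congrFun h2 k
      change Lpart (E := E) (i + 1) (fun i : Fin n => L i) y k = Lpart (E := E) (i + 1) (dirL F i a) κ k at h4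
      rw [Lpart_apply, Lpart_apply] at h4
      exact h4
    refine ⟨y, ?_, ?_⟩
    · rw [mem_KK]
      refine ⟨?_, ?_⟩
      · rw [h1]
        funext x
        rw [Tdir_apply]
        simp
      · intro k hk
        have h5 := h3 ⟨k, by omega⟩
        simp only at h5
        rw [if_pos (by omega), if_pos (by omega), ev_dirL, if_neg (by simp; omega)] at h5
        exact h5
    · have h5 := h3 ⟨i, hi⟩
      simp only at h5
      rw [if_pos (by omega), if_pos (by omega), ev_dirL, if_pos rfl] at h5
      exact h5
  · intro b hb j a a' κ hκ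
    obtain ⟨y, hy⟩ := (kM j a a' b hb).1 κ ((PP_eq_zero hb κ).mpr hκ)
    have h1 := congrArg Prod.fst hy
    have h2 := congrArg Prod.snd hy
    change TT A0 A M y = Tdir A (dirM F j a a') κ at h1
    refine ⟨y, ?_, by rw [h1, Tdir_dirM]⟩
    intro i hi
    have h4 := congrFun h2 ⟨i, by omega⟩
    change Lpart (E := E) b (fun i : Fin n => L i) y ⟨i, _⟩ = Lpart (E := E) b 0 κ ⟨i, _⟩ at h4
    rw [Lpart_apply, Lpart_apply, if_pos hi, if_pos hi, Pi.zero_apply, ev_zero] at h4
    exact h4
  · intro b hb j a a' κ hκ hsum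
    obtain ⟨z, hz⟩ := (kM j a a' b hb).2 κ (by
      refine Prod.ext ?_ ?_
      · funext c
        exact (PP_eq_zero hb (κ c)).mpr (hκ c)
      · change dsum (E := E) κ = 0
        rw [dsum_apply]; exact hsum)
    have h1 := congrArg Prod.fst hz
    have h2 := congrArg Prod.snd hz
    refine ⟨z, ?_, ?_⟩
    · intro c
      have h3 := congrFun h1 c
      change PP A0 A b M (fun i : Fin n => L i) (z c) = Pdir A b (dirM F j a a') (0 : Fin n → α → F) (κ c) at h3
      have h5 := congrArg Prod.fst h3
      have h6 := congrArg Prod.snd h3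
      change TT A0 A M (z c) = Tdir A (dirM F j a a') (κ c) at h5
      refine ⟨?_, by rw [h5, Tdir_dirM]⟩
      intro i hi
      have h4 := congrFun h6 ⟨i, by omega⟩
      change Lpart (E := E) b (fun i : Fin n => L i) (z c) ⟨i, _⟩ = Lpart (E := E) b 0 (κ c) ⟨i, _⟩ at h4
      rw [Lpart_apply, Lpart_apply, if_pos hi, if_pos hi, Pi.zero_apply, ev_zero] at h4
      exact h4
    · change dsum (E := E) z = 0 at h2
      rw [dsum_apply] at h2
      exact h2

theorem FOg.mono {n n' : ℕ} (H : FOg A0 A M L n) (h : n' ≤ n) : FOg A0 A M L n' :=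
  ⟨fun i hi => H.fo1 i (by omega), fun b hb => H.fo2 b (by omega), fun b hb => H.fo3 b (by omega)⟩

theorem finrank_range_add_le {U X : Type*} [AddCommGroup U] [Module E U] [AddCommGroup X] [Module E X]
    [FiniteDimensional E U] [FiniteDimensional E X] (f : U →ₗ[E] X) (S : Submodule E U) :
    finrank E (LinearMap.range f) + finrank E S ≤ finrank E (S.map f) + finrank E U := by
  have h1 := LinearMap.finrank_range_add_finrank_ker f
  have h2 := LinearMap.finrank_range_add_finrank_ker (f.domRestrict S)
  have h3 : finrank E (LinearMap.range (f.domRestrict S)) = finrank E (S.map f) := by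
    rw [LinearMap.range_domRestrict]
  have h4 : finrank E (LinearMap.ker (f.domRestrict S)) ≤ finrank E (LinearMap.ker f) := by
    refine LinearMap.finrank_le_finrank_of_injective
      (f := ((S.subtype ∘ₗ (LinearMap.ker (f.domRestrict S)).subtype).codRestrict (LinearMap.ker f) ?_)) ?_
    · intro x
      exact x.2
    · intro x y hxy
      have := congrArg Subtype.val hxy
      exact Subtype.ext (Subtype.ext this)
  omega

/-- a shrunk subspace bounds the ranks of all evaluations -/
theorem shrunk_bound {δ : Type*} [Fintype δ] [DecidableEq δ] (W : Submodule E V) (W' : Submodule E V')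
    (h0 : W.map A0 ≤ W') (hk : ∀ k, W.map (A k) ≤ W') (M' : ι → δ → δ → F) :
    finrank E (LinearMap.range (TT A0 A M')) + Fintype.card δ * finrank E W ≤
      Fintype.card δ * finrank E W' + Fintype.card δ * finrank E V := by
  have h1 := finrank_range_add_le (TT A0 A M') (hyp δ W)
  rw [finrank_hyp] at h1
  have h2 : finrank E ((hyp δ W).map (TT A0 A M')) ≤ Fintype.card δ * finrank E W' := by
    rw [← finrank_hyp (α := δ) W']
    apply Submodule.finrank_mono
    rintro _ ⟨κ, hκ, rfl⟩
    rw [mem_hyp]
    have hκ' := mem_hyp.mp hκ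
    intro a'
    rw [TT_apply]
    refine W'.add_mem (h0 ⟨_, hκ' a', rfl⟩) ?_
    refine W'.sum_mem (fun k _ => W'.sum_mem (fun a _ => ?_))
    rw [← algebraMap_smul E]
    exact W'.smul_mem _ (hk k ⟨_, hκ' a, rfl⟩)
  have h3 : finrank E (δ → V) = Fintype.card δ * finrank E V := by
    rw [finrank_pi_fintype]; simp
  rw [h3] at h1
  omega

theorem finrank_range_TT {δ : Type*} [Fintype δ] [DecidableEq δ] (M' : ι → δ → δ → F) :
    finrank E (LinearMap.range (TT A0 A M')) ≤ Fintype.card δ * finrank E V := by
  have h1 := LinearMap.finrank_range_le (TT A0 A M')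
  have h3 : finrank E (δ → V) = Fintype.card δ * finrank E V := by
    rw [finrank_pi_fintype]; simp
  omega

/-- rank and the first kernel -/
theorem finrank_KK_zero : finrank E (LinearMap.range (TT A0 A M)) + finrank E (KK A0 A M L 0) =
    Fintype.card α * finrank E V := by
  have h1 := LinearMap.finrank_range_add_finrank_ker (TT A0 A M)
  have h3 : finrank E (α → V) = Fintype.card α * finrank E V := by
    rw [finrank_pi_fintype]; simp
  have h4 : KK A0 A M L 0 = LinearMap.ker (TT A0 A M) := by
    ext κ
    rw [mem_KK, LinearMap.mem_ker]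
    simp
  rw [h4]
  omega

/-- the bound from the first order conditions -/
theorem bound_of_FOg {N : ℕ} (H : FOg A0 A M L (N ^ 2)) (hN : finrank E V = N)
    (hD : N ^ 3 < Fintype.card α) {δ : Type*} [Fintype δ] [DecidableEq δ] (M' : ι → δ → δ → F) :
    finrank E (LinearMap.range (TT A0 A M')) ≤ Fintype.card δ *
      ((finrank E (LinearMap.range (TT A0 A M)) + Fintype.card α - 1) / Fintype.card α) := by
  set c := finrank E (LinearMap.range (TT A0 A M)) with hc
  set D := Fintype.card α with hDD
  have hD0 : 0 < D := by omega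
  set r := (c + D - 1) / D with hr
  have hr1 : c ≤ D * r := by
    have := Nat.lt_mul_div_succ (c + D - 1) hD0
    rw [← hr, Nat.mul_add] at this
    omega
  by_cases hrN : N ≤ r
  · refine le_trans (finrank_range_TT M') ?_
    rw [hN]
    exact Nat.mul_le_mul_left _ hrN
  · push Not at hrN
    have h2 := finrank_KK_zero (A0 := A0) (A := A) (M := M) (L := L)
    rw [hN, ← hc, ← hDD] at h2
    have h5 : D * (N - r) + D * r = D * N := by
      rw [← Nat.mul_add]; congr 1; omega
    obtain ⟨W, hW⟩ := stuck_s (N := N) (s0 := N - r) H hN (by rw [← hDD]; exact hD) (by omega) (by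
      rw [← hDD]
      omega)
    have h3 := shrunk_bound (A0 := A0) (A := A) W _ le_sup_left
      (fun k => le_trans (le_iSup (fun k => W.map (A k)) k) le_sup_right) M'
    rw [hN] at h3
    have h4 : Fintype.card δ * finrank E (W.map A0 ⊔ ⨆ k, W.map (A k) : Submodule E V') +
        Fintype.card δ * (N - r) ≤ Fintype.card δ * finrank E W := by
      rw [← Nat.mul_add]
      exact Nat.mul_le_mul_left _ hW
    have h6 : Fintype.card δ * (N - r) + Fintype.card δ * r = Fintype.card δ * N := by
      rw [← Nat.mul_add]; congr 1; omega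
    omega

/-- THE LEVEL STEP for linear maps -/
theorem ls_level {N n : ℕ} (S : Finset F) (hN : finrank E V = N) (hn : N ^ 2 ≤ n)
    (hD : N ^ 3 < Fintype.card α) (hcard : pot A0 A M L n + 2 < S.card)
    (hM : ∀ j a a', ∀ t ∈ S, pot A0 A (updM' M j a a' t) L n ≤ pot A0 A M L n)
    (hL : ∀ i < n, ∀ a, ∀ t ∈ S, pot A0 A M (updL' L i a t) n ≤ pot A0 A M L n)
    {δ : Type*} [Fintype δ] [DecidableEq δ] (M' : ι → δ → δ → F) :
    finrank E (LinearMap.range (TT A0 A M')) ≤ Fintype.card δ *
      ((finrank E (LinearMap.range (TT A0 A M)) + Fintype.card α - 1) / Fintype.card α) :=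
  bound_of_FOg ((FOg_of_local S hcard hM hL).mono hn) hN hD M'

end GA
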