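import Pool.Agent.Lib.GA.Exact
import Pool.Agent.Lib.GA.Fac3

/-! # GA, row NEST: evaluation of the top part -/

open scoped Kronecker

namespace Pool.GA

variable {F : Type} [Field F] {k : ℕ} {σ m n : Type} [Fintype σ] [Fintype m] [Fintype n] [DecidableEq m]
  [DecidableEq n]

theorem rho_evTop_le [Infinite F] {P : Fin (k + 1) → ℕ} (hP : ∀ i, 0 < P i)
    (hco : ∀ i j, i ≠ j → (P i).Coprime (P j)) (T : Pen F (k + 1) σ m n) {δ : Type} [Fintype δ] [DecidableEq δ]
    {e : ℕ} (hδ : Fintype.card δ = P 0 ^ e) (M : σ → Matrix δ δ F) :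
    rho (fun i : Fin k => P i.succ) (evTop T M) ≤ P 0 ^ e * rho P T := by
  obtain ⟨a, X, hX⟩ := exists_rho_le (P := fun i : Fin k => P i.succ) (fun i => hP i.succ) (evTop T M)
  obtain ⟨X', hX'⟩ := rank_ev_cons hδ T M X
  have h := rank_ev_le hP hco T X'
  rw [hX', Fin.prod_univ_succ] at h
  simp only [Fin.cons_zero, Fin.cons_succ] at h
  have hpos : 0 < ∏ i : Fin k, P i.succ ^ a i := Finset.prod_pos fun i _ => pow_pos (hP i.succ) _
  have h2 : rho (fun i : Fin k => P i.succ) (evTop T M) * ∏ i : Fin k, P i.succ ^ a i ≤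
      (P 0 ^ e * rho P T) * ∏ i : Fin k, P i.succ ^ a i := by
    calc _ ≤ _ := hX
      _ ≤ _ := h
      _ = _ := by ring
  exact Nat.le_of_mul_le_mul_right h2 hpos

theorem exists_le_rho_evTop {P : Fin (k + 1) → ℕ} (hP : ∀ i, 0 < P i) (T : Pen F (k + 1) σ m n) :
    ∃ (e : ℕ) (M : σ → Matrix (Fin (P 0 ^ e)) (Fin (P 0 ^ e)) F),
      P 0 ^ e * rho P T ≤ rho (fun i : Fin k => P i.succ) (evTop T M) := by
  obtain ⟨a, X, hX⟩ := exists_rho_le hP T
  refine ⟨a 0, X 0, ?_⟩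
  have h := rank_ev_evTop T X
  refine le_rho (P := fun i : Fin k => P i.succ) (fun i => hP i.succ) (evTop T (X 0))
    (a := fun i => a i.succ) (fun i j => X i.succ j) ?_
  refine le_trans (le_of_eq ?_) (hX.trans h.ge)
  rw [Fin.prod_univ_succ]
  ring

end Pool.GA
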