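import Pool.Agent.Lib.GA.LevelE
import Pool.Agent.Lib.GA.LSDef
import Pool.Agent.Lib.GA.Nest
import Pool.Agent.Lib.GA.Exact

/-! # GA, row LEVEL: the value at a stuck state -/

open scoped Kronecker

namespace Pool.GA

variable {F : Type} [Field F] [Infinite F] {k : ℕ} {σ m n : Type} [Fintype σ] [DecidableEq σ] [Fintype m]
  [Fintype n] [DecidableEq m] [DecidableEq n]

/-- the value of the stable rank at a stuck state -/
theorem rho_eq_of_isStuck (q : ℕ) [CharP F q] {P : Fin (k + 1) → ℕ} (hP : ∀ i, 0 < P i)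
    (hco : ∀ i j, i ≠ j → (P i).Coprime (P j)) (T : Pen F (k + 1) σ m n) {D e : ℕ} (hD : D = P 0 ^ e)
    (hN : Fintype.card m ^ 3 < D) (M : σ → Matrix (Fin D) (Fin D) F) (L : ℕ → Fin D → F)
    (hq : (Fintype.card m ^ 2 + 1) * (Fintype.card m * D + Fintype.card m * D ^ 2) + 2 < q)
    (h : IsStuck q (fun i : Fin k => P i.succ) T M L (Fintype.card m ^ 2)) :
    rho P T = (rho (fun i : Fin k => P i.succ) (evTop T M) + D - 1) / D := by
  classical
  have hD0 : 0 < D := by rw [hD]; exact pow_pos (hP 0) e
  have hP' : ∀ i : Fin k, 0 < P i.succ := fun i => hP _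
  have hco' : ∀ i j : Fin k, i ≠ j → (P i.succ).Coprime (P j.succ) := fun i j hij =>
    hco _ _ (fun h => hij (Fin.succ_injective _ h))
  apply le_antisymm
  · obtain ⟨e', M', hM'⟩ := exists_le_rho_evTop hP T
    -- an exact model
    have hev : ∀ᶠ a : Fin k → ℕ in Filter.atTop,
        (∀ Mo : PModel F σ (fun i : Fin k => P i.succ) a,
          rkE (evE (evTop T M) Mo.x) = rho (fun i : Fin k => P i.succ) (evTop T M)) ∧
        (∀ Mo : PModel F σ (fun i : Fin k => P i.succ) a,
          rkE (evE (evTop T M') Mo.x) = rho (fun i : Fin k => P i.succ) (evTop T M')) ∧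
        (∀ b ∈ Finset.range (Fintype.card m ^ 2 + 1), (∀ Mo : PModel F σ (fun i : Fin k => P i.succ) a,
          rkE (evE (PB T M L b) Mo.x) = rho (fun i : Fin k => P i.succ) (PB T M L b)) ∧
          (∀ Mo : PModel F σ (fun i : Fin k => P i.succ) a,
          rkE (evE (PH T M L b) Mo.x) = rho (fun i : Fin k => P i.succ) (PH T M L b))) := by
      refine (eventually_exact hP' _).and ((eventually_exact hP' _).and ?_)
      rw [Filter.eventually_all_finset]
      intro b _
      exact (eventually_exact hP' _).and (eventually_exact hP' _)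
    obtain ⟨a, ha1, ha2, ha3⟩ := hev.exists
    obtain ⟨Mo⟩ := exists_pmodel F σ hP' hco' a
    have e1 := ha1 Mo
    have e2 := ha2 Mo
    have hPhi : PhiE T Mo.x M L (Fintype.card m ^ 2) =
        Phi (fun i : Fin k => P i.succ) T M L (Fintype.card m ^ 2) := by
      unfold PhiE Phi
      refine Finset.sum_congr rfl fun b hb => ?_
      rw [(ha3 b hb).1 Mo, (ha3 b hb).2 Mo]
    have hle : ∀ (M₁ : σ → Matrix (Fin D) (Fin D) F) (L₁ : ℕ → Fin D → F),
        PhiE T Mo.x M₁ L₁ (Fintype.card m ^ 2) ≤
          Phi (fun i : Fin k => P i.succ) T M₁ L₁ (Fintype.card m ^ 2) := by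
      intro M₁ L₁
      unfold PhiE Phi
      exact Finset.sum_le_sum fun b _ => add_le_add (rkE_le_rho hP' Mo _) (rkE_le_rho hP' Mo _)
    have hS : ((Finset.range q).image (fun v : ℕ => (v : F))).card = q := by
      rw [Finset.card_image_of_injOn, Finset.card_range]
      intro v hv w hw hvw
      exact CharP.natCast_injOn_Iio F q (by simpa using hv) (by simpa using hw) hvw
    have key := level_E (D := D) (B := Fintype.card m ^ 2) T Mo.x M L
      ((Finset.range q).image (fun v : ℕ => (v : F))) le_rfl hN (by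
        rw [hS]
        have := PhiE_le T Mo.x M L (Fintype.card m ^ 2)
        omega) (fun j b b' t ht => by
          obtain ⟨v, hv, rfl⟩ := Finset.mem_image.1 ht
          rw [hPhi]
          exact (hle _ _).trans (h.moveM j b b' v (Finset.mem_range.1 hv)))
        (fun i hi b t ht => by
          obtain ⟨v, hv, rfl⟩ := Finset.mem_image.1 ht
          rw [hPhi]
          exact (hle _ _).trans (h.moveL i hi b v (Finset.mem_range.1 hv))) M'
    rw [e1, e2, Fintype.card_fin] at key
    exact Nat.le_of_mul_le_mul_left (hM'.trans key) (pow_pos (hP 0) e')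
  · have h1 := rho_evTop_le hP hco T (δ := Fin D) (e := e) (by rw [Fintype.card_fin, hD]) M
    rw [← hD] at h1
    rw [Nat.div_le_iff_le_mul_add_pred hD0]
    omega

end Pool.GA
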