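import Pool.Agent.Lib.GA.LinMat
import Pool.Agent.Lib.GA.LSMap

/-!
MP_37c7bf_co, GA: the level step over a division ring (LM6).
-/

set_option autoImplicit false
set_option linter.unusedSectionVars false

open scoped Kronecker

namespace Pool.GA

open Module Matrix

variable {F : Type} [Field F] {k : ℕ} {σ m n : Type}
variable {E : Type} [DivisionRing E] [Algebra F E]
variable [Fintype σ] [DecidableEq σ] [Fintype m] [Fintype n] [DecidableEq m] [DecidableEq n]

/-- the potential over a division ring -/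
noncomputable def PhiE {D : ℕ} (T : Pen F (k + 1) σ m n) (x : Fin k → σ → E)
    (M : σ → Matrix (Fin D) (Fin D) F) (L : ℕ → Fin D → F) (B : ℕ) : ℕ :=
  ∑ b ∈ Finset.range (B + 1), (rkE (evE (PB T M L b) x) + rkE (evE (PH T M L b) x))

theorem PhiE_eq {D : ℕ} (T : Pen F (k + 1) σ m n) (x : Fin k → σ → E)
    (M : σ → Matrix (Fin D) (Fin D) F) (L : ℕ → Fin D → F) (B : ℕ) :
    PhiE T x M L B = _root_.GA.pot (lin0 T x) (lin1 E T) (fun l c c' => M l c c') L B := by
  unfold PhiE _root_.GA.pot
  refine Finset.sum_congr rfl fun b hb => ?_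
  have hb' : b ≤ B := Nat.lt_succ_iff.1 (Finset.mem_range.1 hb)
  rw [LM.rkE_PB T x M L hb', LM.rkE_PH T x M L hb']

/-- the potential is at most `(B + 1) (N D + N D^2)` -/
theorem PhiE_le {D : ℕ} (T : Pen F (k + 1) σ m n) (x : Fin k → σ → E)
    (M : σ → Matrix (Fin D) (Fin D) F) (L : ℕ → Fin D → F) (B : ℕ) :
    PhiE T x M L B ≤ (B + 1) * (Fintype.card m * D + Fintype.card m * D ^ 2) := by
  unfold PhiE
  have h : ∀ b ∈ Finset.range (B + 1), rkE (evE (PB T M L b) x) + rkE (evE (PH T M L b) x) ≤
      Fintype.card m * D + Fintype.card m * D ^ 2 := by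
    intro b _
    have h1 : rkE (evE (PB T M L b) x) ≤ Fintype.card m * D := by
      refine (LinearMap.finrank_range_le _).trans ?_
      rw [finrank_pi_fintype]
      simp
    have h2 : rkE (evE (PH T M L b) x) ≤ Fintype.card m * D ^ 2 := by
      refine (LinearMap.finrank_range_le _).trans ?_
      rw [finrank_pi_fintype]
      simp
      nlinarith
    omega
  refine (Finset.sum_le_card_nsmul _ _ _ h).trans ?_
  simp

/-- (LM6) THE LEVEL STEP OVER A DIVISION RING: at a stuck state the rank of every blow-up is bounded by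
the rank at the state -/
theorem level_E {D B : ℕ} (T : Pen F (k + 1) σ m n) (x : Fin k → σ → E)
    (M : σ → Matrix (Fin D) (Fin D) F) (L : ℕ → Fin D → F) (S : Finset F)
    (hB : Fintype.card m ^ 2 ≤ B) (hD : Fintype.card m ^ 3 < D) (hcard : PhiE T x M L B + 2 < S.card)
    (hM : ∀ j a a', ∀ t ∈ S, PhiE T x (updM M j a a' t) L B ≤ PhiE T x M L B)
    (hL : ∀ i < B, ∀ a, ∀ t ∈ S, PhiE T x M (updL L i a t) B ≤ PhiE T x M L B)
    {δ : Type} [Fintype δ] [DecidableEq δ] (M' : σ → Matrix δ δ F) :
    rkE (evE (evTop T M') x) ≤ Fintype.card δ * ((rkE (evE (evTop T M) x) + D - 1) / D) := by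
  have hN : finrank E (m → E) = Fintype.card m := by
    rw [finrank_pi_fintype]; simp
  have h := _root_.GA.ls_level (A0 := lin0 T x) (A := lin1 E T) (M := fun l c c' => M l c c')
    (L := L) S hN hB (by rw [Fintype.card_fin]; exact hD) (by rw [← PhiE_eq]; exact hcard)
    (fun j a a' t ht => by
      have h1 := hM j a a' t ht
      rw [PhiE_eq, PhiE_eq] at h1
      exact h1)
    (fun i hi a t ht => by
      have h1 := hL i hi a t ht
      rw [PhiE_eq, PhiE_eq] at h1
      exact h1) (fun l c c' => M' l c c')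
  rw [LM.rkE_evTop, LM.rkE_evTop]
  rw [Fintype.card_fin] at h
  exact h

end Pool.GA
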