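import Mathlib

/-!
# GA: the stuck theorem

A state `(M, L)` of the local search for the noncommutative rank of `A₀ + ∑ z_k A_k` at which the first order
conditions (FO) hold for all matrices `P_b`, `hat P_b` is optimal: either `rank T(M) > D (N-1)` or there is a shrunk
subspace.
-/

namespace GA

set_option linter.unusedSectionVars false

open Module

variable {F E : Type*} [Field F] [DivisionRing E] [Algebra F E]
variable {V V' : Type*} [AddCommGroup V] [Module E V] [Module F V] [IsScalarTower F E V] [FiniteDimensional E V]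
  [AddCommGroup V'] [Module E V'] [Module F V'] [IsScalarTower F E V'] [FiniteDimensional E V']
variable {ι α : Type*} [Fintype ι] [DecidableEq ι] [Fintype α] [DecidableEq α]

/-- a numeric functional `V^α → V` -/
def ev (l : α → F) : (α → V) →ₗ[E] V := ∑ a, l a • (LinearMap.proj a : (α → V) →ₗ[E] V)

omit [DecidableEq α] in
theorem ev_apply (l : α → F) (κ : α → V) : ev (E := E) l κ = ∑ a, l a • κ a := by
  simp [ev]

theorem ev_single (a : α) (κ : α → V) : ev (E := E) (Pi.single a (1 : F)) κ = κ a := by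
  rw [ev_apply, Finset.sum_eq_single a]
  · simp
  · intro b _ hb; simp [hb]
  · simp

omit [DecidableEq α] in
theorem ev_zero (κ : α → V) : ev (E := E) (0 : α → F) κ = 0 := by simp [ev_apply]

/-- constant part -/
def T0 (α : Type*) (A0 : V →ₗ[E] V') : (α → V) →ₗ[E] (α → V') :=
  LinearMap.pi (fun a' => A0 ∘ₗ LinearMap.proj a')

/-- linear part -/
def Tdir (A : ι → V →ₗ[E] V') (M : ι → α → α → F) : (α → V) →ₗ[E] (α → V') :=
  LinearMap.pi (fun a' => ∑ k, ∑ a, M k a a' • (A k ∘ₗ (LinearMap.proj a : (α → V) →ₗ[E] V)))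

def TT (A0 : V →ₗ[E] V') (A : ι → V →ₗ[E] V') (M : ι → α → α → F) : (α → V) →ₗ[E] (α → V') :=
  T0 α A0 + Tdir A M

theorem T0_apply (A0 : V →ₗ[E] V') (κ : α → V) (a' : α) : T0 α A0 κ a' = A0 (κ a') := rfl

theorem Tdir_apply (A : ι → V →ₗ[E] V') (M : ι → α → α → F) (κ : α → V) (a' : α) :
    Tdir A M κ a' = ∑ k, ∑ a, M k a a' • A k (κ a) := by
  simp [Tdir]

theorem TT_apply (A0 : V →ₗ[E] V') (A : ι → V →ₗ[E] V') (M : ι → α → α → F) (κ : α → V) (a' : α) :
    TT A0 A M κ a' = A0 (κ a') + ∑ k, ∑ a, M k a a' • A k (κ a) := by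
  simp [TT, T0_apply, Tdir_apply]

variable {B : ℕ}

/-- the `L` part of `P_b` -/
def Lpart (b : ℕ) (L : Fin B → α → F) : (α → V) →ₗ[E] (Fin B → V) :=
  LinearMap.pi (fun j => if j.val < b then ev (L j) else 0)

theorem Lpart_apply (b : ℕ) (L : Fin B → α → F) (κ : α → V) (j : Fin B) :
    Lpart (E := E) b L κ j = if j.val < b then ev (E := E) (L j) κ else 0 := by
  simp only [Lpart, LinearMap.pi_apply]
  split <;> rfl

/-- the direction of `P_b` -/
def Pdir (A : ι → V →ₗ[E] V') (b : ℕ) (M : ι → α → α → F) (L : Fin B → α → F) :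
    (α → V) →ₗ[E] (α → V') × (Fin B → V) :=
  (Tdir A M).prod (Lpart b L)

def PP (A0 : V →ₗ[E] V') (A : ι → V →ₗ[E] V') (b : ℕ) (M : ι → α → α → F) (L : Fin B → α → F) :
    (α → V) →ₗ[E] (α → V') × (Fin B → V) :=
  (TT A0 A M).prod (Lpart b L)

/-- the diagonal sum `∑ a, (κ a) a` -/
def dsum : (α → α → V) →ₗ[E] V :=
  ∑ a, (LinearMap.proj a : (α → V) →ₗ[E] V) ∘ₗ (LinearMap.proj a : (α → α → V) →ₗ[E] (α → V))

omit [DecidableEq α] in
theorem dsum_apply (κ : α → α → V) : dsum (E := E) κ = ∑ a, κ a a := by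
  simp [dsum]

/-- the hat of a linear map on `V^α` -/
def hat {Y : Type*} [AddCommGroup Y] [Module E Y] (Q : (α → V) →ₗ[E] Y) : (α → α → V) →ₗ[E] (α → Y) × V :=
  (LinearMap.pi (fun a => Q ∘ₗ LinearMap.proj a)).prod dsum

def hatdir {Y : Type*} [AddCommGroup Y] [Module E Y] (Q : (α → V) →ₗ[E] Y) : (α → α → V) →ₗ[E] (α → Y) × V :=
  (LinearMap.pi (fun a => Q ∘ₗ LinearMap.proj a)).prod 0

/-! ## the subspaces -/

/-- the span of all components -/
def comps (K : Submodule E (α → V)) : Submodule E V :=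
  (Submodule.pi Set.univ (fun _ : α => K)).map dsum

theorem mem_comps {K : Submodule E (α → V)} {w : V} :
    w ∈ comps K ↔ ∃ η : α → α → V, (∀ a, η a ∈ K) ∧ ∑ a, η a a = w := by
  simp only [comps, Submodule.mem_map, Submodule.mem_pi, Set.mem_univ, forall_true_left, dsum_apply]

theorem apply_mem_comps {K : Submodule E (α → V)} {κ : α → V} (h : κ ∈ K) (a : α) : κ a ∈ comps K := by
  rw [mem_comps]
  refine ⟨Pi.single a κ, ?_, ?_⟩
  · intro b
    by_cases hb : b = a
    · subst hb; simpa using h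
    · rw [Pi.single_eq_of_ne hb]; exact K.zero_mem
  · rw [Finset.sum_eq_single a]
    · simp
    · intro b _ hb; simp [Pi.single_eq_of_ne hb]
    · simp

theorem comps_le {K : Submodule E (α → V)} {Z : Submodule E V} (h : ∀ κ ∈ K, ∀ a, κ a ∈ Z) : comps K ≤ Z := by
  intro w hw
  obtain ⟨η, h1, h2⟩ := mem_comps.mp hw
  rw [← h2]
  exact Z.sum_mem (fun a _ => h _ (h1 a) a)

theorem comps_mono {K K' : Submodule E (α → V)} (h : K ≤ K') : comps K ≤ comps K' :=
  comps_le (fun _ hκ a => apply_mem_comps (h hκ) a)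

/-- all components in `W` -/
def hyp (α : Type*) (W : Submodule E V) : Submodule E (α → V) := Submodule.pi Set.univ (fun _ => W)

omit [Fintype α] [DecidableEq α] in
theorem mem_hyp {W : Submodule E V} {κ : α → V} : κ ∈ hyp α W ↔ ∀ a, κ a ∈ W := by
  simp [hyp, Submodule.mem_pi]

theorem finrank_hyp (W : Submodule E V) : finrank E (hyp α W) = Fintype.card α * finrank E W := by
  let e : hyp α W ≃ₗ[E] (α → W) :=
    { toFun := fun κ a => ⟨κ.1 a, mem_hyp.mp κ.2 a⟩
      invFun := fun κ => ⟨fun a => (κ a).1, mem_hyp.mpr (fun a => (κ a).2)⟩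
      map_add' := fun _ _ => rfl
      map_smul' := fun _ _ => rfl
      left_inv := fun _ => rfl
      right_inv := fun _ => rfl }
  rw [LinearEquiv.finrank_eq e, finrank_pi_fintype]
  simp

/-- `ev l` maps `hyp W` into `W` -/
theorem ev_mem {W : Submodule E V} (l : α → F) {κ : α → V} (h : ∀ a, κ a ∈ W) : ev (E := E) l κ ∈ W := by
  rw [ev_apply]
  refine W.sum_mem (fun a _ => ?_)
  rw [← algebraMap_smul E]
  exact W.smul_mem _ (h a)

end GA
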