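import Pool.Agent.Lib.GA.Defs
import Pool.Agent.Lib.GA.Stuck

/-! # GA: ranks over a division ring of the matrices of the search, as linear maps

`V = m → E`, `V' = n → E` (left spaces of row vectors). -/

open scoped Kronecker

namespace Pool.GA

variable {F : Type} [Field F] {k : ℕ} {σ m n : Type} [Fintype σ]

/-- the coefficients of the lower parts -/
def low (T : Pen F (k + 1) σ m n) : Pen F k σ m n where
  c := T.c
  a i j := T.a i.succ j

variable {E : Type} [DivisionRing E] [Algebra F E]

/-- the part of `T` without top variables, as a linear map -/
noncomputable def lin0 [Fintype m] (T : Pen F (k + 1) σ m n) (x : Fin k → σ → E) : (m → E) →ₗ[E] (n → E) :=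
  (evE (low T) x).vecMulLinear

/-- the coefficient of the top variable `j`, as a linear map -/
noncomputable def lin1 (E : Type) [DivisionRing E] [Algebra F E] [Fintype m] (T : Pen F (k + 1) σ m n) (j : σ) :
    (m → E) →ₗ[E] (n → E) :=
  ((T.a 0 j).map (algebraMap F E)).vecMulLinear

end Pool.GA
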