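import Pool.Agent.Lib.GA.StuckThm
import Pool.Agent.Lib.GA.Link

/-!
MP_37c7bf_co, GA: the matrices of the local search over a division ring as linear maps.
-/

set_option autoImplicit false
set_option linter.unusedSectionVars false

open scoped Kronecker

namespace Pool.GA

open Module Matrix

variable {F : Type} [Field F] {k : ℕ} {σ m n : Type}
variable {E : Type} [DivisionRing E] [Algebra F E]

namespace LM

/-- two linear maps with the same kernel (up to an isomorphism) have the same rank -/
theorem rk_of_ker {U U' Y Y' : Type*} [AddCommGroup U] [Module E U] [FiniteDimensional E U]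
    [AddCommGroup U'] [Module E U'] [AddCommGroup Y] [Module E Y] [AddCommGroup Y'] [Module E Y']
    (f : U →ₗ[E] Y) (g : U' →ₗ[E] Y') (e : U ≃ₗ[E] U') (h : ∀ u, f u = 0 ↔ g (e u) = 0) :
    finrank E (LinearMap.range f) = finrank E (LinearMap.range g) := by
  have : FiniteDimensional E U' := Module.Finite.equiv e
  have h1 := f.finrank_range_add_finrank_ker
  have h2 := g.finrank_range_add_finrank_ker
  have h3 : finrank E (LinearMap.ker f) = finrank E (LinearMap.ker g) := by
    have h4 : (LinearMap.ker f).map (e : U →ₗ[E] U') = LinearMap.ker g := by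
      ext y
      simp only [Submodule.mem_map, LinearMap.mem_ker]
      constructor
      · rintro ⟨u, hu, rfl⟩
        exact (h u).1 hu
      · intro hy
        refine ⟨e.symm y, (h _).2 ?_, ?_⟩
        · rwa [e.apply_symm_apply]
        · exact e.apply_symm_apply y
    rw [← h4]
    exact (LinearEquiv.finrank_map_eq e _).symm
  have h5 := e.finrank_eq
  omega

variable [Fintype σ] [DecidableEq σ] [Fintype m] [Fintype n] [DecidableEq m] [DecidableEq n]

/-- reindexing of the rows -/
def re (E : Type) [DivisionRing E] (m δ : Type) : (δ → m → E) ≃ₗ[E] (m × δ → E) where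
  toFun κ := fun p => κ p.2 p.1
  invFun w := fun a i => w (i, a)
  left_inv _ := rfl
  right_inv _ := rfl
  map_add' _ _ := rfl
  map_smul' _ _ := rfl

theorem evTop_entry {δ : Type} [Fintype δ] [DecidableEq δ] (T : Pen F (k + 1) σ m n)
    (x : Fin k → σ → E) (M : σ → Matrix δ δ F) (i : m) (a : δ) (j : n) (a' : δ) :
    evE (evTop T M) x (i, a) (j, a') =
      (if a = a' then evE (low T) x i j else 0) +
        ∑ l, algebraMap F E (M l a a') * algebraMap F E (T.a 0 l i j) := by
  have h1 : ∀ (i' : Fin k) (l : σ), algebraMap F E ((T.a i'.succ l ⊗ₖ (1 : Matrix δ δ F)) (i, a) (j, a'))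
      * x i' l = if a = a' then algebraMap F E (T.a i'.succ l i j) * x i' l else 0 := by
    intro i' l
    rw [Matrix.kronecker_apply, Matrix.one_apply]
    split_ifs with h
    · rw [mul_one]
    · rw [mul_zero, map_zero, zero_mul]
  have h2 : algebraMap F E ((T.c ⊗ₖ (1 : Matrix δ δ F) + ∑ l, T.a 0 l ⊗ₖ M l) (i, a) (j, a')) =
      (if a = a' then algebraMap F E (T.c i j) else 0) +
        ∑ l, algebraMap F E (M l a a') * algebraMap F E (T.a 0 l i j) := by
    rw [Matrix.add_apply, map_add, Matrix.sum_apply, map_sum, Matrix.kronecker_apply,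
      Matrix.one_apply]
    congr 1
    · split_ifs with h
      · rw [mul_one]
      · rw [mul_zero, map_zero]
    · refine Finset.sum_congr rfl fun l _ => ?_
      rw [Matrix.kronecker_apply, mul_comm, map_mul]
  unfold evE evTop low
  simp only [Matrix.add_apply, Matrix.sum_apply, Matrix.map_apply] at h2 ⊢
  rw [h2]
  simp only [h1]
  split_ifs with h
  · abel
  · simp

theorem vecMul_evTop {δ : Type} [Fintype δ] [DecidableEq δ] (T : Pen F (k + 1) σ m n)
    (x : Fin k → σ → E) (M : σ → Matrix δ δ F) (κ : δ → m → E) (j : n) (a' : δ) :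
    (re E m δ κ ᵥ* evE (evTop T M) x) (j, a') =
      _root_.GA.TT (lin0 T x) (lin1 E T) (fun l b b' => M l b b') κ a' j := by
  rw [_root_.GA.TT_apply]
  simp only [Matrix.vecMul, dotProduct, Fintype.sum_prod_type, evTop_entry, mul_add,
    Finset.sum_add_distrib, Pi.add_apply, Finset.sum_apply, Pi.smul_apply, lin0, lin1,
    Matrix.vecMulLinear_apply, re, LinearEquiv.coe_mk, LinearMap.coe_mk, AddHom.coe_mk,
    Matrix.map_apply]
  congr 1
  · refine Finset.sum_congr rfl fun i _ => ?_
    simp
  · simp only [Finset.mul_sum, Finset.smul_sum]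
    rw [Finset.sum_comm, Finset.sum_congr rfl (fun a _ => Finset.sum_comm), Finset.sum_comm]
    refine Finset.sum_congr rfl fun l _ => Finset.sum_congr rfl fun a _ =>
      Finset.sum_congr rfl fun i _ => ?_
    rw [Algebra.smul_def, ← mul_assoc, ← mul_assoc, Algebra.commutes (M l a a') (κ a i)]

/-- (LM1) the evaluated top part as a linear map -/
theorem rkE_evTop {δ : Type} [Fintype δ] [DecidableEq δ] (T : Pen F (k + 1) σ m n)
    (x : Fin k → σ → E) (M : σ → Matrix δ δ F) :
    rkE (evE (evTop T M) x) =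
      finrank E (LinearMap.range (_root_.GA.TT (lin0 T x) (lin1 E T) (fun l b b' => M l b b'))) := by
  unfold rkE
  refine (rk_of_ker _ _ (re E m δ) fun κ => ?_).symm
  rw [Matrix.vecMulLinear_apply]
  constructor
  · intro h
    funext q
    rw [show q = (q.1, q.2) from rfl, vecMul_evTop, h]
    rfl
  · intro h
    funext a' j
    rw [← vecMul_evTop, h]
    rfl

theorem vecMul_addCols {e : Type} (T : Pen F k σ m n) (x : Fin k → σ → E) (J : Matrix m e F)
    (w : m → E) :
    w ᵥ* evE (T.addCols J) x = Sum.elim (w ᵥ* evE T x) (w ᵥ* J.map (algebraMap F E)) := by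
  have h : evE (T.addCols J) x = Matrix.fromCols (evE T x) (J.map (algebraMap F E)) := by
    ext i c
    cases c with
    | inl c => simp [evE, Pen.addCols, Matrix.sum_apply]
    | inr c => simp [evE, Pen.addCols, Matrix.sum_apply]
  rw [h, Matrix.vecMul_fromCols]

theorem vecMul_colsL {D : ℕ} (L : ℕ → Fin D → F) (b : ℕ) (κ : Fin D → m → E) (j : Fin b) (i : m) :
    (re E m (Fin D) κ ᵥ* (colsL L b).map (algebraMap F E)) (j, i) =
      _root_.GA.ev (E := E) (L j) κ i := by
  rw [_root_.GA.ev_apply]
  simp only [Matrix.vecMul, dotProduct, Fintype.sum_prod_type, colsL, Matrix.map_apply,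
    Matrix.of_apply, re, LinearEquiv.coe_mk, LinearMap.coe_mk, AddHom.coe_mk, Finset.sum_apply,
    Pi.smul_apply]
  rw [Finset.sum_eq_single i]
  · refine Finset.sum_congr rfl fun a _ => ?_
    rw [if_pos rfl, Algebra.smul_def, Algebra.commutes]
  · intro i' _ hi'
    refine Finset.sum_eq_zero fun a _ => ?_
    rw [if_neg hi', map_zero, mul_zero]
  · intro h; exact absurd (Finset.mem_univ i) h

theorem ker_PB {D B : ℕ} (T : Pen F (k + 1) σ m n) (x : Fin k → σ → E)
    (M : σ → Matrix (Fin D) (Fin D) F) (L : ℕ → Fin D → F) {b : ℕ} (hb : b ≤ B)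
    (κ : Fin D → m → E) :
    _root_.GA.PP (lin0 T x) (lin1 E T) b (fun l c c' => M l c c') (fun i : Fin B => L i) κ = 0 ↔
      re E m (Fin D) κ ᵥ* evE (PB T M L b) x = 0 := by
  rw [_root_.GA.PP_apply, Prod.mk_eq_zero, PB, vecMul_addCols]
  constructor
  · rintro ⟨h1, h2⟩
    funext q
    cases q with
    | inl q =>
      rw [Sum.elim_inl, show q = (q.1, q.2) from rfl, vecMul_evTop, h1]
      rfl
    | inr q =>
      have h3 := congrFun h2 ⟨q.1, lt_of_lt_of_le q.1.2 hb⟩
      rw [_root_.GA.Lpart_apply, if_pos q.1.2] at h3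
      rw [Sum.elim_inr, show q = (q.1, q.2) from rfl, vecMul_colsL]
      exact congrFun h3 q.2
  · intro h
    constructor
    · funext a' j
      have h1 := congrFun h (Sum.inl (j, a'))
      rw [Sum.elim_inl, vecMul_evTop] at h1
      exact h1
    · funext j
      rw [_root_.GA.Lpart_apply]
      split_ifs with hj
      · funext i
        have h1 := congrFun h (Sum.inr (⟨j, hj⟩, i))
        rw [Sum.elim_inr, vecMul_colsL] at h1
        exact h1
      · rfl

/-- (LM2) `P_b` -/
theorem rkE_PB {D B : ℕ} (T : Pen F (k + 1) σ m n) (x : Fin k → σ → E)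
    (M : σ → Matrix (Fin D) (Fin D) F) (L : ℕ → Fin D → F) {b : ℕ} (hb : b ≤ B) :
    rkE (evE (PB T M L b) x) = finrank E (LinearMap.range
      (_root_.GA.PP (lin0 T x) (lin1 E T) b (fun l c c' => M l c c') (fun i : Fin B => L i))) := by
  unfold rkE
  refine (rk_of_ker _ _ (re E m (Fin D)) fun κ => ?_).symm
  rw [Matrix.vecMulLinear_apply]
  exact ker_PB T x M L hb κ

/-- reindexing of the rows of `PH` -/
def reH (E : Type) [DivisionRing E] (m : Type) (D : ℕ) :
    (Fin D → Fin D → m → E) ≃ₗ[E] (Fin D × (m × Fin D) → E) where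
  toFun κ := fun p => κ p.1 p.2.2 p.2.1
  invFun w := fun c a i => w (c, (i, a))
  left_inv _ := rfl
  right_inv _ := rfl
  map_add' _ _ := rfl
  map_smul' _ _ := rfl

theorem vecMul_copies {ι : Type} [Fintype ι] [DecidableEq ι] (T : Pen F k σ m n)
    (x : Fin k → σ → E) (w : ι × m → E) (c : ι) (j : n) :
    (w ᵥ* evE (T.copies ι) x) (c, j) = ((fun i => w (c, i)) ᵥ* evE T x) j := by
  have h : ∀ (c' : ι) (i : m), evE (T.copies ι) x (c', i) (c, j) =
      if c' = c then evE T x i j else 0 := by
    intro c' i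
    have h1 : ∀ (A : Matrix m n F), algebraMap F E (((1 : Matrix ι ι F) ⊗ₖ A) (c', i) (c, j)) =
        if c' = c then algebraMap F E (A i j) else 0 := by
      intro A
      rw [Matrix.kronecker_apply, Matrix.one_apply]
      split_ifs with h
      · rw [one_mul]
      · rw [zero_mul, map_zero]
    simp only [evE, Pen.copies, Matrix.add_apply, Matrix.sum_apply, Matrix.map_apply, h1]
    split_ifs with h
    · rfl
    · simp
  simp only [Matrix.vecMul, dotProduct, Fintype.sum_prod_type, h]
  rw [Finset.sum_eq_single c]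
  · simp
  · intro c' _ hc'
    refine Finset.sum_eq_zero fun i _ => ?_
    rw [if_neg hc', mul_zero]
  · intro h; exact absurd (Finset.mem_univ c) h

theorem vecMul_colsS {D : ℕ} (κ : Fin D → Fin D → m → E) (i : m) :
    (reH E m D κ ᵥ* (colsS F D m).map (algebraMap F E)) i = _root_.GA.dsum (E := E) κ i := by
  rw [_root_.GA.dsum_apply]
  simp only [Matrix.vecMul, dotProduct, Fintype.sum_prod_type, colsS, Matrix.map_apply,
    Matrix.of_apply, reH, LinearEquiv.coe_mk, LinearMap.coe_mk, AddHom.coe_mk, Finset.sum_apply]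
  refine Finset.sum_congr rfl fun c _ => ?_
  rw [Finset.sum_eq_single i]
  · rw [Finset.sum_eq_single c]
    · rw [if_pos ⟨rfl, rfl⟩, map_one, mul_one]
    · intro a _ ha
      rw [if_neg (fun h => ha h.1), map_zero, mul_zero]
    · intro h; exact absurd (Finset.mem_univ c) h
  · intro i' _ hi'
    refine Finset.sum_eq_zero fun a _ => ?_
    rw [if_neg (fun h => hi' h.2), map_zero, mul_zero]
  · intro h; exact absurd (Finset.mem_univ i) h

/-- (LM3) `hat P_b` -/
theorem rkE_PH {D B : ℕ} (T : Pen F (k + 1) σ m n) (x : Fin k → σ → E)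
    (M : σ → Matrix (Fin D) (Fin D) F) (L : ℕ → Fin D → F) {b : ℕ} (hb : b ≤ B) :
    rkE (evE (PH T M L b) x) = finrank E (LinearMap.range (_root_.GA.hat
      (_root_.GA.PP (lin0 T x) (lin1 E T) b (fun l c c' => M l c c') (fun i : Fin B => L i)))) := by
  unfold rkE
  refine (rk_of_ker _ _ (reH E m D) fun κ => ?_).symm
  rw [Matrix.vecMulLinear_apply]
  have h1 : ∀ c : Fin D, (fun i => reH E m D κ (c, i)) = re E m (Fin D) (κ c) := fun c => rfl
  have h2 : (reH E m D κ ᵥ* evE ((PB T M L b).copies (Fin D)) x) = 0 ↔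
      ∀ c, re E m (Fin D) (κ c) ᵥ* evE (PB T M L b) x = 0 := by
    constructor
    · intro h c
      funext j
      have h3 := congrFun h (c, j)
      rw [vecMul_copies, h1] at h3
      exact h3
    · intro h
      funext q
      rw [show q = (q.1, q.2) from rfl, vecMul_copies, h1, h]
      rfl
  rw [PH, vecMul_addCols]
  rw [_root_.GA.hat, LinearMap.prod_apply, Prod.mk_eq_zero]
  constructor
  · rintro ⟨h3, h4⟩
    have h5 := h2.2 (fun c => (ker_PB T x M L hb (κ c)).1 (congrFun h3 c))
    funext q
    cases q with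
    | inl q => rw [Sum.elim_inl, h5]; rfl
    | inr q => rw [Sum.elim_inr, vecMul_colsS]; exact congrFun h4 q
  · intro h
    have h3 : (reH E m D κ ᵥ* evE ((PB T M L b).copies (Fin D)) x) = 0 := by
      funext q
      exact congrFun h (Sum.inl q)
    constructor
    · funext c
      exact (ker_PB T x M L hb (κ c)).2 (h2.1 h3 c)
    · funext i
      have h4 := congrFun h (Sum.inr i)
      rw [Sum.elim_inr, vecMul_colsS] at h4
      exact h4

end LM

end Pool.GA
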