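import Pool.Agent.Lib.GA.MRank
import Pool.Agent.Lib.GA.Defs

/-!
# The rigidity matrix as an affine matrix with three parts of variables
-/

set_option linter.unusedSectionVars false
set_option linter.style.haveILetI false

namespace GAM

open Filter Module GR Pool.GA

open scoped Matrix Kronecker

section Fac

variable {F : Type} [Field F] {k : ℕ} {G : Fin k → Type} [∀ i, DecidableEq (G i)]

lemma fac_sub (i : Fin k) (A B : Matrix (G i) (G i) F) : fac i A - fac i B = fac i (A - B) := by
  ext g h
  simp only [fac, Matrix.sub_apply, Matrix.of_apply]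
  split_ifs <;> simp

lemma fac_smul_one (i : Fin k) (c : F) : fac i (c • (1 : Matrix (G i) (G i) F)) = c • 1 := by
  ext g h
  simp only [fac, Matrix.of_apply, Matrix.smul_apply, Matrix.one_apply, smul_eq_mul]
  by_cases hgh : g = h
  · subst hgh
    simp
  · rw [if_neg hgh]
    split_ifs with h1 h2
    · exfalso
      apply hgh
      funext j
      by_cases hj : j = i
      · subst hj; exact h2
      · exact h1 j hj
    · rfl
    · simp

lemma fac_mul_apply [∀ i, Fintype (G i)] {i i' : Fin k} (hii : i ≠ i') (A : Matrix (G i) (G i) F)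
    (B : Matrix (G i') (G i') F) (g h : ∀ i, G i) :
    (fac i A * fac i' B) g h = if ∀ j, j ≠ i → j ≠ i' → g j = h j
      then A (g i) (h i) * B (g i') (h i') else 0 := by
  rw [Matrix.mul_apply, Finset.sum_eq_single (Function.update g i (h i))]
  · have h1 : ∀ j, j ≠ i → g j = Function.update g i (h i) j := fun j hj => by
      rw [Function.update_of_ne hj]
    simp only [fac, Matrix.of_apply, if_pos h1, Function.update_self,
      Function.update_of_ne hii.symm]
    by_cases h2 : ∀ j, j ≠ i → j ≠ i' → g j = h j
    · rw [if_pos h2, if_pos]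
      intro j hj
      by_cases hji : j = i
      · subst hji; rw [Function.update_self]
      · rw [Function.update_of_ne hji]; exact h2 j hji hj
    · rw [if_neg h2, if_neg, mul_zero]
      intro h3
      apply h2
      intro j hj hj'
      have := h3 j hj'
      rwa [Function.update_of_ne hj] at this
  · intro l _ hl
    simp only [fac, Matrix.of_apply]
    by_cases h1 : ∀ j, j ≠ i → g j = l j
    · by_cases h2 : ∀ j, j ≠ i' → l j = h j
      · exfalso
        apply hl
        funext j
        by_cases hji : j = i
        · subst hji; rw [Function.update_self]; exact h2 _ hii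
        · rw [Function.update_of_ne hji]; exact (h1 j hji).symm
      · rw [if_neg h2, mul_zero]
    · rw [if_neg h1, zero_mul]
  · intro h; exact absurd (Finset.mem_univ _) h

lemma fac_commute [∀ i, Fintype (G i)] {i i' : Fin k} (hii : i ≠ i') (A : Matrix (G i) (G i) F)
    (B : Matrix (G i') (G i') F) : Commute (fac i A) (fac i' B) := by
  ext g h
  rw [fac_mul_apply hii, fac_mul_apply hii.symm]
  have h1 : (∀ j, j ≠ i → j ≠ i' → g j = h j) ↔ (∀ j, j ≠ i' → j ≠ i → g j = h j) :=
    ⟨fun h j h1 h2 => h j h2 h1, fun h j h1 h2 => h j h2 h1⟩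
  by_cases h2 : ∀ j, j ≠ i → j ≠ i' → g j = h j
  · rw [if_pos h2, if_pos (h1.mp h2), mul_comm]
  · rw [if_neg h2, if_neg (fun h3 => h2 (h1.mpr h3))]

end Fac

section Rig

variable {F : Type} [Field F] {V R : Type} [Fintype V] [DecidableEq V] [Fintype R]

/-- The rigidity matrix as an affine matrix with three parts of variables: the variable `v` of the
part `c` is the coordinate `c` of the vertex `v`. -/
def rigPen (F : Type) [Field F] (src tgt : R → V) (mask : R → Bool) : Pen F 3 V R (V × Fin 3) where
  c := 0
  a c v := Matrix.of fun r x => if mask r = true ∧ x.2 = c then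
    ((if v = src r then 1 else 0) - (if v = tgt r then 1 else 0))
      * ((if x.1 = src r then 1 else 0) - (if x.1 = tgt r then 1 else 0)) else 0

variable {G : Fin 3 → Type} [∀ i, DecidableEq (G i)] [∀ i, Fintype (G i)]

/-- the matrix position of the points -/
def posOf (X : ∀ i, V → Matrix (G i) (G i) F) : V → Fin 3 → Matrix (∀ i, G i) (∀ i, G i) F :=
  fun v c => fac c (X c v)

lemma comm_posOf (X : ∀ i, V → Matrix (G i) (G i) F) : Comm (posOf X) := by
  intro u v c c'
  simp only [posOf]
  by_cases h : c = c'
  · subst h; exact Commute.refl _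
  · rw [fac_sub, fac_sub]
    exact fac_commute h _ _

lemma ev_rigPen (src tgt : R → V) (mask : R → Bool) (X : ∀ i, V → Matrix (G i) (G i) F) :
    ev (rigPen F src tgt mask) X = rigM (posOf X) src tgt mask := by
  ext ⟨r, g⟩ ⟨⟨v', c'⟩, h⟩
  simp only [ev, rigPen, rigM, posOf, Matrix.add_apply, Matrix.sum_apply, Matrix.kroneckerMap_apply,
    Matrix.zero_apply, zero_mul, zero_add, Matrix.of_apply, Matrix.sub_apply]
  by_cases hm : mask r = true
  · simp only [hm, true_and, if_true]
    rw [Finset.sum_eq_single c']
    · simp only [if_true]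
      have h1 : ∀ v : V, ((if v = src r then (1 : F) else 0) - (if v = tgt r then 1 else 0))
          * ((if v' = src r then 1 else 0) - (if v' = tgt r then 1 else 0)) * fac c' (X c' v) g h
          = ((if v' = src r then 1 else 0) - (if v' = tgt r then 1 else 0))
            * ((if v = src r then fac c' (X c' v) g h else 0)
              - (if v = tgt r then fac c' (X c' v) g h else 0)) := by
        intro v
        split_ifs <;> ring
      simp only [h1]
      rw [← Finset.mul_sum, Finset.sum_sub_distrib, Finset.sum_ite_eq', Finset.sum_ite_eq']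
      simp only [Finset.mem_univ, if_true]
      split_ifs <;> ring
    · intro c _ hc
      refine Finset.sum_eq_zero fun v _ => ?_
      rw [if_neg (fun h => hc h.symm), zero_mul]
    · intro h; exact absurd (Finset.mem_univ _) h
  · simp [hm]

/-- **Upper bound** for the rigidity matrix at all positions. -/
theorem rank_ev_rigPen_le (h2 : (2 : F) ≠ 0) (src tgt : R → V) (mask : R → Bool)
    (hne : ∀ r, mask r = true → src r ≠ tgt r) (X : ∀ i, V → Matrix (G i) (G i) F) :
    (ev (rigPen F src tgt mask) X).rank
      ≤ K5rank (rowFin src tgt mask) * ∏ i, Fintype.card (G i) := by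
  rw [ev_rigPen, ← Fintype.card_pi]
  exact rank_rigM_le h2 (comm_posOf X) src tgt mask hne

/-- **Lower bound** for the rigidity matrix: a scalar position. -/
theorem exists_ev_rigPen (F : Type) [Field F] [Infinite F] (h2 : (2 : F) ≠ 0) (src tgt : R → V)
    (mask : R → Bool) (hne : ∀ r, mask r = true → src r ≠ tgt r)
    (G : Fin 3 → Type) [∀ i, DecidableEq (G i)] [∀ i, Fintype (G i)] :
    ∃ X : ∀ i, V → Matrix (G i) (G i) F, (ev (rigPen F src tgt mask) X).rank
      = K5rank (rowFin src tgt mask) * ∏ i, Fintype.card (G i) := by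
  obtain ⟨p, hp⟩ := exists_scal_rank F h2 src tgt mask hne
  refine ⟨fun i v => p v i • 1, ?_⟩
  rw [ev_rigPen, ← Fintype.card_pi]
  have h1 : (posOf (G := G) fun i v => p v i • (1 : Matrix (G i) (G i) F))
      = scal (∀ i, G i) p := by
    funext v c
    rw [posOf, fac_smul_one, scal]
  rw [h1]
  exact hp _

/-- **The stable rank of the rigidity matrix is the rank given by the `K₅`-sequences.** -/
theorem rho_rigPen (F : Type) [Field F] [Infinite F] (h2 : (2 : F) ≠ 0) (src tgt : R → V)
    (mask : R → Bool) (hne : ∀ r, mask r = true → src r ≠ tgt r) (P : Fin 3 → ℕ)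
    (hP : ∀ i, 0 < P i) :
    rho P (rigPen F src tgt mask) = K5rank (rowFin src tgt mask) := by
  have hpos : ∀ a : Fin 3 → ℕ, 0 < ∏ i, P i ^ a i := fun a =>
    Finset.prod_pos fun i _ => pow_pos (hP i) _
  refine IsGreatest.csSup_eq ⟨?_, ?_⟩
  · obtain ⟨X, hX⟩ := exists_ev_rigPen F h2 src tgt mask hne (fun i => Fin (P i ^ (0 : Fin 3 → ℕ) i))
    refine ⟨0, X, ?_⟩
    rw [hX]
    simp
  · rintro r ⟨a, X, h⟩
    have h1 := rank_ev_rigPen_le h2 src tgt mask hne X
    simp only [Fintype.card_fin] at h1
    exact Nat.le_of_mul_le_mul_right (h.trans h1) (hpos a)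

end Rig

end GAM
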