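import Pool.Agent.Lib.GA.MScal
import Pool.Agent.Lib.GR.Top2

/-!
# Maximality: no matrix position with commuting coordinates has more than the generic rank
-/

set_option linter.unusedSectionVars false
set_option linter.style.haveILetI false

namespace GAM

open Filter Module GR

open scoped Matrix

variable {K : Type*} [Field K] {V : Type*} {ι : Type*} [Fintype ι] [DecidableEq ι]

/-- perturbed positions -/
def pert (P : V → Fin 3 → Matrix ι ι K) (w : K × (V → Fin 3 → K)) : V → Fin 3 → Matrix ι ι K :=
  fun v c => w.1 • P v c + w.2 v c • 1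

lemma pert_one (P : V → Fin 3 → Matrix ι ι K) : pert P (1, 0) = P := by
  funext v c
  simp [pert]

lemma pert_zero (P : V → Fin 3 → Matrix ι ι K) (p : V → Fin 3 → K) :
    pert P (0, p) = scal ι p := by
  funext v c
  simp [pert, scal]

lemma pert_sub (P : V → Fin 3 → Matrix ι ι K) (w : K × (V → Fin 3 → K)) (u v : V) (c : Fin 3) :
    pert P w u c - pert P w v c = w.1 • (P u c - P v c) + (w.2 u c - w.2 v c) • 1 := by
  simp only [pert]
  rw [smul_sub, sub_smul]
  abel

lemma Comm.pert {P : V → Fin 3 → Matrix ι ι K} (hP : Comm P) (w : K × (V → Fin 3 → K)) :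
    Comm (pert P w) := by
  intro u v c c'
  rw [pert_sub, pert_sub]
  have h1 : Commute (w.1 • (P u c - P v c)) (w.1 • (P u c' - P v c')) :=
    ((hP u v c c').smul_left w.1).smul_right w.1
  have h2 : ∀ (M : Matrix ι ι K) (r : K), Commute (r • (1 : Matrix ι ι K)) M := fun M r =>
    (Commute.one_left M).smul_left r
  exact ((h1.add_right (h2 _ _).symm).add_left ((h2 _ _).add_right (h2 _ _)))

/-- the coordinates of the parameter -/
def coordW (V : Type*) (K : Type*) [Field K] (v : V) (c : Fin 3) : (K × (V → Fin 3 → K)) →ₗ[K] K :=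
  LinearMap.proj c ∘ₗ LinearMap.proj v ∘ₗ LinearMap.snd K K (V → Fin 3 → K)

lemma polyLine_pert_apply (P : V → Fin 3 → Matrix ι ι K) (v : V) (c : Fin 3) (i j : ι) :
    PolyLine K (fun w : K × (V → Fin 3 → K) => pert P w v c i j) := by
  have h1 : PolyLine K (fun w : K × (V → Fin 3 → K) => w.1) :=
    PolyLine.linear (LinearMap.fst K K (V → Fin 3 → K))
  have h2 : PolyLine K (fun w : K × (V → Fin 3 → K) => w.2 v c) := PolyLine.linear (coordW V K v c)
  have h3 := (h1.mul (PolyLine.const (P v c i j))).add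
    (h2.mul (PolyLine.const ((1 : Matrix ι ι K) i j)))
  exact h3

lemma polyLine_pert_mulVec (P : V → Fin 3 → Matrix ι ι K) (v : V) (c : Fin 3) (x : ι → K) (i : ι) :
    PolyLine K (fun w : K × (V → Fin 3 → K) => (pert P w v c *ᵥ x) i) := by
  simp only [Matrix.mulVec, dotProduct]
  exact PolyLine.sum _ fun j _ => (polyLine_pert_apply P v c i j).mul (PolyLine.const _)

lemma polyLine_strain (P : V → Fin 3 → Matrix ι ι K) (a b : V) (κ : V → Fin 3 → ι → K) (i : ι) :
    PolyLine K (fun w : K × (V → Fin 3 → K) => strain (pert P w) a b κ i) := by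
  simp only [strain_apply, Finset.sum_apply, Matrix.sub_mulVec, Pi.sub_apply]
  exact PolyLine.sum _ fun c _ => (polyLine_pert_mulVec P a c _ i).sub (polyLine_pert_mulVec P b c _ i)

lemma polyLine_triv (P : V → Fin 3 → Matrix ι ι K) (ab : (Fin 3 → ι → K) × (Fin 3 → ι → K)) (v : V)
    (c : Fin 3) (i : ι) :
    PolyLine K (fun w : K × (V → Fin 3 → K) => triv (pert P w) ab v c i) := by
  obtain ⟨a, b⟩ := ab
  fin_cases c
  · exact (PolyLine.const (a 0 i)).add
      ((polyLine_pert_mulVec P v 1 (b 2) i).sub (polyLine_pert_mulVec P v 2 (b 1) i))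
  · exact (PolyLine.const (a 1 i)).add
      ((polyLine_pert_mulVec P v 2 (b 0) i).sub (polyLine_pert_mulVec P v 0 (b 2) i))
  · exact (PolyLine.const (a 2 i)).add
      ((polyLine_pert_mulVec P v 0 (b 1) i).sub (polyLine_pert_mulVec P v 1 (b 0) i))

section Fin

variable [Fintype V]

open Classical in
/-- all strains of a graph -/
noncomputable def strainMap (P : V → Fin 3 → Matrix ι ι K) (S : Set (Sym2 V)) :
    (V → Fin 3 → ι → K) →ₗ[K] (V × V × ι → K) where
  toFun κ x := if s(x.1, x.2.1) ∈ S then strain P x.1 x.2.1 κ x.2.2 else 0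
  map_add' κ κ' := by
    funext x
    by_cases h : s(x.1, x.2.1) ∈ S <;> simp [h]
  map_smul' r κ := by
    funext x
    by_cases h : s(x.1, x.2.1) ∈ S <;> simp [h]

lemma ker_strainMap (P : V → Fin 3 → Matrix ι ι K) (S : Set (Sym2 V)) :
    LinearMap.ker (strainMap P S) = Fl P S := by
  ext κ
  rw [LinearMap.mem_ker, mem_Fl]
  constructor
  · intro h a b hab
    funext i
    have := congrFun h (a, b, i)
    simpa [strainMap, hab] using this
  · intro h
    funext x
    by_cases hx : s(x.1, x.2.1) ∈ S
    · simp [strainMap, hx, h _ _ hx]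
    · simp [strainMap, hx]

lemma finrank_ker_strainMap (P : V → Fin 3 → Matrix ι ι K) (S : Set (Sym2 V)) :
    finrank K (LinearMap.ker (strainMap P S)) = fdim P S := by
  rw [ker_strainMap, fdim]

/-- velocities of trivial motions on `C` -/
def trivMap [DecidableEq V] (P : V → Fin 3 → Matrix ι ι K) (C : Finset V) :
    ((Fin 3 → ι → K) × (Fin 3 → ι → K)) →ₗ[K] (V × Fin 3 × ι → K) where
  toFun ab x := if x.1 ∈ C then triv P ab x.1 x.2.1 x.2.2 else 0
  map_add' κ κ' := by
    funext x
    by_cases h : x.1 ∈ C <;> simp [h]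
  map_smul' r κ := by
    funext x
    by_cases h : x.1 ∈ C <;> simp [h]

lemma ker_trivMap [DecidableEq V] (P : V → Fin 3 → Matrix ι ι K) (C : Finset V) :
    LinearMap.ker (trivMap P C) = trivKer P C := by
  ext ab
  rw [LinearMap.mem_ker, mem_trivKer]
  constructor
  · intro h v hv
    funext c i
    have := congrFun h (v, c, i)
    simpa [trivMap, hv] using this
  · intro h
    funext x
    by_cases hx : x.1 ∈ C
    · simp [trivMap, hx, h _ hx]
    · simp [trivMap, hx]

lemma finrank_ker_trivMap [DecidableEq V] (P : V → Fin 3 → Matrix ι ι K) (C : Finset V) :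
    finrank K (LinearMap.ker (trivMap P C)) = finrank K (trivKer P C) := by
  rw [ker_trivMap]

variable [Infinite K]

lemma eventually_fdim_le (P : V → Fin 3 → Matrix ι ι K) (S : Set (Sym2 V)) (d : ℕ)
    (h : ∃ w, fdim (pert P w) S ≤ d) :
    ∀ᶠ w in gen K (K × (V → Fin 3 → K)), fdim (pert P w) S ≤ d := by
  have h1 := big_finrank_ker (k := K) (W := K × (V → Fin 3 → K))
    (fun w => strainMap (pert P w) S) ?_ d ?_
  · simp only [finrank_ker_strainMap] at h1
    exact h1.mem_gen
  · rintro κ ⟨a, b, i⟩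
    by_cases hab : s(a, b) ∈ S
    · simpa [strainMap, hab] using polyLine_strain P a b κ i
    · simpa [strainMap, hab] using PolyLine.const (W := K × (V → Fin 3 → K)) (0 : K)
  · simpa only [finrank_ker_strainMap] using h

lemma eventually_trivKer [DecidableEq V] (P : V → Fin 3 → Matrix ι ι K) (C : Finset V)
    (h : ∃ w, trivKer (pert P w) C = ⊥) :
    ∀ᶠ w in gen K (K × (V → Fin 3 → K)), trivKer (pert P w) C = ⊥ := by
  have h1 := big_finrank_ker (k := K) (W := K × (V → Fin 3 → K))
    (fun w => trivMap (pert P w) C) ?_ 0 ?_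
  · simp only [finrank_ker_trivMap] at h1
    filter_upwards [h1.mem_gen] with w hw
    exact Submodule.finrank_eq_zero.mp (Nat.le_zero.mp hw)
  · rintro ab ⟨v, c, i⟩
    by_cases hv : v ∈ C
    · simpa [trivMap, hv] using polyLine_triv P ab v c i
    · simpa [trivMap, hv] using PolyLine.const (W := K × (V → Fin 3 → K)) (0 : K)
  · obtain ⟨w, hw⟩ := h
    exact ⟨w, by rw [ker_trivMap, hw, finrank_bot]⟩

lemma exists_trivKer [DecidableEq V] (P : V → Fin 3 → Matrix ι ι K) (C : Finset V)
    (hC : 3 ≤ C.card) : ∃ w, trivKer (pert P w) C = ⊥ := by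
  classical
  obtain ⟨T, hTC, hT⟩ := Finset.exists_subset_card_eq hC
  obtain ⟨x, y, z, hxy, hxz, hyz, rfl⟩ := Finset.card_eq_three.mp hT
  have hx : x ∈ C := hTC (by simp)
  have hy : y ∈ C := hTC (by simp)
  have hz : z ∈ C := hTC (by simp)
  refine ⟨(0, fun v c => if v = y ∧ c = 0 then 1 else if v = z ∧ c = 1 then 1 else 0), ?_⟩
  rw [pert_zero, eq_bot_iff]
  rintro ⟨a, b⟩ hab
  have h1 := hab x hx
  have h2 := hab y hy
  have h3 := hab z hz
  have hzy : z ≠ y := hyz.symm
  have f1 := congrFun h1 0
  have f2 := congrFun h1 1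
  have f3 := congrFun h1 2
  have g1 := congrFun h2 0
  have g2 := congrFun h2 1
  have g3 := congrFun h2 2
  have k1 := congrFun h3 0
  have k2 := congrFun h3 1
  have k3 := congrFun h3 2
  rw [triv_zero'] at f1 g1 k1
  rw [triv_one'] at f2 g2 k2
  rw [triv_two'] at f3 g3 k3
  simp only [scal, hxy, hxz, hyz, hzy, false_and, if_false, if_true, zero_smul,
    one_smul, Pi.zero_apply, sub_zero, zero_sub, add_zero, Fin.isValue, and_self, and_false,
    one_ne_zero, Fin.reduceEq, Matrix.zero_mulVec, Matrix.one_mulVec] at f1 f2 f3 g1 g2 g3 k1 k2 k3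
  rw [f2, zero_add] at g2
  rw [f3, zero_add] at g3
  rw [f3, zero_add] at k3
  have ha : a = 0 := by
    funext c
    fin_cases c
    · exact f1
    · exact f2
    · exact f3
  have hb : b = 0 := by
    funext c
    fin_cases c
    · exact neg_eq_zero.mp k3
    · exact g3
    · exact neg_eq_zero.mp g2
  rw [Submodule.mem_bot, ha, hb]
  rfl

/-- generic perturbations are nice -/
theorem eventually_nice5 [DecidableEq V] {P : V → Fin 3 → Matrix ι ι K} (hP : Comm P) :
    ∀ᶠ w in gen K (K × (V → Fin 3 → K)), Nice5 (pert P w) := by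
  have h1 : ∀ᶠ w in gen K (K × (V → Fin 3 → K)), ∀ C : Finset V, C.card = 5 →
      trivKer (pert P w) C = ⊥ := by
    rw [Filter.eventually_all]
    intro C
    by_cases hC : C.card = 5
    · filter_upwards [eventually_trivKer P C (exists_trivKer P C (by omega))] with w hw _
      exact hw
    · exact Filter.Eventually.of_forall fun w h => absurd h hC
  have h2 : ∀ᶠ w in gen K (K × (V → Fin 3 → K)), ∀ C : Finset V, ∀ f : Sym2 V,
      (C.card = 5 ∧ f ∈ Kf C) →
      fdim (pert P w) (((Kf C).erase f : Finset (Sym2 V)) : Set (Sym2 V)) + 9 * Fintype.card ι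
        ≤ 3 * Fintype.card V * Fintype.card ι := by
    rw [Filter.eventually_all]
    intro C
    rw [Filter.eventually_all]
    intro f
    by_cases hC : C.card = 5 ∧ f ∈ Kf C
    · obtain ⟨p, hp⟩ := exists_scal_nine (K := K) (V := V)
      have h9 := hp C hC.1 f hC.2
      have h3 : 9 * Fintype.card ι ≤ 3 * Fintype.card V * Fintype.card ι := by
        refine Nat.mul_le_mul_right _ ?_
        omega
      filter_upwards [eventually_fdim_le P (((Kf C).erase f : Finset (Sym2 V)) : Set (Sym2 V))
        (3 * Fintype.card V * Fintype.card ι - 9 * Fintype.card ι) ⟨(0, p), by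
          rw [pert_zero, fdim_scal, ← Nat.sub_mul]
          exact Nat.mul_le_mul_right _ (by omega)⟩] with w hw _
      omega
    · exact Filter.Eventually.of_forall fun w h => absurd h hC
  filter_upwards [h1, h2] with w hw1 hw2
  exact nice5_of (hP.pert w) hw1 fun C hC f hf => hw2 C f ⟨hC, hf⟩

/-- **Upper bound by `K₅`-sequences at every matrix position with commuting coordinates.** -/
theorem le_fdim_of_seq [DecidableEq V] {P : V → Fin 3 → Matrix ι ι K} (hP : Comm P)
    (L : List (Finset V)) (hL : ProperSeq L) (E : Finset (Sym2 V)) :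
    (3 * Fintype.card V + L.length) * Fintype.card ι
      ≤ fdim P (E : Set (Sym2 V)) + (E ∪ edgesOf L).card * Fintype.card ι := by
  have h1 := eventually_fdim_le P (E : Set (Sym2 V)) (fdim P (E : Set (Sym2 V)))
    ⟨(1, 0), by rw [pert_one]⟩
  obtain ⟨w, hw1, hw2⟩ := (h1.and (eventually_nice5 hP)).exists
  have h3 := hw2.le_fdim L hL E
  omega

/-- **Maximality.** At every matrix position with commuting coordinates every graph has at least
the generic dimension of flexes, times the size. -/
theorem gdim_le_fdim [DecidableEq V] (h2 : (2 : K) ≠ 0) {P : V → Fin 3 → Matrix ι ι K}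
    (hP : Comm P) (E : Finset (Sym2 V)) (hE : E ⊆ Kf Finset.univ) :
    gdim K Finset.univ (E : Set (Sym2 V)) * Fintype.card ι ≤ fdim P (E : Set (Sym2 V)) := by
  obtain ⟨-, L, hL, -, h3⟩ := rank_formula (k := K) Finset.univ
    (fun W _ => allGood K V h2 W) E hE
  have h4 := le_fdim_of_seq hP L hL E
  rw [Finset.card_univ] at h3
  rw [h3, add_mul] at h4
  omega

end Fin

end GAM
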