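import Pool.Agent.Lib.GR.RankFormula

/-!
# Matrix positions: strains, flexes, the bound by `K₅`-sequences
-/

set_option linter.unusedSectionVars false
set_option linter.style.haveILetI false

namespace GAM

open Filter Module GR

open scoped Matrix

variable {K : Type*} [Field K] {V : Type*} {ι : Type*} [Fintype ι] [DecidableEq ι]

/-- the strain of the pair `u v` at the matrix position `P` -/
def strain (P : V → Fin 3 → Matrix ι ι K) (u v : V) :
    (V → Fin 3 → ι → K) →ₗ[K] (ι → K) where
  toFun κ := ∑ c, (P u c - P v c) *ᵥ (κ u c - κ v c)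
  map_add' κ κ' := by
    simp only [Pi.add_apply, add_sub_add_comm, Matrix.mulVec_add, Finset.sum_add_distrib]
  map_smul' a κ := by
    simp only [Pi.smul_apply, ← smul_sub, Matrix.mulVec_smul, Finset.smul_sum, RingHom.id_apply]

lemma strain_apply (P : V → Fin 3 → Matrix ι ι K) (u v : V) (κ : V → Fin 3 → ι → K) :
    strain P u v κ = ∑ c, (P u c - P v c) *ᵥ (κ u c - κ v c) := rfl

lemma strain_comm (P : V → Fin 3 → Matrix ι ι K) (u v : V) : strain P u v = strain P v u := by
  refine LinearMap.ext fun κ => ?_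
  rw [strain_apply, strain_apply]
  refine Finset.sum_congr rfl fun c _ => ?_
  rw [← neg_sub (P v c) (P u c), ← neg_sub (κ v c) (κ u c), Matrix.neg_mulVec, Matrix.mulVec_neg,
    neg_neg]

/-- the flexes of the graph `S` at the matrix position `P` -/
def Fl (P : V → Fin 3 → Matrix ι ι K) (S : Set (Sym2 V)) : Submodule K (V → Fin 3 → ι → K) where
  carrier := {κ | ∀ a b, s(a, b) ∈ S → strain P a b κ = 0}
  add_mem' := by
    intro κ κ' h h' a b hab
    rw [map_add, h a b hab, h' a b hab, add_zero]
  zero_mem' := fun a b _ => map_zero _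
  smul_mem' := by
    intro c κ h a b hab
    rw [map_smul, h a b hab, smul_zero]

lemma mem_Fl {P : V → Fin 3 → Matrix ι ι K} {S : Set (Sym2 V)} {κ : V → Fin 3 → ι → K} :
    κ ∈ Fl P S ↔ ∀ a b, s(a, b) ∈ S → strain P a b κ = 0 := Iff.rfl

lemma Fl_anti (P : V → Fin 3 → Matrix ι ι K) {S T : Set (Sym2 V)} (h : S ⊆ T) :
    Fl P T ≤ Fl P S := fun _ hκ a b hab => hκ a b (h hab)

lemma Fl_insert (P : V → Fin 3 → Matrix ι ι K) (a b : V) (S : Set (Sym2 V)) :
    Fl P (insert s(a, b) S) = Fl P S ⊓ LinearMap.ker (strain P a b) := by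
  ext κ
  rw [Submodule.mem_inf, LinearMap.mem_ker, mem_Fl, mem_Fl]
  constructor
  · intro h
    exact ⟨fun x y hxy => h x y (Set.mem_insert_of_mem _ hxy), h a b (Set.mem_insert _ _)⟩
  · rintro ⟨h1, h2⟩ x y hxy
    rcases hxy with hxy | hxy
    · rcases Sym2.eq_iff.mp hxy with ⟨rfl, rfl⟩ | ⟨rfl, rfl⟩
      · exact h2
      · rw [strain_comm]; exact h2
    · exact h1 x y hxy

section Fin

variable [Fintype V]

/-- the dimension of the space of flexes -/
noncomputable def fdim (P : V → Fin 3 → Matrix ι ι K) (S : Set (Sym2 V)) : ℕ :=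
  finrank K (Fl P S)

lemma fdim_anti (P : V → Fin 3 → Matrix ι ι K) {S T : Set (Sym2 V)} (h : S ⊆ T) :
    fdim P T ≤ fdim P S := Submodule.finrank_mono (Fl_anti P h)

lemma finrank_vel : finrank K (V → Fin 3 → ι → K) = 3 * Fintype.card V * Fintype.card ι := by
  rw [Module.finrank_pi_fintype]
  simp only [Module.finrank_pi_fintype, Module.finrank_self, Finset.sum_const, Finset.card_univ,
    smul_eq_mul, Fintype.card_fin]
  ring

lemma fdim_empty (P : V → Fin 3 → Matrix ι ι K) :
    fdim P ∅ = 3 * Fintype.card V * Fintype.card ι := by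
  unfold fdim
  have : Fl P ∅ = ⊤ := by
    rw [eq_top_iff]
    intro κ _ a b hab
    exact absurd hab (by simp)
  rw [this, finrank_top, finrank_vel]

lemma fdim_le_insert (P : V → Fin 3 → Matrix ι ι K) (e : Sym2 V) (S : Set (Sym2 V)) :
    fdim P S ≤ fdim P (insert e S) + Fintype.card ι := by
  induction e with
  | h a b =>
    unfold fdim
    rw [Fl_insert]
    have h1 := LinearMap.finrank_range_add_finrank_ker ((strain P a b).domRestrict (Fl P S))
    have h2 : finrank K (LinearMap.range ((strain P a b).domRestrict (Fl P S)))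
        ≤ Fintype.card ι := by
      refine (Submodule.finrank_le _).trans ?_
      rw [Module.finrank_fintype_fun_eq_card]
    have h3 : finrank K (LinearMap.ker ((strain P a b).domRestrict (Fl P S)))
        = finrank K (Fl P S ⊓ LinearMap.ker (strain P a b) : Submodule K _) := by
      rw [inf_comm, LinearMap.domRestrict, LinearMap.ker_comp]
      exact (Submodule.comapSubtypeEquivOfLe (p := LinearMap.ker (strain P a b) ⊓ Fl P S)
        (q := Fl P S) inf_le_right).symm.finrank_eq.symm ▸ by
          rw [Submodule.comap_inf, Submodule.comap_subtype_self, inf_top_eq]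
    omega

lemma le_fdim (P : V → Fin 3 → Matrix ι ι K) (E : Finset (Sym2 V)) :
    3 * Fintype.card V * Fintype.card ι ≤ fdim P (E : Set (Sym2 V)) + E.card * Fintype.card ι := by
  classical
  induction E using Finset.induction_on with
  | empty => rw [Finset.coe_empty, fdim_empty]; simp
  | insert e E he ih =>
    rw [Finset.coe_insert, Finset.card_insert_of_notMem he, add_mul, one_mul]
    have := fdim_le_insert P e (E : Set (Sym2 V))
    omega

variable [DecidableEq V]

/-- every edge of a `K₅` is implied by the others -/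
def Nice5 (P : V → Fin 3 → Matrix ι ι K) : Prop :=
  ∀ C : Finset V, C.card = 5 → ∀ f ∈ Kf C,
    Fl P (((Kf C).erase f : Finset (Sym2 V)) : Set (Sym2 V)) ≤ Fl P (Kf C : Set (Sym2 V))

/-- the bound by proper `K₅`-sequences -/
theorem Nice5.seq_bound {P : V → Fin 3 → Matrix ι ι K} (hP : Nice5 P)
    (L : List (Finset V)) (hL : ProperSeq L) (E : Finset (Sym2 V)) :
    (3 * Fintype.card V + L.length) * Fintype.card ι
      ≤ fdim P ((E ∪ edgesOf L : Finset (Sym2 V)) : Set (Sym2 V))
        + (E ∪ edgesOf L).card * Fintype.card ι := by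
  induction L generalizing E with
  | nil =>
    simpa using le_fdim P E
  | cons C L ih =>
    obtain ⟨h5, hnew, hL'⟩ := hL
    obtain ⟨f, hfC, hfL⟩ := Finset.not_subset.mp hnew
    set X := E ∪ edgesOf (C :: L) with hX
    have hfX : f ∈ X := by
      rw [hX, edgesOf_cons]
      exact Finset.mem_union_right _ (Finset.mem_union_left _ hfC)
    have hLX : edgesOf L ⊆ X.erase f := by
      intro e he
      rw [Finset.mem_erase]
      refine ⟨fun h => hfL (h ▸ he), ?_⟩
      rw [hX, edgesOf_cons]
      exact Finset.mem_union_right _ (Finset.mem_union_right _ he)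
    have h1 := ih hL' (X.erase f)
    rw [Finset.union_eq_left.mpr hLX, Finset.card_erase_of_mem hfX] at h1
    have h2 : fdim P ((X.erase f : Finset (Sym2 V)) : Set (Sym2 V)) ≤ fdim P (X : Set (Sym2 V)) := by
      refine Submodule.finrank_mono ?_
      intro κ hκ a b hab
      by_cases hf : s(a, b) = f
      · have h3 : κ ∈ Fl P (Kf C : Set (Sym2 V)) := by
          refine hP C h5 f hfC (Fl_anti P ?_ hκ)
          intro e he
          rw [Finset.mem_coe, Finset.mem_erase] at he ⊢
          refine ⟨he.1, ?_⟩
          rw [hX, edgesOf_cons]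
          exact Finset.mem_union_right _ (Finset.mem_union_left _ he.2)
        exact h3 a b (by rw [hf]; exact_mod_cast hfC)
      · exact hκ a b (by rw [Finset.mem_coe, Finset.mem_erase]; exact ⟨hf, by exact_mod_cast hab⟩)
    have h4 : 0 < X.card := Finset.card_pos.mpr ⟨f, hfX⟩
    rw [List.length_cons]
    obtain ⟨m, hm⟩ : ∃ m, X.card = m + 1 := ⟨X.card - 1, by omega⟩
    rw [hm, Nat.add_sub_cancel] at h1
    rw [hm]
    nlinarith [h1, h2]

/-- every graph has at most the rank given by a proper `K₅`-sequence -/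
theorem Nice5.le_fdim {P : V → Fin 3 → Matrix ι ι K} (hP : Nice5 P)
    (L : List (Finset V)) (hL : ProperSeq L) (E : Finset (Sym2 V)) :
    (3 * Fintype.card V + L.length) * Fintype.card ι
      ≤ fdim P (E : Set (Sym2 V)) + (E ∪ edgesOf L).card * Fintype.card ι := by
  have h1 := hP.seq_bound L hL E
  have h2 := fdim_anti P (S := (E : Set (Sym2 V)))
    (T := ((E ∪ edgesOf L : Finset (Sym2 V)) : Set (Sym2 V)))
    (by exact_mod_cast Finset.subset_union_left)
  omega

end Fin

end GAM
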