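import Pool.Agent.Lib.GA.MMax

/-!
# Ranks of block rigidity matrices and the rank given by `K₅`-sequences
-/

set_option linter.unusedSectionVars false
set_option linter.style.haveILetI false

namespace GAM

open Filter Module GR

open scoped Matrix

section Map

/-- the rank of a matrix does not change under a field extension -/
theorem rank_map_algebraMap {K L : Type*} [Field K] [Field L] [Algebra K L] {m n : Type*}
    [Finite m] [Fintype n] (M : Matrix m n K) : (M.map (algebraMap K L)).rank = M.rank := by
  classical
  have := Fintype.ofFinite m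
  rw [Matrix.rank_eq_finrank_span_row, Matrix.rank_eq_finrank_span_row]
  obtain ⟨b, hb1, hb2, hb3⟩ := exists_linearIndependent K (Set.range M.row)
  have hbf : Finite b := Set.Finite.subset (Set.finite_range M.row) hb1
  have := Fintype.ofFinite b
  have h1 : finrank K (Submodule.span K (Set.range M.row)) = Fintype.card b := by
    rw [← hb2]
    have := finrank_span_eq_card hb3
    rwa [Subtype.range_coe] at this
  -- the mapped family
  have hli : LinearIndependent L (fun i : b => algebraMap K L ∘ (i : n → K)) :=
    linearIndependent_algebraMap_comp_iff.mpr hb3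
  have h2 : Submodule.span L (Set.range (M.map (algebraMap K L)).row)
      = Submodule.span L (Set.range fun i : b => algebraMap K L ∘ (i : n → K)) := by
    refine le_antisymm ?_ ?_
    · rw [Submodule.span_le]
      rintro _ ⟨i, rfl⟩
      have h3 : M.row i ∈ Submodule.span K (Set.range fun i : b => (i : n → K)) := by
        rw [Subtype.range_coe, hb2]
        exact Submodule.subset_span ⟨i, rfl⟩
      rw [Submodule.mem_span_range_iff_exists_fun] at h3
      obtain ⟨c, hc⟩ := h3
      rw [SetLike.mem_coe, Submodule.mem_span_range_iff_exists_fun]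
      refine ⟨fun j => algebraMap K L (c j), ?_⟩
      funext j
      have h4 := congrFun hc j
      simp only [Finset.sum_apply, Pi.smul_apply, smul_eq_mul] at h4
      simp only [Finset.sum_apply, Pi.smul_apply, smul_eq_mul, Function.comp_apply, Matrix.row,
        Matrix.map_apply]
      rw [Matrix.row] at h4
      rw [← h4, map_sum]
      simp only [map_mul]
    · rw [Submodule.span_le]
      rintro _ ⟨⟨i, hi⟩, rfl⟩
      obtain ⟨j, rfl⟩ := hb1 hi
      exact Submodule.subset_span ⟨j, rfl⟩
  rw [h1, h2, finrank_span_eq_card hli]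

end Map

section K5

variable {V : Type*} [Fintype V] [DecidableEq V]

/-- The least value of `|E ∪ K(C₁) ∪ .. ∪ K(C_t)| - t` over the proper `K₅`-sequences. -/
noncomputable def K5rank (E : Finset (Sym2 V)) : ℕ :=
  sInf {r : ℕ | ∃ L : List (Finset V), ProperSeq L ∧ r + L.length = (E ∪ edgesOf L).card}

variable {K : Type*} [Field K]

theorem K5rank_spec (K : Type*) [Field K] [Infinite K] (h2 : (2 : K) ≠ 0) (E : Finset (Sym2 V))
    (hE : E ⊆ Kf Finset.univ) :
    gdim K Finset.univ (E : Set (Sym2 V)) + K5rank E = 3 * Fintype.card V := by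
  obtain ⟨h1, L, hL, -, h3⟩ := rank_formula (k := K) Finset.univ
    (fun W _ => allGood K V h2 W) E hE
  rw [Finset.card_univ] at h1 h3
  have hle : gdim K Finset.univ (E : Set (Sym2 V)) ≤ 3 * Fintype.card V := by
    obtain ⟨p, hp⟩ := exists_finrank_SFl_eq (K := K) (E : Set (Sym2 V))
    rw [← hp]
    refine (Submodule.finrank_le _).trans ?_
    simp only [Module.finrank_pi_fintype, Module.finrank_self, Finset.sum_const, Finset.card_univ,
      smul_eq_mul, Fintype.card_fin]
    omega
  have h4 : IsLeast {r : ℕ | ∃ L : List (Finset V), ProperSeq L ∧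
      r + L.length = (E ∪ edgesOf L).card}
      (3 * Fintype.card V - gdim K Finset.univ (E : Set (Sym2 V))) := by
    constructor
    · exact ⟨L, hL, by omega⟩
    · rintro r ⟨L', hL', hr⟩
      have := h1 L' hL' (fun C _ => Finset.subset_univ C)
      omega
  have h5 : K5rank E = 3 * Fintype.card V - gdim K Finset.univ (E : Set (Sym2 V)) :=
    h4.csInf_eq
  omega

end K5

section Rig

variable {K : Type*} [Field K] {V : Type*} [Fintype V] [DecidableEq V] {ι : Type*} [Fintype ι]
  [DecidableEq ι] {R : Type*} [Fintype R]

/-- The block rigidity matrix with rows indexed by `R`: the row `r` belongs to the pair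
`src r, tgt r` if `mask r` holds, and is zero otherwise. -/
def rigM (P : V → Fin 3 → Matrix ι ι K) (src tgt : R → V) (mask : R → Bool) :
    Matrix (R × ι) ((V × Fin 3) × ι) K :=
  Matrix.of fun r x => if mask r.1 = true then
    (if x.1.1 = src r.1 then (P (src r.1) x.1.2 - P (tgt r.1) x.1.2) r.2 x.2 else 0)
      - (if x.1.1 = tgt r.1 then (P (src r.1) x.1.2 - P (tgt r.1) x.1.2) r.2 x.2 else 0)
    else 0

/-- the graph of the rows -/
def rowSet (src tgt : R → V) (mask : R → Bool) : Set (Sym2 V) :=
  {e | ∃ r, mask r = true ∧ e = s(src r, tgt r)}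

/-- velocities as vectors -/
def velEquiv (K V ι : Type*) [Field K] : ((V × Fin 3) × ι → K) ≃ₗ[K] (V → Fin 3 → ι → K) where
  toFun x v c i := x ((v, c), i)
  map_add' _ _ := rfl
  map_smul' _ _ := rfl
  invFun κ x := κ x.1.1 x.1.2 x.2
  left_inv _ := rfl
  right_inv _ := rfl

lemma rigM_mulVec (P : V → Fin 3 → Matrix ι ι K) (src tgt : R → V) (mask : R → Bool)
    (x : (V × Fin 3) × ι → K) (r : R) (i : ι) :
    (rigM P src tgt mask *ᵥ x) (r, i)
      = if mask r = true then strain P (src r) (tgt r) (velEquiv K V ι x) i else 0 := by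
  by_cases hm : mask r = true
  · rw [if_pos hm, strain_apply, Finset.sum_apply]
    simp only [Matrix.mulVec, dotProduct, rigM, Matrix.of_apply, hm, if_true, velEquiv,
      LinearEquiv.coe_mk, LinearMap.coe_mk, AddHom.coe_mk]
    rw [Fintype.sum_prod_type, Fintype.sum_prod_type, Finset.sum_comm]
    refine Finset.sum_congr rfl fun c _ => ?_
    rw [Finset.sum_comm]
    refine Finset.sum_congr rfl fun j _ => ?_
    simp only [sub_mul, ite_mul, zero_mul, Finset.sum_sub_distrib, Finset.sum_ite_eq',
      Finset.mem_univ, if_true, Pi.sub_apply]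
    ring
  · rw [if_neg hm]
    simp [Matrix.mulVec, dotProduct, rigM, hm]

lemma ker_rigM (P : V → Fin 3 → Matrix ι ι K) (src tgt : R → V) (mask : R → Bool) :
    (LinearMap.ker (rigM P src tgt mask).mulVecLin).map
      (velEquiv K V ι : ((V × Fin 3) × ι → K) →ₗ[K] (V → Fin 3 → ι → K))
      = Fl P (rowSet src tgt mask) := by
  ext κ
  rw [Submodule.mem_map]
  constructor
  · rintro ⟨x, hx, rfl⟩
    rw [LinearMap.mem_ker, Matrix.mulVecLin_apply] at hx
    intro a b hab
    obtain ⟨r, hr, hab⟩ := hab
    have h1 : strain P (src r) (tgt r) (velEquiv K V ι x) = 0 := by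
      funext i
      have := congrFun hx (r, i)
      rw [rigM_mulVec, if_pos hr] at this
      exact this
    rcases Sym2.eq_iff.mp hab with ⟨rfl, rfl⟩ | ⟨rfl, rfl⟩
    · exact h1
    · rw [strain_comm]; exact h1
  · intro h
    refine ⟨(velEquiv K V ι).symm κ, ?_, by simp⟩
    rw [LinearMap.mem_ker, Matrix.mulVecLin_apply]
    funext ⟨r, i⟩
    rw [rigM_mulVec, Pi.zero_apply]
    split_ifs with hr
    · have := h (src r) (tgt r) ⟨r, hr, rfl⟩
      rw [LinearEquiv.apply_symm_apply, this, Pi.zero_apply]
    · rfl

/-- rank and dimension of the space of flexes -/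
theorem rank_rigM_add (P : V → Fin 3 → Matrix ι ι K) (src tgt : R → V) (mask : R → Bool) :
    (rigM P src tgt mask).rank + fdim P (rowSet src tgt mask)
      = 3 * Fintype.card V * Fintype.card ι := by
  have h1 := LinearMap.finrank_range_add_finrank_ker (rigM P src tgt mask).mulVecLin
  have h2 : finrank K ((V × Fin 3) × ι → K) = 3 * Fintype.card V * Fintype.card ι := by
    rw [Module.finrank_fintype_fun_eq_card, Fintype.card_prod, Fintype.card_prod, Fintype.card_fin]
    ring
  have h3 : fdim P (rowSet src tgt mask)
      = finrank K (LinearMap.ker (rigM P src tgt mask).mulVecLin) := by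
    unfold fdim
    rw [← ker_rigM]
    exact LinearEquiv.finrank_map_eq _ _
  rw [h3, Matrix.rank]
  omega

/-- mapping a position to a larger field -/
lemma rigM_map {L : Type*} [Field L] [Algebra K L] (P : V → Fin 3 → Matrix ι ι K)
    (src tgt : R → V) (mask : R → Bool) :
    (rigM P src tgt mask).map (algebraMap K L)
      = rigM (fun v c => (P v c).map (algebraMap K L)) src tgt mask := by
  ext ⟨r, i⟩ ⟨⟨v, c⟩, j⟩
  simp only [Matrix.map_apply, rigM, Matrix.of_apply, Matrix.sub_apply]
  split_ifs <;> simp

lemma Comm.map {L : Type*} [Field L] [Algebra K L] {P : V → Fin 3 → Matrix ι ι K} (hP : Comm P) :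
    Comm (fun v c => (P v c).map (algebraMap K L)) := by
  intro u v c c'
  have h := (hP u v c c').map (algebraMap K L).mapMatrix
  rw [map_sub, map_sub] at h
  exact h

/-- the rows which are edges -/
def rowFin (src tgt : R → V) (mask : R → Bool) : Finset (Sym2 V) :=
  (Finset.univ.filter fun r => mask r = true).image fun r => s(src r, tgt r)

lemma coe_rowFin (src tgt : R → V) (mask : R → Bool) :
    (rowFin src tgt mask : Set (Sym2 V)) = rowSet src tgt mask := by
  ext e
  simp only [rowFin, Finset.coe_image, Finset.coe_filter, Finset.mem_univ, true_and, rowSet,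
    Set.mem_image, Set.mem_ofPred_eq, eq_comm]

lemma rowFin_subset {src tgt : R → V} {mask : R → Bool}
    (h : ∀ r, mask r = true → src r ≠ tgt r) : rowFin src tgt mask ⊆ Kf Finset.univ := by
  intro e he
  rw [rowFin, Finset.mem_image] at he
  obtain ⟨r, hr, rfl⟩ := he
  rw [mk_mem_Kf]
  exact ⟨h r (Finset.mem_filter.mp hr).2, Finset.mem_univ _, Finset.mem_univ _⟩

/-- **Upper bound over every field of characteristic different from two**: the rank of the block
rigidity matrix at a matrix position with commuting coordinates is at most the size times the rank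
given by the `K₅`-sequences. -/
theorem rank_rigM_le (h2 : (2 : K) ≠ 0) {P : V → Fin 3 → Matrix ι ι K} (hP : Comm P)
    (src tgt : R → V) (mask : R → Bool) (hne : ∀ r, mask r = true → src r ≠ tgt r) :
    (rigM P src tgt mask).rank ≤ K5rank (rowFin src tgt mask) * Fintype.card ι := by
  have h2' : (2 : AlgebraicClosure K) ≠ 0 := by
    have := (map_ne_zero (algebraMap K (AlgebraicClosure K))).mpr h2
    rwa [map_ofNat] at this
  rw [← rank_map_algebraMap (L := AlgebraicClosure K), rigM_map]
  have hP' := hP.map (L := AlgebraicClosure K)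
  have h3 := gdim_le_fdim h2' hP' (rowFin src tgt mask) (rowFin_subset hne)
  have h4 := K5rank_spec (AlgebraicClosure K) h2' (rowFin src tgt mask) (rowFin_subset hne)
  have h5 := rank_rigM_add (fun v c => (P v c).map (algebraMap K (AlgebraicClosure K))) src tgt mask
  rw [coe_rowFin] at h3
  rw [← h4, coe_rowFin, add_mul] at h5
  omega

/-- **Lower bound**: over an infinite field some scalar position reaches the rank. -/
theorem exists_scal_rank (K : Type*) [Field K] [Infinite K] (h2 : (2 : K) ≠ 0)
    (src tgt : R → V) (mask : R → Bool) (hne : ∀ r, mask r = true → src r ≠ tgt r) :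
    ∃ p : V → Fin 3 → K, ∀ (ι : Type) [Fintype ι] [DecidableEq ι],
      (rigM (scal ι p) src tgt mask).rank
        = K5rank (rowFin src tgt mask) * Fintype.card ι := by
  obtain ⟨p, hp⟩ := exists_finrank_SFl_eq (K := K) (rowSet src tgt mask)
  refine ⟨p, fun ι _ _ => ?_⟩
  have h4 := K5rank_spec K h2 (rowFin src tgt mask) (rowFin_subset hne)
  have h5 := rank_rigM_add (scal ι p) src tgt mask
  rw [fdim_scal, hp] at h5
  rw [coe_rowFin] at h4
  rw [← h4, add_mul] at h5
  omega

end Rig

end GAM
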