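import Pool.Agent.Lib.GA.MTriv
import Pool.Agent.Lib.GR.FlexMot

/-!
# Scalar positions
-/

set_option linter.unusedSectionVars false
set_option linter.style.haveILetI false

namespace GAM

open Filter Module GR

open scoped Matrix

variable {K : Type*} [Field K] {V : Type*} {ι : Type*} [Fintype ι] [DecidableEq ι]

/-- a scalar position as a matrix position -/
def scal (ι : Type*) [DecidableEq ι] (p : V → Fin 3 → K) : V → Fin 3 → Matrix ι ι K :=
  fun v c => p v c • 1

lemma strain_scal (p : V → Fin 3 → K) (a b : V) (κ : V → Fin 3 → ι → K) :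
    strain (scal ι p) a b κ = ∑ c, (p a c - p b c) • (κ a c - κ b c) := by
  rw [strain_apply]
  refine Finset.sum_congr rfl fun c _ => ?_
  rw [scal, scal, ← sub_smul, Matrix.smul_mulVec, Matrix.one_mulVec]

/-- the flexes of a graph at a scalar position -/
def SFl (p : V → Fin 3 → K) (S : Set (Sym2 V)) : Submodule K (V → Fin 3 → K) where
  carrier := {u | ∀ a b, s(a, b) ∈ S → ∑ c, (p a c - p b c) * (u a c - u b c) = 0}
  add_mem' := by
    intro u u' h h' a b hab
    have h1 := h a b hab
    have h2 := h' a b hab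
    simp only [Pi.add_apply]
    rw [← add_zero (0 : K)]
    nth_rewrite 1 [← h1]
    rw [← h2, ← Finset.sum_add_distrib]
    exact Finset.sum_congr rfl fun c _ => by ring
  zero_mem' := fun a b _ => by simp
  smul_mem' := by
    intro r u h a b hab
    have h1 := h a b hab
    simp only [Pi.smul_apply, smul_eq_mul]
    rw [← mul_zero r, ← h1, Finset.mul_sum]
    exact Finset.sum_congr rfl fun c _ => by ring

lemma mem_SFl {p : V → Fin 3 → K} {S : Set (Sym2 V)} {u : V → Fin 3 → K} :
    u ∈ SFl p S ↔ ∀ a b, s(a, b) ∈ S → ∑ c, (p a c - p b c) * (u a c - u b c) = 0 := Iff.rfl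

/-- flexes at the scalar position, seen as matrices -/
def flScalEquiv (p : V → Fin 3 → K) (S : Set (Sym2 V)) :
    Fl (scal ι p) S ≃ₗ[K] (ι → SFl p S) where
  toFun κ i := ⟨fun v c => κ.1 v c i, fun a b hab => by
    have h := congrFun (κ.2 a b hab) i
    rw [strain_scal] at h
    simpa [Finset.sum_apply] using h⟩
  map_add' κ κ' := rfl
  map_smul' r κ := rfl
  invFun g := ⟨fun v c i => (g i).1 v c, fun a b hab => by
    funext i
    rw [strain_scal]
    have h := (g i).2 a b hab
    simpa [Finset.sum_apply] using h⟩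
  left_inv κ := rfl
  right_inv g := rfl

/-- homogeneous coordinates -/
def homog (p : V → Fin 3 → K) (v : V) : Vec K := ![p v 0, p v 1, p v 2, 1]

lemma vdot' (x y : Vec K) : x ⬝ᵥ y = x 0 * y 0 + x 1 * y 1 + x 2 * y 2 + x 3 * y 3 := by
  simp [dotProduct, Fin.sum_univ_four]

/-- the motion of a flex -/
def sMot (p u : V → Fin 3 → K) (v : V) : Vec K :=
  ![u v 0, u v 1, u v 2, -(p v 0 * u v 0 + p v 1 * u v 1 + p v 2 * u v 2)]

lemma sMot_dot (p u : V → Fin 3 → K) (a b : V) :
    sMot p u a ⬝ᵥ homog p b = (p b 0 * u a 0 + p b 1 * u a 1 + p b 2 * u a 2)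
      - (p a 0 * u a 0 + p a 1 * u a 1 + p a 2 * u a 2) := by
  rw [vdot']
  simp [sMot, homog]
  ring

section Fin

variable [Fintype V]

instance (p : V → Fin 3 → K) (S : Set (Sym2 V)) : FiniteDimensional K (SFl p S) := by
  infer_instance

lemma fdim_scal (p : V → Fin 3 → K) (S : Set (Sym2 V)) :
    fdim (scal ι p) S = finrank K (SFl p S) * Fintype.card ι := by
  unfold fdim
  rw [(flScalEquiv p S).finrank_eq, Module.finrank_pi_fintype]
  simp only [Finset.sum_const, Finset.card_univ, smul_eq_mul]
  ring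

/-- flexes and motions -/
def sflEquiv (p : V → Fin 3 → K) (S : Set (Sym2 V)) :
    SFl p S ≃ₗ[K] Mot Finset.univ S (homog p) where
  toFun u := ⟨sMot p u.1, by
    refine ⟨fun v hv => absurd (Finset.mem_univ v) hv, fun v _ => ?_, fun a _ b _ hab => ?_⟩
    · rw [sMot_dot, sub_self]
    · have h := u.2 a b hab
      rw [Fin.sum_univ_three] at h
      rw [eps_apply, sMot_dot, sMot_dot]
      linear_combination -h⟩
  map_add' u u' := by
    apply Subtype.ext
    funext v i
    fin_cases i <;> simp [sMot]
    ring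
  map_smul' c u := by
    apply Subtype.ext
    funext v i
    fin_cases i <;> simp [sMot]
    ring
  invFun Z := ⟨fun v => ![Z.1 v 0, Z.1 v 1, Z.1 v 2], by
    rw [mem_SFl]
    intro a b hab
    have h := Z.2.2.2 a (Finset.mem_univ a) b (Finset.mem_univ b) hab
    have ha := Z.2.2.1 a (Finset.mem_univ a)
    have hb := Z.2.2.1 b (Finset.mem_univ b)
    rw [eps_apply] at h
    rw [vdot'] at h ha hb
    rw [vdot'] at h
    rw [Fin.sum_univ_three]
    simp only [homog] at h ha hb
    simp at h ha hb ⊢
    linear_combination ha + hb - h⟩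
  left_inv u := by
    apply Subtype.ext
    funext v i
    fin_cases i <;> simp [sMot]
  right_inv Z := by
    apply Subtype.ext
    funext v i
    have h := Z.2.2.1 v (Finset.mem_univ v)
    rw [vdot'] at h
    simp only [homog] at h
    simp at h
    fin_cases i
    · simp [sMot]
    · simp [sMot]
    · simp [sMot]
    · simp [sMot]
      linear_combination -h

lemma finrank_SFl (p : V → Fin 3 → K) (S : Set (Sym2 V)) :
    finrank K (SFl p S) = mdim Finset.univ S (homog p) := (sflEquiv p S).finrank_eq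

/-- a homogeneous position with nonzero last coordinates comes from an affine one -/
lemma exists_affine [DecidableEq V] (P : V → Vec K) (hP : ∀ v, P v 3 ≠ 0) :
    ∃ p : V → Fin 3 → K, ∀ S : Set (Sym2 V), finrank K (SFl p S) = mdim Finset.univ S P := by
  refine ⟨fun v => ![P v 0 / P v 3, P v 1 / P v 3, P v 2 / P v 3], fun S => ?_⟩
  have h3 := mdim_scale (A := Finset.univ) (E := S) (p := P) (c := fun v => (P v 3)⁻¹)
    (fun v => inv_ne_zero (hP v))
  rw [finrank_SFl, ← h3]
  congr 1
  funext v i
  have := hP v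
  fin_cases i <;> simp [homog] <;> field_simp

variable [Infinite K]

lemma gdim_le_finrank_SFl (p : V → Fin 3 → K) (S : Set (Sym2 V)) :
    gdim K Finset.univ S ≤ finrank K (SFl p S) := by
  rw [finrank_SFl]
  exact gdim_le_mdim _ _ _

lemma exists_scal_of_eventually [DecidableEq V] {Q : (V → Vec K) → Prop}
    (hQ : ∀ᶠ P in gen K (V → Vec K), Q P) :
    ∃ P : V → Vec K, Q P ∧ ∃ p : V → Fin 3 → K, ∀ S : Set (Sym2 V),
      finrank K (SFl p S) = mdim Finset.univ S P := by
  have h2 : ∀ᶠ P in gen K (V → Vec K), ∀ v : V, P v 3 ≠ 0 := by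
    rw [Filter.eventually_all]
    intro v
    exact (polyLine_coord v 3).eventually_ne ⟨fun _ _ => 1, one_ne_zero⟩
  obtain ⟨P, hP1, hP2⟩ := (hQ.and h2).exists
  exact ⟨P, hP1, exists_affine P hP2⟩

/-- some scalar position is generic for `S` -/
theorem exists_finrank_SFl_eq [DecidableEq V] (S : Set (Sym2 V)) :
    ∃ p : V → Fin 3 → K, finrank K (SFl p S) = gdim K Finset.univ S := by
  obtain ⟨P, hP, p, hp⟩ := exists_scal_of_eventually (eventually_mdim_eq (k := K) Finset.univ S)
  exact ⟨p, by rw [hp, hP]⟩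

/-- some scalar position is generic for all graphs -/
theorem exists_scal_regular [DecidableEq V] :
    ∃ p : V → Fin 3 → K, ∀ S : Set (Sym2 V), finrank K (SFl p S) = gdim K Finset.univ S := by
  obtain ⟨P, hP, p, hp⟩ := exists_scal_of_eventually
    (eventually_regular (k := K) (Finset.univ : Finset V))
  exact ⟨p, fun S => by rw [hp, hP Finset.univ (Finset.Subset.refl _) S]⟩

/-- at some scalar position the graphs `K₅` minus an edge have rank nine -/
theorem exists_scal_nine [DecidableEq V] :
    ∃ p : V → Fin 3 → K, ∀ C : Finset V, C.card = 5 → ∀ f ∈ Kf C,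
      finrank K (SFl p (((Kf C).erase f : Finset (Sym2 V)) : Set (Sym2 V))) + 9
        ≤ 3 * Fintype.card V := by
  obtain ⟨P, hP, p, hp⟩ := exists_scal_of_eventually
    (eventually_nice (k := K) (Finset.univ : Finset V))
  refine ⟨p, fun C hC f hf => ?_⟩
  have hgp := hP.gp
  have hgC : GenPos P (C : Set V) := hgp.mono (by exact_mod_cast Finset.subset_univ C)
  rw [hp]
  have h1 : mdim Finset.univ (((Kf C).erase f : Finset (Sym2 V)) : Set (Sym2 V)) P
      + rk (((Kf C).erase f : Finset (Sym2 V)) : Set (Sym2 V)) P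
      = 3 * (Finset.univ : Finset V).card :=
    mdim_add_rk (fun e _ v _ => Finset.mem_univ v)
      (fun v hv => hgp.ne_zero (by exact_mod_cast hv))
  have h2 := rk_insert_of_mem_clo ((Kf C).erase f) f P (K5_clo hgC hC hf)
  rw [Finset.insert_erase hf] at h2
  have h3 := rk_add_stress (Kf C) P
  rw [finrank_Stress_Kf C hgC, card_Kf, hC] at h3
  have h4 : (5 : ℕ).choose 2 = 10 := by decide
  have h5 : (5 - 3 : ℕ).choose 2 = 1 := by decide
  rw [h4, h5] at h3
  rw [Finset.card_univ] at h1
  omega

end Fin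

end GAM
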