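import Pool.Agent.Lib.GA.MPos

/-!
# Trivial motions of matrix positions with commuting coordinates
-/

set_option linter.unusedSectionVars false
set_option linter.style.haveILetI false

namespace GAM

open Filter Module GR

open scoped Matrix

variable {K : Type*} [Field K] {V : Type*} {ι : Type*} [Fintype ι] [DecidableEq ι]

/-- differences of different coordinates commute -/
def Comm (P : V → Fin 3 → Matrix ι ι K) : Prop :=
  ∀ u v c c', Commute (P u c - P v c) (P u c' - P v c')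

/-- the trivial motion `a + P × b` -/
def triv (P : V → Fin 3 → Matrix ι ι K) :
    ((Fin 3 → ι → K) × (Fin 3 → ι → K)) →ₗ[K] (V → Fin 3 → ι → K) where
  toFun ab v c := ab.1 c + (![P v 1 *ᵥ ab.2 2 - P v 2 *ᵥ ab.2 1,
    P v 2 *ᵥ ab.2 0 - P v 0 *ᵥ ab.2 2, P v 0 *ᵥ ab.2 1 - P v 1 *ᵥ ab.2 0] : Fin 3 → ι → K) c
  map_add' x y := by
    funext v c
    have h : (![P v 1 *ᵥ (x + y).2 2 - P v 2 *ᵥ (x + y).2 1,
        P v 2 *ᵥ (x + y).2 0 - P v 0 *ᵥ (x + y).2 2,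
        P v 0 *ᵥ (x + y).2 1 - P v 1 *ᵥ (x + y).2 0] : Fin 3 → ι → K) c
        = (![P v 1 *ᵥ x.2 2 - P v 2 *ᵥ x.2 1, P v 2 *ᵥ x.2 0 - P v 0 *ᵥ x.2 2,
          P v 0 *ᵥ x.2 1 - P v 1 *ᵥ x.2 0] : Fin 3 → ι → K) c
        + (![P v 1 *ᵥ y.2 2 - P v 2 *ᵥ y.2 1, P v 2 *ᵥ y.2 0 - P v 0 *ᵥ y.2 2,
          P v 0 *ᵥ y.2 1 - P v 1 *ᵥ y.2 0] : Fin 3 → ι → K) c := by
      fin_cases c <;> simp [Matrix.mulVec_add] <;> abel
    rw [h, Prod.fst_add, Pi.add_apply, Pi.add_apply, Pi.add_apply]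
    abel
  map_smul' r x := by
    funext v c
    have h : (![P v 1 *ᵥ (r • x).2 2 - P v 2 *ᵥ (r • x).2 1,
        P v 2 *ᵥ (r • x).2 0 - P v 0 *ᵥ (r • x).2 2,
        P v 0 *ᵥ (r • x).2 1 - P v 1 *ᵥ (r • x).2 0] : Fin 3 → ι → K) c
        = r • (![P v 1 *ᵥ x.2 2 - P v 2 *ᵥ x.2 1, P v 2 *ᵥ x.2 0 - P v 0 *ᵥ x.2 2,
          P v 0 *ᵥ x.2 1 - P v 1 *ᵥ x.2 0] : Fin 3 → ι → K) c := by
      fin_cases c <;> simp [Matrix.mulVec_smul, smul_sub]
    rw [h, Prod.smul_fst, Pi.smul_apply, Pi.smul_apply, Pi.smul_apply, smul_add, RingHom.id_apply]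

lemma triv_zero' (P : V → Fin 3 → Matrix ι ι K) (a b : Fin 3 → ι → K) (v : V) :
    triv P (a, b) v 0 = a 0 + (P v 1 *ᵥ b 2 - P v 2 *ᵥ b 1) := rfl

lemma triv_one' (P : V → Fin 3 → Matrix ι ι K) (a b : Fin 3 → ι → K) (v : V) :
    triv P (a, b) v 1 = a 1 + (P v 2 *ᵥ b 0 - P v 0 *ᵥ b 2) := rfl

lemma triv_two' (P : V → Fin 3 → Matrix ι ι K) (a b : Fin 3 → ι → K) (v : V) :
    triv P (a, b) v 2 = a 2 + (P v 0 *ᵥ b 1 - P v 1 *ᵥ b 0) := rfl

/-- trivial motions have no strain -/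
lemma strain_triv {P : V → Fin 3 → Matrix ι ι K} (hP : Comm P)
    (ab : (Fin 3 → ι → K) × (Fin 3 → ι → K)) (u v : V) : strain P u v (triv P ab) = 0 := by
  obtain ⟨a, b⟩ := ab
  rw [strain_apply, Fin.sum_univ_three]
  simp only [triv_zero', triv_one', triv_two']
  have e0 : a 0 + (P u 1 *ᵥ b 2 - P u 2 *ᵥ b 1) - (a 0 + (P v 1 *ᵥ b 2 - P v 2 *ᵥ b 1))
      = (P u 1 - P v 1) *ᵥ b 2 - (P u 2 - P v 2) *ᵥ b 1 := by
    rw [Matrix.sub_mulVec, Matrix.sub_mulVec]; abel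
  have e1 : a 1 + (P u 2 *ᵥ b 0 - P u 0 *ᵥ b 2) - (a 1 + (P v 2 *ᵥ b 0 - P v 0 *ᵥ b 2))
      = (P u 2 - P v 2) *ᵥ b 0 - (P u 0 - P v 0) *ᵥ b 2 := by
    rw [Matrix.sub_mulVec, Matrix.sub_mulVec]; abel
  have e2 : a 2 + (P u 0 *ᵥ b 1 - P u 1 *ᵥ b 0) - (a 2 + (P v 0 *ᵥ b 1 - P v 1 *ᵥ b 0))
      = (P u 0 - P v 0) *ᵥ b 1 - (P u 1 - P v 1) *ᵥ b 0 := by
    rw [Matrix.sub_mulVec, Matrix.sub_mulVec]; abel
  rw [e0, e1, e2]
  simp only [Matrix.mulVec_sub, Matrix.mulVec_mulVec]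
  rw [(hP u v 0 1).eq, (hP u v 0 2).eq, (hP u v 1 2).eq]
  abel

section Fin

variable [Fintype V] [DecidableEq V]

/-- the trivial motions with zero velocities on `C` -/
def trivKer (P : V → Fin 3 → Matrix ι ι K) (C : Finset V) :
    Submodule K ((Fin 3 → ι → K) × (Fin 3 → ι → K)) where
  carrier := {ab | ∀ v ∈ C, triv P ab v = 0}
  add_mem' := by
    intro x y hx hy v hv
    rw [map_add, Pi.add_apply, hx v hv, hy v hv, add_zero]
  zero_mem' := fun v _ => by rw [map_zero, Pi.zero_apply]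
  smul_mem' := by
    intro r x hx v hv
    rw [map_smul, Pi.smul_apply, hx v hv, smul_zero]

lemma mem_trivKer {P : V → Fin 3 → Matrix ι ι K} {C : Finset V}
    {ab : (Fin 3 → ι → K) × (Fin 3 → ι → K)} :
    ab ∈ trivKer P C ↔ ∀ v ∈ C, triv P ab v = 0 := Iff.rfl

/-- glueing a trivial motion on `C` and arbitrary velocities off `C` -/
def glue (P : V → Fin 3 → Matrix ι ι K) (C : Finset V) :
    (((Fin 3 → ι → K) × (Fin 3 → ι → K)) × ({v // v ∉ C} → Fin 3 → ι → K)) →ₗ[K]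
      (V → Fin 3 → ι → K) where
  toFun x v := if h : v ∈ C then triv P x.1 v else x.2 ⟨v, h⟩
  map_add' x y := by
    funext v
    by_cases h : v ∈ C
    · simp [h]
    · simp [h]
  map_smul' r x := by
    funext v
    by_cases h : v ∈ C
    · simp [h]
    · simp [h]

lemma glue_mem_Fl {P : V → Fin 3 → Matrix ι ι K} (hP : Comm P) (C : Finset V) (x) :
    glue P C x ∈ Fl P (Kf C : Set (Sym2 V)) := by
  intro a b hab
  rw [Finset.mem_coe, mk_mem_Kf] at hab
  have h := strain_triv hP x.1 a b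
  rw [strain_apply] at h ⊢
  rw [← h]
  refine Finset.sum_congr rfl fun c _ => ?_
  have e1 : glue P C x a = triv P x.1 a := by simp [glue, hab.2.1]
  have e2 : glue P C x b = triv P x.1 b := by simp [glue, hab.2.2]
  rw [e1, e2]

lemma le_fdim_Kf {P : V → Fin 3 → Matrix ι ι K} (hP : Comm P) (C : Finset V) (h5 : C.card = 5)
    (h0 : trivKer P C = ⊥) :
    3 * Fintype.card V * Fintype.card ι ≤ fdim P (Kf C : Set (Sym2 V)) + 9 * Fintype.card ι := by
  let g : (((Fin 3 → ι → K) × (Fin 3 → ι → K)) × ({v // v ∉ C} → Fin 3 → ι → K)) →ₗ[K]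
      Fl P (Kf C : Set (Sym2 V)) := (glue P C).codRestrict _ (glue_mem_Fl hP C)
  have hinj : Function.Injective g := by
    rw [← LinearMap.ker_eq_bot, LinearMap.ker_eq_bot']
    intro x hx
    have hx' : glue P C x = 0 := congrArg Subtype.val hx
    have h1 : x.1 = 0 := by
      have : x.1 ∈ trivKer P C := by
        intro v hv
        have := congrFun hx' v
        simpa [glue, hv] using this
      rw [h0, Submodule.mem_bot] at this
      exact this
    have h2 : x.2 = 0 := by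
      funext v
      have := congrFun hx' v.1
      simpa [glue, v.2] using this
    exact Prod.ext h1 h2
  have h1 := LinearMap.finrank_le_finrank_of_injective hinj
  have h2 : finrank K (((Fin 3 → ι → K) × (Fin 3 → ι → K)) × ({v // v ∉ C} → Fin 3 → ι → K))
      = 6 * Fintype.card ι + 3 * (Fintype.card V - 5) * Fintype.card ι := by
    rw [Module.finrank_prod, Module.finrank_prod, finrank_vel]
    simp only [Module.finrank_pi_fintype, Module.finrank_self, Finset.sum_const, Finset.card_univ,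
      smul_eq_mul, Fintype.card_fin]
    rw [Fintype.card_subtype_compl, Fintype.card_coe, h5]
    ring
  have h3 : 5 ≤ Fintype.card V := by rw [← h5]; exact Finset.card_le_univ C
  unfold fdim
  rw [h2] at h1
  obtain ⟨m, hm⟩ := Nat.exists_eq_add_of_le h3
  rw [hm, Nat.add_sub_cancel_left] at h1
  rw [hm]
  nlinarith [h1]

/-- a criterion for `Nice5` -/
theorem nice5_of {P : V → Fin 3 → Matrix ι ι K} (hP : Comm P)
    (h0 : ∀ C : Finset V, C.card = 5 → trivKer P C = ⊥)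
    (h9 : ∀ C : Finset V, C.card = 5 → ∀ f ∈ Kf C,
      fdim P (((Kf C).erase f : Finset (Sym2 V)) : Set (Sym2 V)) + 9 * Fintype.card ι
        ≤ 3 * Fintype.card V * Fintype.card ι) : Nice5 P := by
  intro C hC f hf
  have h1 := le_fdim_Kf hP C hC (h0 C hC)
  have h2 := h9 C hC f hf
  have h3 : Fl P (Kf C : Set (Sym2 V)) ≤ Fl P (((Kf C).erase f : Finset (Sym2 V)) : Set (Sym2 V)) :=
    Fl_anti P (by exact_mod_cast Finset.erase_subset f (Kf C))
  have h4 : Fl P (Kf C : Set (Sym2 V)) = Fl P (((Kf C).erase f : Finset (Sym2 V)) : Set (Sym2 V)) := by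
    refine Submodule.eq_of_le_of_finrank_le h3 ?_
    unfold fdim at h1 h2
    omega
  exact h4.ge

end Fin

end GAM
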