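import Pool.Agent.Lib.GAP.Sem
import Pool.Agent.Lib.GA.MBridge
import Pool.Agent.Lib.GA.Basic2

/-!
# The rigidity matrix as an input of the rank routine
-/

set_option autoImplicit false

namespace Pool.GA

open GAP

/-- The coefficient of the variable `(c, v)` in the row of the pair `e` and the column `x`; the
column `3 u + c` belongs to the vertex `u` and the coordinate `c`. -/
def rigEnt (q : ℕ) (e : ℕ × ℕ) (c v x : ℕ) : ℕ :=
  if x % 3 = c then
    if (v = e.1 ∧ x / 3 = e.1) ∨ (v = e.2 ∧ x / 3 = e.2) then 1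
    else if (v = e.1 ∧ x / 3 = e.2) ∨ (v = e.2 ∧ x / 3 = e.1) then q - 1
    else 0
  else 0

/-- The rigidity matrix of the graph with the vertices `0, …, n - 1` and the edges `es`, modulo
`q`. -/
def rigLM (q n : ℕ) (es : List (ℕ × ℕ)) : LM where
  N := es.length
  N' := n * 3
  A0 := tab es.length (n * 3) fun _ _ => 0
  P := (List.range 3).map fun c => (List.range n).map fun v =>
    tab es.length (n * 3) fun r x => rigEnt q (es.getD r (0, 0)) c v x

theorem rigLM_WFL (q n : ℕ) (es : List (ℕ × ℕ)) : WFL 3 n (rigLM q n es) where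
  A0 := WF_tab _ _ _
  len := by simp [rigLM]
  part := by
    intro L hL
    simp only [rigLM, List.mem_map] at hL
    obtain ⟨c, -, rfl⟩ := hL
    refine ⟨by simp, fun A hA => ?_⟩
    obtain ⟨v, -, rfl⟩ := List.mem_map.1 hA
    exact WF_tab _ _ _

/-- The entries of the rigidity matrix. -/
theorem cast_rigEnt (F : Type) [Field F] (q : ℕ) [CharP F q] (hq : 1 ≤ q) {n : ℕ} (s t v u : Fin n)
    (hst : s ≠ t) (c c' : Fin 3) :
    ((rigEnt q ((s : ℕ), (t : ℕ)) c v (c' + 3 * u) : ℕ) : F)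
      = if c' = c then ((if v = s then 1 else 0) - (if v = t then 1 else 0))
        * ((if u = s then 1 else 0) - (if u = t then 1 else 0)) else 0 := by
  have h1 : ((c' : ℕ) + 3 * u) % 3 = c' := by have := c'.2; omega
  have h2 : ((c' : ℕ) + 3 * u) / 3 = u := by have := c'.2; omega
  have h3 : ((q - 1 : ℕ) : F) = -1 := by
    rw [Nat.cast_sub hq, CharP.cast_eq_zero F q]
    simp
  rw [rigEnt, h1, h2]
  simp only [Fin.val_inj]
  by_cases hc : c' = c
  · rw [if_pos hc, if_pos hc]
    by_cases hvs : v = s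
    · subst hvs
      by_cases hus : u = v
      · subst hus
        simp [hst]
      · by_cases hut : u = t
        · subst hut
          simp [hst, Ne.symm hst, h3]
        · simp [hst, hus, hut]
    · by_cases hvt : v = t
      · subst hvt
        by_cases hus : u = s
        · subst hus
          simp [hst, Ne.symm hst, h3]
        · by_cases hut : u = v
          · subst hut
            simp [hus]
          · simp [hus, hut, hvs]
      · simp [hvs, hvt]
  · rw [if_neg hc, if_neg hc, Nat.cast_zero]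

/-- The rows of the rigidity matrix. -/
def srcE (n : ℕ) (es : List (ℕ × ℕ)) (h : ∀ e ∈ es, e.1 < n ∧ e.2 < n ∧ e.1 ≠ e.2)
    (r : Fin es.length) : Fin n := ⟨es[r].1, (h _ (List.getElem_mem r.2)).1⟩

/-- The rows of the rigidity matrix. -/
def tgtE (n : ℕ) (es : List (ℕ × ℕ)) (h : ∀ e ∈ es, e.1 < n ∧ e.2 < n ∧ e.1 ≠ e.2)
    (r : Fin es.length) : Fin n := ⟨es[r].2, (h _ (List.getElem_mem r.2)).2.1⟩

theorem srcE_ne (n : ℕ) (es : List (ℕ × ℕ)) (h : ∀ e ∈ es, e.1 < n ∧ e.2 < n ∧ e.1 ≠ e.2)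
    (r : Fin es.length) : srcE n es h r ≠ tgtE n es h r := by
  intro hr
  exact (h _ (List.getElem_mem r.2)).2.2 (congrArg Fin.val hr)

theorem toPen_rigLM (F : Type) [Field F] (q : ℕ) [CharP F q] (hq : 1 ≤ q) (n : ℕ)
    (es : List (ℕ × ℕ)) (h : ∀ e ∈ es, e.1 < n ∧ e.2 < n ∧ e.1 ≠ e.2) :
    toPen F 3 n (rigLM q n es) =
      (GAM.rigPen F (srcE n es h) (tgtE n es h) fun _ => true).sub (Equiv.refl _)
        finProdFinEquiv.symm := by
  have hc : (toPen F 3 n (rigLM q n es)).c = 0 := by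
    ext r x
    change ((ent (tab es.length (n * 3) fun _ _ => 0) (r : ℕ) (x : ℕ) : ℕ) : F) = 0
    rw [ent_tab]
    simp
  have ha : ∀ (i : Fin 3) (v : Fin n), (toPen F 3 n (rigLM q n es)).a i v =
      ((GAM.rigPen F (srcE n es h) (tgtE n es h) fun _ => true).sub (Equiv.refl _)
        finProdFinEquiv.symm).a i v := by
    intro i v
    ext r x
    have hr : (r : ℕ) < es.length := r.2
    obtain ⟨⟨u, c'⟩, rfl⟩ := (finProdFinEquiv (m := n) (n := 3)).surjective x
    have h5 : ((GAM.rigPen F (srcE n es h) (tgtE n es h) fun _ => true).sub (Equiv.refl _)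
        finProdFinEquiv.symm).a i v r (finProdFinEquiv (u, c')) =
        if c' = i then ((if v = srcE n es h r then 1 else 0) - (if v = tgtE n es h r then 1 else 0))
        * ((if u = srcE n es h r then 1 else 0) - (if u = tgtE n es h r then 1 else 0)) else 0 := by
      simp [Pen.sub, GAM.rigPen]
    rw [h5]
    change ((ent (((rigLM q n es).P.getD (i : ℕ) []).getD (v : ℕ) []) (r : ℕ)
      ((finProdFinEquiv (u, c') : Fin (n * 3)) : ℕ) : ℕ) : F) = _
    have h1 : ((rigLM q n es).P.getD (i : ℕ) []).getD (v : ℕ) [] =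
        tab es.length (n * 3) fun r x => rigEnt q (es.getD r (0, 0)) i v x := by
      simp [rigLM, List.getD_eq_getElem?_getD]
    rw [h1, ent_tab, if_pos ⟨hr, Fin.is_lt _⟩]
    have h2 : es.getD (r : ℕ) (0, 0) = ((srcE n es h r : ℕ), (tgtE n es h r : ℕ)) := by
      rw [List.getD_eq_getElem _ _ hr]
      rfl
    have h3 : ((finProdFinEquiv (u, c') : Fin (n * 3)) : ℕ) = c' + 3 * u := rfl
    rw [h2]
    have h4 := cast_rigEnt F q hq (srcE n es h r) (tgtE n es h r) v u (srcE_ne n es h r) i c'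
    refine Eq.trans ?_ h4
    rfl
  cases hT : toPen F 3 n (rigLM q n es) with
  | mk c a =>
    rw [hT] at hc ha
    simp only at hc ha
    subst hc
    have : a = ((GAM.rigPen F (srcE n es h) (tgtE n es h) fun _ => true).sub (Equiv.refl _)
        finProdFinEquiv.symm).a := by
      funext i v
      exact ha i v
    rw [this]
    rfl

/-- The edge set of the list. -/
def listEdges (n : ℕ) (es : List (ℕ × ℕ)) : Finset (Sym2 (Fin n)) :=
  Finset.univ.filter fun e => ∃ i j : Fin n, e = s(i, j) ∧ ((i : ℕ), (j : ℕ)) ∈ es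

theorem rowFin_eq (n : ℕ) (es : List (ℕ × ℕ)) (h : ∀ e ∈ es, e.1 < n ∧ e.2 < n ∧ e.1 ≠ e.2) :
    GAM.rowFin (srcE n es h) (tgtE n es h) (fun _ => true) = listEdges n es := by
  ext e
  simp only [GAM.rowFin, listEdges, Finset.mem_image, Finset.mem_filter, Finset.mem_univ,
    true_and]
  constructor
  · rintro ⟨r, rfl⟩
    exact ⟨_, _, rfl, List.getElem_mem r.2⟩
  · rintro ⟨i, j, rfl, hij⟩
    obtain ⟨r, hr, he⟩ := List.mem_iff_getElem.1 hij
    refine ⟨⟨r, hr⟩, ?_⟩
    have h1 : srcE n es h ⟨r, hr⟩ = i := Fin.ext (congrArg Prod.fst he)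
    have h2 : tgtE n es h ⟨r, hr⟩ = j := Fin.ext (congrArg Prod.snd he)
    rw [h1, h2]

/-- **The rank routine computes the rank given by `K₅`-sequences.** -/
theorem RANK_rigLM (q : ℕ) [Fact q.Prime] (n : ℕ) (es : List (ℕ × ℕ))
    (h : ∀ e ∈ es, e.1 < n ∧ e.2 < n ∧ e.1 ≠ e.2) (hq : bnd [5, 3, 2] es.length ≤ q) (h2 : q ≠ 2) :
    RANK q [5, 3, 2] (rigLM q n es) = GAM.K5rank (listEdges n es) := by
  have hq1 : 1 ≤ q := (Fact.out : q.Prime).one_lt.le
  have h3 := RANK_eq (F := AlgebraicClosure (ZMod q)) q [5, 3, 2] (by decide) (by decide) n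
    (rigLM q n es) (rigLM_WFL q n es) hq
  have hF2 : (2 : AlgebraicClosure (ZMod q)) ≠ 0 := by
    intro h0
    have h4 : ((2 : ℕ) : AlgebraicClosure (ZMod q)) = 0 := by exact_mod_cast h0
    rw [CharP.cast_eq_zero_iff (AlgebraicClosure (ZMod q)) q] at h4
    have h5 := Nat.le_of_dvd (by omega) h4
    have h6 := (Fact.out : q.Prime).two_le
    omega
  rw [h3]
  have h4 := toPen_rigLM (AlgebraicClosure (ZMod q)) q hq1 n es h
  have h5 := rho_sub_equiv (P := fun i : Fin 3 => [5, 3, 2].get i)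
    (GAM.rigPen (AlgebraicClosure (ZMod q)) (srcE n es h) (tgtE n es h) fun _ => true)
    (Equiv.refl _) finProdFinEquiv.symm
  rw [← h4] at h5
  refine Eq.trans h5 ?_
  rw [GAM.rho_rigPen _ hF2 _ _ _ (fun r _ => srcE_ne n es h r) _ (by decide), rowFin_eq]

end Pool.GA
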