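import Pool.Agent.Lib.GA.RigLM
import Pool.Agent.Lib.GAP.ProgPF
import Pool.Agent.Lib.GAP.Prime

/-!
# The rank in the generic rigidity matroid in three-space in polynomial time
-/

set_option autoImplicit false

namespace Pool.GA

open Pool.Agent.Lib.PolyTree GAP

/-- The rank of the graph on `0, …, n - 1` with the edges `es`. -/
def rigRank (p : ℕ × List (ℕ × ℕ)) : ℕ :=
  RANK (primeAbove (bnd [5, 3, 2] p.2.length)) [5, 3, 2]
    (rigLM (primeAbove (bnd [5, 3, 2] p.2.length)) p.1 p.2)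

@[fun_prop]
theorem PF_rigEnt {α : Type} [TEnc α] {q c v x : α → ℕ} {e : α → ℕ × ℕ} (hq : PF q) (he : PF e)
    (hc : PF c) (hv : PF v) (hx : PF x) : PF fun a => rigEnt (q a) (e a) (c a) (v a) (x a) := by
  unfold rigEnt
  fun_prop

@[fun_prop]
theorem PF_rigLM {α : Type} [TEnc α] {q n : α → ℕ} {es : α → List (ℕ × ℕ)} (hq : PF q)
    (hn : PF n) (he : PF es) : PF fun a => rigLM (q a) (n a) (es a) := by
  unfold rigLM
  fun_prop

theorem PF_rigRank : PF rigRank := by
  have hq : PF fun p : ℕ × List (ℕ × ℕ) => primeAbove (bnd [5, 3, 2] p.2.length) :=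
    PF_primeAbove (PF_bnd [5, 3, 2] (by fun_prop))
  exact PF_RANK [5, 3, 2] hq (by fun_prop)

/-- **`rigRank` is the rank given by `K₅`-sequences.** -/
theorem rigRank_eq (n : ℕ) (es : List (ℕ × ℕ)) (h : ∀ e ∈ es, e.1 < n ∧ e.2 < n ∧ e.1 ≠ e.2) :
    rigRank (n, es) = GAM.K5rank (listEdges n es) := by
  obtain ⟨h1, h2, -⟩ := primeAbove_spec (bnd [5, 3, 2] es.length)
  have : Fact (primeAbove (bnd [5, 3, 2] es.length)).Prime := ⟨h1⟩
  have h3 : 2 ≤ bnd [5, 3, 2] es.length := by simp only [bnd]; omega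
  exact RANK_rigLM _ n es h h2.le (lt_of_le_of_lt h3 h2).ne'

end Pool.GA
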