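import Mathlib

/-!
Semilinear cyclic shifts (GA, row of helper80).
`b` is the cyclic shift of `I → L`, semilinear over `σ`, with a factor `t` at the wrap-around.
DIV: every stable subspace has dimension divisible by `d`.
-/

namespace Pool.GA

open WithZero

/-- data of a semilinear cyclic shift on `I → L` -/
structure ShiftData (L I : Type*) [Field L] where
  v : Valuation L ℤᵐ⁰
  σ : L ≃+* L
  t : L
  d : ℕ
  π : Equiv.Perm I
  γ : I → ℕ
  d_pos : 0 < d
  γ_lt : ∀ x, γ x < d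
  γ_π : ∀ x, γ (π x) = (γ x + 1) % d
  π_pow : ∀ x, (π ^ d) x = x
  σ_pow : ∀ a, (σ ^ d) a = a
  v_σ : ∀ a, v (σ a) = v a
  v_t : v t = exp 1
  σ_t : σ t = t

namespace ShiftData

variable {L I : Type*} [Field L] (S : ShiftData L I)

/-- the shift -/
def b (u : I → L) : I → L := fun x =>
  S.σ (u (S.π.symm x)) * (if S.γ x = 0 then S.t else 1)

theorem b_add (u w : I → L) : S.b (u + w) = S.b u + S.b w := by
  funext x; simp only [b, Pi.add_apply, map_add, add_mul]

theorem b_zero : S.b 0 = 0 := by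
  funext x; simp [b]

theorem b_smul (a : L) (u : I → L) : S.b (a • u) = S.σ a • S.b u := by
  funext x; simp [b, mul_assoc]

theorem b_sum {κ : Type*} (s : Finset κ) (u : κ → I → L) :
    S.b (∑ k ∈ s, u k) = ∑ k ∈ s, S.b (u k) := by
  classical
  induction s using Finset.induction_on with
  | empty => simp [b_zero]
  | insert a s ha ih => rw [Finset.sum_insert ha, Finset.sum_insert ha, b_add, ih]

theorem t_ne : S.t ≠ 0 := by
  intro h
  have := S.v_t
  rw [h, map_zero] at this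
  exact exp_ne_zero this.symm

theorem γ_pow (j : ℕ) (y : I) : S.γ ((S.π ^ j) y) = (S.γ y + j) % S.d := by
  induction j with
  | zero => simp [Nat.mod_eq_of_lt (S.γ_lt y)]
  | succ j ih =>
    rw [pow_succ', Equiv.Perm.mul_apply, S.γ_π, ih, Nat.mod_add_mod, Nat.add_assoc]

theorem σ_pow_t (j : ℕ) : (S.σ ^ j) S.t = S.t := by
  induction j with
  | zero => rfl
  | succ j ih =>
    rw [pow_succ']
    show S.σ ((S.σ ^ j) S.t) = S.t
    rw [ih, S.σ_t]

theorem v_σ_pow (j : ℕ) (a : L) : S.v ((S.σ ^ j) a) = S.v a := by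
  induction j with
  | zero => rfl
  | succ j ih =>
    rw [pow_succ']
    show S.v (S.σ ((S.σ ^ j) a)) = S.v a
    rw [S.v_σ, ih]

theorem b_iterate (j : ℕ) (u : I → L) (y : I) :
    (S.b^[j] u) ((S.π ^ j) y) = (S.σ ^ j) (u y) * S.t ^ ((S.γ y + j) / S.d) := by
  induction j with
  | zero => simp [Nat.div_eq_of_lt (S.γ_lt y)]
  | succ j ih =>
    rw [Function.iterate_succ_apply', pow_succ', Equiv.Perm.mul_apply]
    have h1 : S.γ (S.π ((S.π ^ j) y)) = (S.γ y + j + 1) % S.d := by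
      rw [S.γ_π, S.γ_pow, Nat.mod_add_mod]
    rw [b, Equiv.symm_apply_apply, ih, h1, map_mul, map_pow, S.σ_t]
    have h2 : (S.σ ^ (j + 1)) (u y) = S.σ ((S.σ ^ j) (u y)) := by rw [pow_succ']; rfl
    rw [h2, ← Nat.add_assoc, Nat.succ_div]
    by_cases hd : S.d ∣ S.γ y + j + 1
    · rw [if_pos (Nat.mod_eq_zero_of_dvd hd), if_pos hd, pow_add, pow_one]; ring
    · rw [if_neg (fun h => hd (Nat.dvd_of_mod_eq_zero h)), if_neg hd]; simp

theorem b_iterate_d (u : I → L) : S.b^[S.d] u = S.t • u := by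
  funext x
  have h := S.b_iterate S.d u x
  rw [S.π_pow x, S.σ_pow] at h
  rw [h, Nat.add_div_right _ S.d_pos, Nat.div_eq_of_lt (S.γ_lt x)]
  simp [mul_comm]

/-- the weight of a coordinate -/
noncomputable def wt (u : I → L) (x : I) : ℤᵐ⁰ := S.v (u x) ^ S.d * exp (S.γ x : ℤ)

theorem wt_iterate (j : ℕ) (u : I → L) (y : I) :
    S.wt (S.b^[j] u) ((S.π ^ j) y) = exp (j : ℤ) * S.wt u y := by
  rw [wt, wt, S.b_iterate, S.γ_pow, map_mul, map_pow, S.v_σ_pow, S.v_t, mul_pow]
  have h : (exp (1 : ℤ) ^ ((S.γ y + j) / S.d)) ^ S.d * exp (((S.γ y + j) % S.d : ℕ) : ℤ) =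
      exp (S.γ y : ℤ) * exp (j : ℤ) := by
    rw [← pow_mul, ← exp_nsmul, ← exp_add, ← exp_add]
    congr 1
    have := Nat.div_add_mod (S.γ y + j) S.d
    simp only [nsmul_eq_mul, mul_one]
    have h2 : (((S.γ y + j) / S.d * S.d + (S.γ y + j) % S.d : ℕ) : ℤ) = ((S.γ y + j : ℕ) : ℤ) := by
      rw [mul_comm ((S.γ y + j) / S.d) S.d, this]
    push_cast at h2 ⊢
    linarith
  rw [mul_assoc, h]
  ac_rfl

theorem wt_smul (a : L) (u : I → L) (x : I) : S.wt (a • u) x = S.v a ^ S.d * S.wt u x := by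
  simp only [wt, Pi.smul_apply, smul_eq_mul, map_mul, mul_pow, mul_assoc]

theorem wt_ne_zero {u : I → L} {x : I} (h : u x ≠ 0) : S.wt u x ≠ 0 := by
  rw [wt]
  exact mul_ne_zero (pow_ne_zero _ ((Valuation.ne_zero_iff _).2 h)) exp_ne_zero

theorem exp_mod_ne (a c : ℤᵐ⁰) (ha : a ≠ 0) (hc : c ≠ 0) (i j : Fin S.d) (h : i ≠ j) :
    a ^ S.d * exp (i : ℤ) ≠ c ^ S.d * exp (j : ℤ) := by
  lift a to ℤ using ha
  lift c to ℤ using hc
  rw [← exp_nsmul, ← exp_nsmul, ← exp_add, ← exp_add, Ne, exp_inj]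
  intro he
  apply h
  have h1 : ((i : ℕ) : ℤ) % S.d = ((j : ℕ) : ℤ) % S.d := by
    have := congrArg (· % (S.d : ℤ)) he
    simpa [nsmul_eq_mul] using this
  have h2 : ((i : ℕ) : ℤ) % S.d = i := Int.emod_eq_of_lt (by positivity) (by exact_mod_cast i.2)
  have h3 : ((j : ℕ) : ℤ) % S.d = j := Int.emod_eq_of_lt (by positivity) (by exact_mod_cast j.2)
  rw [h2, h3] at h1
  exact Fin.ext (by exact_mod_cast h1)

variable [Finite I]

/-- nonvanishing -/
theorem comb_ne_zero (a : Fin S.d → L) (ha : a ≠ 0) (u : I → L) (hu : u ≠ 0) :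
    ∑ j, a j • S.b^[j] u ≠ 0 := by
  classical
  obtain ⟨x1, hx1⟩ := Function.ne_iff.1 hu
  obtain ⟨j1, hj1⟩ := Function.ne_iff.1 ha
  have hI : Nonempty I := ⟨x1⟩
  have hF : Nonempty (Fin S.d) := ⟨j1⟩
  obtain ⟨y0, hy0⟩ := Finite.exists_max (fun y => S.wt u y)
  obtain ⟨j0, hj0⟩ := Finite.exists_max (fun j : Fin S.d => S.v (a j) ^ S.d * exp (j : ℤ))
  have hM : S.wt u y0 ≠ 0 := by
    intro h0
    have := hy0 x1
    rw [h0] at this
    exact S.wt_ne_zero hx1 (le_antisymm this zero_le)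
  have hA : S.v (a j0) ^ S.d * exp (j0 : ℤ) ≠ 0 := by
    intro h0
    have := hj0 j1
    rw [h0] at this
    have h1 : S.v (a j1) ^ S.d * exp (j1 : ℤ) ≠ 0 :=
      mul_ne_zero (pow_ne_zero _ ((Valuation.ne_zero_iff _).2 hj1)) exp_ne_zero
    exact h1 (le_antisymm this zero_le)
  have hva : S.v (a j0) ≠ 0 := by
    intro h; rw [h, zero_pow S.d_pos.ne', zero_mul] at hA; exact hA rfl
  intro hsum
  set x0 := (S.π ^ (j0 : ℕ)) y0 with hx0
  have key : ∀ j : Fin S.d, S.wt (a j • S.b^[j] u) x0 ≤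
      S.v (a j) ^ S.d * exp (j : ℤ) * S.wt u y0 := by
    intro j
    rw [S.wt_smul]
    have h1 : x0 = (S.π ^ (j : ℕ)) ((S.π ^ (j : ℕ)).symm x0) := by simp
    rw [h1, S.wt_iterate, mul_assoc]
    gcongr
    exact hy0 _
  have key0 : S.wt (a j0 • S.b^[j0] u) x0 = S.v (a j0) ^ S.d * exp (j0 : ℤ) * S.wt u y0 := by
    rw [S.wt_smul, hx0, S.wt_iterate, mul_assoc]
  have hlt : ∀ j : Fin S.d, j ≠ j0 →
      S.v ((a j • S.b^[j] u) x0) < S.v ((a j0 • S.b^[j0] u) x0) := by
    intro j hj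
    have h1 : S.v (a j) ^ S.d * exp (j : ℤ) < S.v (a j0) ^ S.d * exp (j0 : ℤ) := by
      refine lt_of_le_of_ne (hj0 j) ?_
      by_cases hz : S.v (a j) = 0
      · rw [hz, zero_pow S.d_pos.ne', zero_mul]; exact hA.symm
      · exact S.exp_mod_ne _ _ hz hva j j0 hj
    have h2 : S.wt (a j • S.b^[j] u) x0 < S.wt (a j0 • S.b^[j0] u) x0 := by
      rw [key0]
      refine lt_of_le_of_lt (key j) ?_
      exact mul_lt_mul_of_pos_right h1 (zero_lt_iff.2 hM)
    rw [wt, wt] at h2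
    have h3 := lt_of_mul_lt_mul_right h2 zero_le
    exact lt_of_pow_lt_pow_left₀ S.d zero_le h3
  have hne : S.v ((a j0 • S.b^[j0] u) x0) ≠ 0 := by
    intro h0
    rw [wt, h0, zero_pow S.d_pos.ne', zero_mul] at key0
    exact mul_ne_zero hA hM key0.symm
  have hx := congrFun hsum x0
  rw [Finset.sum_apply, ← Finset.add_sum_erase _ _ (Finset.mem_univ j0)] at hx
  have hx2 : (a j0 • S.b^[j0] u) x0 =
      - ∑ j ∈ Finset.univ.erase j0, (a j • S.b^[j] u) x0 := by
    rw [eq_neg_iff_add_eq_zero]; exact hx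
  have h4 : S.v ((a j0 • S.b^[j0] u) x0) < S.v ((a j0 • S.b^[j0] u) x0) := by
    nth_rewrite 1 [hx2]
    rw [Valuation.map_neg]
    exact Valuation.map_sum_lt _ hne (fun j hj => hlt j (Finset.ne_of_mem_erase hj))
  exact lt_irrefl _ h4

theorem indep (u : I → L) (hu : u ≠ 0) :
    LinearIndependent L (fun j : Fin S.d => S.b^[j] u) := by
  rw [Fintype.linearIndependent_iff]
  intro g hg
  by_contra hcon
  push Not at hcon
  obtain ⟨i, hi⟩ := hcon
  exact S.comb_ne_zero g (fun h => hi (congrFun h i)) u hu hg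

/-- the cyclic subspace -/
noncomputable def cyc (u : I → L) : Submodule L (I → L) :=
  Submodule.span L (Set.range fun j : Fin S.d => S.b^[j] u)

omit [Finite I] in
theorem mem_cyc (u : I → L) : u ∈ S.cyc u :=
  Submodule.subset_span ⟨⟨0, S.d_pos⟩, rfl⟩

omit [Finite I] in
theorem b_mem_of_span {s : Set (I → L)} {U : Submodule L (I → L)} (hs : ∀ x ∈ s, S.b x ∈ U)
    {x : I → L} (hx : x ∈ Submodule.span L s) : S.b x ∈ U := by
  induction hx using Submodule.span_induction with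
  | mem x h => exact hs x h
  | zero => rw [S.b_zero]; exact U.zero_mem
  | add x y _ _ hx hy => rw [S.b_add]; exact U.add_mem hx hy
  | smul a x _ hx => rw [S.b_smul]; exact U.smul_mem _ hx

omit [Finite I] in
theorem cyc_stable (u : I → L) {x : I → L} (hx : x ∈ S.cyc u) : S.b x ∈ S.cyc u := by
  refine S.b_mem_of_span ?_ hx
  rintro _ ⟨j, rfl⟩
  show S.b (S.b^[j] u) ∈ S.cyc u
  rw [← Function.iterate_succ_apply' S.b]
  rcases Nat.lt_or_ge ((j : ℕ) + 1) S.d with h | h
  · exact Submodule.subset_span ⟨⟨(j : ℕ) + 1, h⟩, rfl⟩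
  · have : (j : ℕ) + 1 = S.d := le_antisymm j.2 h
    rw [Nat.succ_eq_add_one, this, S.b_iterate_d]
    exact Submodule.smul_mem _ _ (S.mem_cyc u)

omit [Finite I] in
theorem cyc_le {u : I → L} {U : Submodule L (I → L)} (hU : ∀ x ∈ U, S.b x ∈ U) (hu : u ∈ U) :
    S.cyc u ≤ U := by
  refine Submodule.span_le.2 ?_
  rintro _ ⟨j, rfl⟩
  have : ∀ n : ℕ, S.b^[n] u ∈ U := by
    intro n
    induction n with
    | zero => exact hu
    | succ n ih => rw [Function.iterate_succ_apply']; exact hU _ ih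
  exact this j

theorem finrank_cyc {u : I → L} (hu : u ≠ 0) : Module.finrank L (S.cyc u) = S.d := by
  rw [cyc, finrank_span_eq_card (S.indep u hu), Fintype.card_fin]

theorem cyc_eq {u x : I → L} (hu : u ≠ 0) (hx : x ∈ S.cyc u) (hx0 : x ≠ 0) :
    S.cyc x = S.cyc u := by
  have hle : S.cyc x ≤ S.cyc u := S.cyc_le (fun y hy => S.cyc_stable u hy) hx
  exact Submodule.eq_of_le_of_finrank_eq hle (by rw [S.finrank_cyc hu, S.finrank_cyc hx0])

/-- DIV -/
theorem dvd_finrank (U : Submodule L (I → L)) (hU : ∀ x ∈ U, S.b x ∈ U) :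
    S.d ∣ Module.finrank L U := by
  have main : ∀ n : ℕ, ∀ V : Submodule L (I → L), V ≤ U → (∀ x ∈ V, S.b x ∈ V) →
      S.d ∣ Module.finrank L V → Module.finrank L U = Module.finrank L V + n →
      S.d ∣ Module.finrank L U := by
    intro n
    induction n using Nat.strong_induction_on with
    | _ n ih =>
      intro V hVU hV hdV hn
      by_cases hn0 : n = 0
      · rw [hn, hn0, add_zero]; exact hdV
      · have hne : V ≠ U := by
          intro h; rw [h] at hn; omega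
        obtain ⟨u, huU, huV⟩ := SetLike.exists_of_lt (lt_of_le_of_ne hVU hne)
        have hu0 : u ≠ 0 := fun h => huV (h ▸ V.zero_mem)
        have hdisj : V ⊓ S.cyc u = ⊥ := by
          rw [Submodule.eq_bot_iff]
          intro x hx
          by_contra hx0
          have h1 := S.cyc_eq hu0 hx.2 hx0
          have h2 : S.cyc x ≤ V := S.cyc_le hV hx.1
          rw [h1] at h2
          exact huV (h2 (S.mem_cyc u))
        have hfr := Submodule.finrank_sup_add_finrank_inf_eq V (S.cyc u)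
        rw [hdisj, finrank_bot, add_zero, S.finrank_cyc hu0] at hfr
        have hcU : S.cyc u ≤ U := S.cyc_le hU huU
        have hle : V ⊔ S.cyc u ≤ U := sup_le hVU hcU
        have hfle := Submodule.finrank_mono hle
        have hst : ∀ x ∈ V ⊔ S.cyc u, S.b x ∈ V ⊔ S.cyc u := by
          intro x hx
          obtain ⟨y, hy, z, hz, rfl⟩ := Submodule.mem_sup.1 hx
          rw [S.b_add]
          exact Submodule.add_mem_sup (hV y hy) (S.cyc_stable u hz)
        have hd := S.d_pos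
        refine ih (n - S.d) (by omega) (V ⊔ S.cyc u) hle hst ?_ (by omega)
        rw [hfr]
        exact (Nat.dvd_add_right hdV).2 dvd_rfl
  refine main (Module.finrank L U) ⊥ bot_le ?_ (by simp) (by simp)
  intro x hx
  rw [Submodule.mem_bot] at hx
  rw [hx, S.b_zero]
  exact Submodule.zero_mem _

end ShiftData

end Pool.GA
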