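import Pool.Agent.Lib.GA.StuckThm

/-!
# GA: the stuck theorem, general form (multiplicity `g`, single entry first order conditions)

`F` field, `E` division ring, `F` central in `E` (take `E = F` for the version with one exact position).
-/

namespace GA

set_option linter.unusedSectionVars false

open Module

variable {F E : Type*} [Field F] [DivisionRing E] [Algebra F E]
variable {V V' : Type*} [AddCommGroup V] [Module E V] [Module F V] [IsScalarTower F E V] [FiniteDimensional E V]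
  [AddCommGroup V'] [Module E V'] [Module F V'] [IsScalarTower F E V'] [FiniteDimensional E V']
variable {ι α : Type*} [Fintype ι] [DecidableEq ι] [Fintype α] [DecidableEq α]

/-- `K_b` with functionals indexed by `ℕ` -/
def KK (A0 : V →ₗ[E] V') (A : ι → V →ₗ[E] V') (M : ι → α → α → F) (L : ℕ → α → F) (b : ℕ) :
    Submodule E (α → V) :=
  LinearMap.ker (TT A0 A M) ⊓ ⨅ i : Fin b, LinearMap.ker (ev (E := E) (L i) : (α → V) →ₗ[E] V)

variable {A0 : V →ₗ[E] V'} {A : ι → V →ₗ[E] V'} {M : ι → α → α → F} {L : ℕ → α → F}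

theorem mem_KK {b : ℕ} {κ : α → V} :
    κ ∈ KK A0 A M L b ↔ TT A0 A M κ = 0 ∧ ∀ i < b, ev (E := E) (L i) κ = 0 := by
  simp only [KK, Submodule.mem_inf, LinearMap.mem_ker, Submodule.mem_iInf]
  exact and_congr Iff.rfl ⟨fun h i hi => h ⟨i, hi⟩, fun h i => h i i.2⟩

theorem KK_anti {b b' : ℕ} (h : b ≤ b') : KK A0 A M L b' ≤ KK A0 A M L b := by
  intro κ hκ
  rw [mem_KK] at hκ ⊢
  exact ⟨hκ.1, fun j hj => hκ.2 j (lt_of_lt_of_le hj h)⟩

theorem KK_succ (b : ℕ) : KK A0 A M L (b + 1) = KK A0 A M L b ⊓ LinearMap.ker (ev (E := E) (L b)) := by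
  ext κ
  rw [Submodule.mem_inf, mem_KK, mem_KK, LinearMap.mem_ker]
  constructor
  · intro h
    exact ⟨⟨h.1, fun j hj => h.2 j (by omega)⟩, h.2 b (by omega)⟩
  · intro h
    refine ⟨h.1.1, fun j hj => ?_⟩
    rcases Nat.lt_succ_iff_lt_or_eq.mp hj with h1 | h1
    · exact h.1.2 j h1
    · rw [h1]; exact h.2

theorem finrank_KK (b : ℕ) :
    finrank E (KK A0 A M L 0) ≤ finrank E (KK A0 A M L b) + b * finrank E V := by
  induction b with
  | zero => simp
  | succ b ih =>
    rw [KK_succ b]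
    have h2 := finrank_le_inf_ker_add (KK A0 A M L b) (ev (E := E) (L b) : (α → V) →ₗ[E] V)
    rw [Nat.succ_mul]
    omega

variable (A0 A M L) in
/-- single entry first order conditions up to level `n` -/
structure FOg (n : ℕ) : Prop where
  fo1 : ∀ i < n, ∀ (a : α), ∀ κ ∈ KK A0 A M L (i + 1), ∃ y ∈ KK A0 A M L i, ev (E := E) (L i) y = κ a
  fo2 : ∀ b ≤ n, ∀ (j : ι) (a a' : α), ∀ κ ∈ KK A0 A M L b,
    ∃ y : α → V, (∀ i < b, ev (E := E) (L i) y = 0) ∧ TT A0 A M y = Pi.single a' (A j (κ a))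
  fo3 : ∀ b ≤ n, ∀ (j : ι) (a a' : α) (κ : α → α → V), (∀ c, κ c ∈ KK A0 A M L b) → ∑ c, κ c c = 0 →
    ∃ z : α → α → V, (∀ c, (∀ i < b, ev (E := E) (L i) (z c) = 0) ∧
      TT A0 A M (z c) = Pi.single a' (A j (κ c a))) ∧ ∑ c, z c c = 0

/-- kernel elements with component `a` equal to zero -/
def Ka (K : Submodule E (α → V)) (a : α) : Submodule E (α → V) :=
  K ⊓ LinearMap.ker (LinearMap.proj a : (α → V) →ₗ[E] V)

theorem mem_Ka {K : Submodule E (α → V)} {a : α} {κ : α → V} : κ ∈ Ka K a ↔ κ ∈ K ∧ κ a = 0 := by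
  simp [Ka]

theorem exists_plateau_g {N g : ℕ} (_hg : 0 < g) (f : ℕ → ℕ) (hmono : ∀ i, f (i + 1) ≤ f i)
    (hdvd : ∀ i ≤ N, g ∣ f i) (h0 : f 0 < f N + N * g) : ∃ i < N, f (i + 1) = f i := by
  by_contra hcon
  push Not at hcon
  have h2 : ∀ i ≤ N, f i + i * g ≤ f 0 := by
    intro i hi
    induction i with
    | zero => simp
    | succ i ih =>
      have h3 := ih (by omega)
      have h4 := hcon i (by omega)
      have h5 := hmono i
      obtain ⟨u, hu⟩ := hdvd i (by omega)
      obtain ⟨v, hv⟩ := hdvd (i + 1) hi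
      have h6 : v < u := by
        by_contra h
        have : g * u ≤ g * v := Nat.mul_le_mul_left _ (not_lt.mp h)
        omega
      have h7 : g * (v + 1) ≤ g * u := Nat.mul_le_mul_left _ h6
      rw [Nat.mul_add, Nat.mul_one] at h7
      rw [Nat.succ_mul]
      omega
  have := h2 N le_rfl
  omega

/-- (b): robustness -/
theorem robust_g {n : ℕ} (H : FOg A0 A M L n) {b N g : ℕ} (hg : 0 < g) (hN : finrank E V = N * g) (hb : b + N ≤ n)
    (hpl : comps (KK A0 A M L (b + N)) = comps (KK A0 A M L b)) (a : α)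
    (hint : ∀ b' ≤ n, g ∣ finrank E (KK A0 A M L b' ⊔ hyp α (comps (Ka (KK A0 A M L b) a)) : Submodule E (α → V))) :
    comps (Ka (KK A0 A M L b) a) = comps (KK A0 A M L b) := by
  have hall : ∀ i ≤ N, comps (KK A0 A M L (b + i)) = comps (KK A0 A M L b) := by
    intro i hi
    apply le_antisymm (comps_mono (KK_anti (by omega)))
    rw [← hpl]
    exact comps_mono (KK_anti (by omega))
  set W := comps (KK A0 A M L b) with hW
  set W' := comps (Ka (KK A0 A M L b) a) with hW'
  have hle : W' ≤ W := comps_mono inf_le_left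
  by_contra hne
  have hnot : ¬ W ≤ W' := fun h => hne (le_antisymm hle h)
  set G := hyp α W' with hG
  let f : ℕ → ℕ := fun i => finrank E (KK A0 A M L (b + i) ⊔ G : Submodule E (α → V))
  have hfmono : ∀ i, f (i + 1) ≤ f i := fun i =>
    Submodule.finrank_mono (sup_le_sup_right (KK_anti (by omega)) _)
  have hf0 : f 0 ≤ finrank E G + N * g := by
    have h1 := Submodule.finrank_sup_add_finrank_inf_eq (KK A0 A M L b) G
    have h2 : Ka (KK A0 A M L b) a ≤ KK A0 A M L b ⊓ G := by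
      apply le_inf inf_le_left
      intro κ hκ
      rw [hG, mem_hyp]
      intro c
      exact apply_mem_comps hκ c
    have h3 := Submodule.finrank_mono h2
    have h4 := finrank_le_inf_ker_add (KK A0 A M L b) (LinearMap.proj a : (α → V) →ₗ[E] V)
    have h5 : finrank E (Ka (KK A0 A M L b) a) =
      finrank E (KK A0 A M L b ⊓ LinearMap.ker (LinearMap.proj a : (α → V) →ₗ[E] V) : Submodule E (α → V)) := rfl
    show finrank E (KK A0 A M L (b + 0) ⊔ G : Submodule E (α → V)) ≤ _
    rw [Nat.add_zero]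
    omega
  have hfN : finrank E G < f N := by
    have h1 : ¬ (KK A0 A M L (b + N) ≤ G) := by
      intro h
      apply hnot
      rw [← hall N le_rfl]
      apply comps_le
      intro κ hκ a
      exact mem_hyp.mp (h hκ) a
    have h2 : G < KK A0 A M L (b + N) ⊔ G := by
      apply lt_of_le_of_ne le_sup_right
      intro h
      apply h1
      rw [h]
      exact le_sup_left
    exact Submodule.finrank_lt_finrank_of_lt h2
  obtain ⟨i, hi, hfi⟩ := exists_plateau_g (N := N) hg f hfmono (fun i hi => hint (b + i) (by omega)) (by omega)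
  have heq : KK A0 A M L (b + (i + 1)) ⊔ G = KK A0 A M L (b + i) ⊔ G :=
    Submodule.eq_of_le_of_finrank_eq (sup_le_sup_right (KK_anti (by omega)) _) hfi
  apply hnot
  have h5 : W ≤ (KK A0 A M L (b + i)).map (ev (E := E) (L (b + i))) := by
    rw [← hall (i + 1) (by omega)]
    apply comps_le
    intro κ hκ c
    obtain ⟨y, hy, hy2⟩ := H.fo1 (b + i) (by omega) c κ hκ
    exact ⟨y, hy, hy2⟩
  refine h5.trans ?_
  rintro w ⟨κ, hκ, rfl⟩
  have h6 : κ ∈ KK A0 A M L (b + (i + 1)) ⊔ G := by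
    rw [heq]; exact Submodule.mem_sup_left hκ
  obtain ⟨κ', hκ', u, hu, rfl⟩ := Submodule.mem_sup.mp h6
  rw [map_add]
  have h7 : ev (E := E) (L (b + i)) κ' = 0 := (mem_KK.mp hκ').2 (b + i) (by omega)
  rw [h7, zero_add]
  exact ev_mem _ (mem_hyp.mp hu)

/-- (c) -/
theorem sol_mem_g {n : ℕ} (H : FOg A0 A M L n) {b : ℕ} (hb : b ≤ n) (j : ι) (a a' : α)
    (hrob : comps (Ka (KK A0 A M L b) a) = comps (KK A0 A M L b))
    {κ : α → V} (hκ : κ ∈ KK A0 A M L b) :
    ∃ y : α → V, (∀ c, y c ∈ comps (KK A0 A M L b)) ∧ (∀ i < b, ev (E := E) (L i) y = 0) ∧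
      TT A0 A M y = Pi.single a' (A j (κ a)) := by
  classical
  obtain ⟨y, hy1, hy2⟩ := H.fo2 b hb j a a' κ hκ
  refine ⟨y, ?_, hy1, hy2⟩
  intro a0
  have h3 : κ a0 ∈ comps (Ka (KK A0 A M L b) a) := by
    rw [hrob]; exact apply_mem_comps hκ a0
  obtain ⟨η, hη, hηs⟩ := mem_comps.mp h3
  let κh : α → α → V := fun c => (if c = a0 then κ else 0) - η c
  have hκh : ∀ c, κh c ∈ KK A0 A M L b := by
    intro c
    refine Submodule.sub_mem _ ?_ (mem_Ka.mp (hη c)).1
    split
    · exact hκ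
    · exact Submodule.zero_mem _
  have hsum : ∑ c, κh c c = 0 := by
    have e2 : ∑ c, κh c c = ∑ c, (if c = a0 then κ else 0) c - ∑ c, η c c := by
      rw [← Finset.sum_sub_distrib]
      rfl
    rw [e2, hηs, Finset.sum_eq_single a0]
    · simp
    · intro c _ hc; simp [hc]
    · simp
  obtain ⟨z, hz1, hz2⟩ := H.fo3 b hb j a a' κh hκh hsum
  have h7 : ∀ c, κh c a = if c = a0 then κ a else 0 := by
    intro c
    have h8 : η c a = 0 := (mem_Ka.mp (hη c)).2
    show ((if c = a0 then κ else 0) - η c) a = _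
    rw [Pi.sub_apply, h8, sub_zero]
    split <;> rfl
  have h9 : ∀ c, c ≠ a0 → z c c ∈ comps (KK A0 A M L b) := by
    intro c hc
    apply apply_mem_comps
    rw [mem_KK]
    refine ⟨?_, (hz1 c).1⟩
    rw [(hz1 c).2, h7 c, if_neg hc, map_zero, Pi.single_zero]
  have h10 : z a0 a0 ∈ comps (KK A0 A M L b) := by
    have h11 := hz2
    rw [← Finset.add_sum_erase _ _ (Finset.mem_univ a0)] at h11
    rw [eq_neg_of_add_eq_zero_left h11]
    refine Submodule.neg_mem _ (Submodule.sum_mem _ (fun c hc => h9 c (Finset.ne_of_mem_erase hc)))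
  have h12 : y - z a0 ∈ KK A0 A M L b := by
    rw [mem_KK]
    constructor
    · rw [map_sub, hy2, (hz1 a0).2, h7 a0, if_pos rfl, sub_self]
    · intro i hi
      rw [map_sub, hy1 i hi, (hz1 a0).1 i hi, sub_zero]
  have h14 := apply_mem_comps h12 a0
  have h15 : y a0 = (y - z a0) a0 + z a0 a0 := by simp
  rw [h15]
  exact Submodule.add_mem _ h14 h10

/-- THE STUCK THEOREM, general form -/
theorem stuck_g {N g s0 : ℕ} (H : FOg A0 A M L (N ^ 2)) (hg : 0 < g) (hN : finrank E V = N * g)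
    (hD : N ^ 3 < Fintype.card α) (hs0 : 1 ≤ s0)
    (hr : g * (Fintype.card α * s0) ≤ finrank E (KK A0 A M L 0))
    (hint1 : ∀ b ≤ N ^ 2, g ∣ finrank E (comps (KK A0 A M L b)))
    (hint2 : ∀ b ≤ N ^ 2, ∀ b' ≤ N ^ 2, ∀ a : α,
      g ∣ finrank E (KK A0 A M L b' ⊔ hyp α (comps (Ka (KK A0 A M L b) a)) : Submodule E (α → V))) :
    ∃ W : Submodule E V,
      finrank E (W.map A0 ⊔ ⨆ k, W.map (A k) : Submodule E V') + g * s0 < finrank E W + g := by
  classical
  set D := Fintype.card α with hDdef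
  have hN3 : N ^ 2 * N = N ^ 3 := by ring
  -- dimension of K_b
  have hKb : ∀ b ≤ N ^ 2, g * (D * (s0 - 1)) + g ≤ finrank E (KK A0 A M L b) := by
    intro b hb
    have h1 := finrank_KK (A0 := A0) (A := A) (M := M) (L := L) b
    rw [hN] at h1
    have h2 : b * (N * g) ≤ N ^ 3 * g := by
      rw [← hN3, mul_assoc]; exact Nat.mul_le_mul_right _ hb
    have h3 : g * (D * s0) = g * (D * (s0 - 1)) + g * D := by
      obtain ⟨s, rfl⟩ : ∃ s, s0 = s + 1 := ⟨s0 - 1, by omega⟩
      simp only [Nat.add_sub_cancel]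
      ring
    have h4 : N ^ 3 * g + g ≤ g * D := by
      have : g * (N ^ 3 + 1) ≤ g * D := Nat.mul_le_mul_left _ hD
      linarith
    omega
  have hKpos : ∀ b ≤ N ^ 2, KK A0 A M L b ≠ ⊥ := by
    intro b hb h
    have h1 := hKb b hb
    rw [h, finrank_bot] at h1
    omega
  have hWpos : ∀ b ≤ N ^ 2, 1 ≤ finrank E (comps (KK A0 A M L b)) := by
    intro b hb
    have h1 := hKpos b hb
    rw [Submodule.ne_bot_iff] at h1
    obtain ⟨κ, hκ, hκ0⟩ := h1
    obtain ⟨a, ha⟩ := Function.ne_iff.mp hκ0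
    have h2 := apply_mem_comps hκ a
    have h3 : comps (KK A0 A M L b) ≠ ⊥ := by
      intro h
      rw [h, Submodule.mem_bot] at h2
      exact ha h2
    exact Submodule.one_le_finrank_iff.mpr h3
  have hNN : ∀ i ≤ N, i * N ≤ N ^ 2 := by
    intro i hi
    rw [pow_two]; exact Nat.mul_le_mul_right _ hi
  -- plateau
  obtain ⟨i, hi, hfi⟩ := exists_plateau_g (N := N) hg (fun i => finrank E (comps (KK A0 A M L (i * N))))
    (fun i => Submodule.finrank_mono (comps_mono (KK_anti (Nat.mul_le_mul_right _ (Nat.le_succ i)))))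
    (fun i hi => hint1 _ (hNN i hi))
    (by
      have h1 : finrank E (comps (KK A0 A M L (0 * N))) ≤ N * g := by rw [← hN]; exact Submodule.finrank_le _
      have h2 := hWpos (N * N) (hNN N le_rfl)
      show finrank E (comps (KK A0 A M L (0 * N))) < finrank E (comps (KK A0 A M L (N * N))) + N * g
      omega)
  set b := i * N with hbdef
  have hbN : b + N ≤ N ^ 2 := by
    have h1 := hNN (i + 1) hi
    rw [Nat.succ_mul] at h1; exact h1
  have hpl : comps (KK A0 A M L (b + N)) = comps (KK A0 A M L b) := by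
    apply Submodule.eq_of_le_of_finrank_eq (comps_mono (KK_anti (by omega)))
    have : (i + 1) * N = b + N := by rw [hbdef, Nat.succ_mul]
    rw [← this]
    exact hfi
  have hb2 : b ≤ N ^ 2 := by omega
  have hrob : ∀ a, comps (Ka (KK A0 A M L b) a) = comps (KK A0 A M L b) := fun a =>
    robust_g H hg hN hbN hpl a (fun b' hb' => hint2 b hb2 b' hb' a)
  set W := comps (KK A0 A M L b) with hW
  refine ⟨W, ?_⟩
  -- Y
  let Y : Submodule E (α → V) := hyp α W ⊓ ⨅ i : Fin b, LinearMap.ker (ev (E := E) (L i))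
  have hY : ∀ y : α → V, y ∈ Y ↔ (∀ a, y a ∈ W) ∧ ∀ i < b, ev (E := E) (L i) y = 0 := by
    intro y
    simp only [Y, Submodule.mem_inf, mem_hyp, Submodule.mem_iInf, LinearMap.mem_ker]
    exact and_congr Iff.rfl ⟨fun h i hi => h ⟨i, hi⟩, fun h i => h i i.2⟩
  have hYH : Y ≤ hyp α W := inf_le_left
  have hAk : ∀ (k : ι) (w : V), w ∈ W → ∀ a' : α, (Pi.single a' (A k w) : α → V') ∈ Y.map (TT A0 A M) := by
    intro k w hw a'
    obtain ⟨η, hη, hηs⟩ := mem_comps.mp hw
    have h1 : (Pi.single a' (A k w) : α → V') = ∑ a, (Pi.single a' (A k (η a a)) : α → V') := by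
      rw [← hηs, map_sum]
      exact map_sum (LinearMap.single E (fun _ : α => V') a') _ _
    rw [h1]
    refine Submodule.sum_mem _ (fun a _ => ?_)
    obtain ⟨y, h2, h3, h4⟩ := sol_mem_g H hb2 k a a' (hrob a) (hη a)
    exact ⟨y, (hY y).mpr ⟨h2, h3⟩, h4⟩
  have hAk' : hyp α (⨆ k, W.map (A k)) ≤ Y.map (TT A0 A M) := by
    intro v hv
    rw [mem_hyp] at hv
    have h1 : v = ∑ a, (Pi.single a (v a) : α → V') := (Finset.univ_sum_single v).symm
    rw [h1]
    refine Submodule.sum_mem _ (fun a _ => ?_)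
    have h2 : ∀ z ∈ (⨆ k, W.map (A k) : Submodule E V'), (Pi.single a z : α → V') ∈ Y.map (TT A0 A M) := by
      intro z hz
      induction hz using Submodule.iSup_induction' with
      | mem k z hz =>
        obtain ⟨w, hw, rfl⟩ := hz
        exact hAk k w hw a
      | zero => rw [Pi.single_zero]; exact Submodule.zero_mem _
      | add z1 z2 _ _ h1 h2 => rw [Pi.single_add]; exact Submodule.add_mem _ h1 h2
    exact h2 _ (hv a)
  have hT0Y : Y.map (T0 α A0) ≤ Y.map (TT A0 A M) := by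
    rintro v ⟨y, hy, rfl⟩
    have h1 : T0 α A0 y = TT A0 A M y - Tdir A M y := by
      rw [TT, LinearMap.add_apply]; abel
    rw [h1]
    refine Submodule.sub_mem _ ⟨y, hy, rfl⟩ (hAk' ?_)
    rw [mem_hyp]
    intro a'
    rw [Tdir_apply]
    refine Submodule.sum_mem _ (fun k _ => Submodule.sum_mem _ (fun a _ => ?_))
    rw [← algebraMap_smul E]
    refine Submodule.smul_mem _ _ (Submodule.mem_iSup_of_mem k ⟨y a, ((hY y).mp hy).1 a, rfl⟩)
  have hU : hyp α (W.map A0 ⊔ ⨆ k, W.map (A k) : Submodule E V') ≤ Y.map (TT A0 A M) ⊔ (hyp α W).map (T0 α A0) := by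
    intro v hv
    rw [mem_hyp] at hv
    have h1 : ∀ a, ∃ w ∈ W, ∃ z ∈ (⨆ k, W.map (A k) : Submodule E V'), A0 w + z = v a := by
      intro a
      obtain ⟨z1, hz1, z2, hz2, h⟩ := Submodule.mem_sup.mp (hv a)
      obtain ⟨w, hw, rfl⟩ := hz1
      exact ⟨w, hw, z2, hz2, h⟩
    choose w hw z hz hwz using h1
    have h2 : v = T0 α A0 w + z := by
      funext a
      rw [← hwz a]
      rfl
    rw [h2, add_comm]
    exact Submodule.add_mem_sup (hAk' (mem_hyp.mpr hz)) ⟨w, mem_hyp.mpr hw, rfl⟩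
  have hYK : Y ⊓ LinearMap.ker (TT A0 A M) = KK A0 A M L b := by
    apply le_antisymm
    · rintro y ⟨h1, h2⟩
      rw [mem_KK]
      exact ⟨h2, ((hY y).mp h1).2⟩
    · refine le_inf ?_ (fun κ hκ => (mem_KK.mp hκ).1)
      intro κ hκ
      rw [hY]
      exact ⟨fun a => apply_mem_comps hκ a, (mem_KK.mp hκ).2⟩
  have e1 := finrank_inf_ker_add Y (TT A0 A M)
  rw [hYK] at e1
  have e2 := finrank_sup_map_le hYH (T0 α A0) hT0Y
  have e3 := Submodule.finrank_mono hU
  rw [finrank_hyp] at e3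
  rw [finrank_hyp] at e2
  have e4 := hKb b hb2
  rw [← hDdef] at e3 e2
  set v1 := finrank E (W.map A0 ⊔ ⨆ k, W.map (A k) : Submodule E V') with hv1
  set w1 := finrank E W with hw1
  have e5 : D * v1 + g * (D * (s0 - 1)) + g ≤ D * w1 := by omega
  obtain ⟨s, rfl⟩ : ∃ s, s0 = s + 1 := ⟨s0 - 1, by omega⟩
  simp only [Nat.add_sub_cancel] at e5
  have e6 : D * (v1 + g * s) < D * w1 := by
    calc D * (v1 + g * s) = D * v1 + g * (D * s) := by ring
      _ < D * v1 + g * (D * s) + g := by omega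
      _ ≤ D * w1 := e5
  have e7 := Nat.lt_of_mul_lt_mul_left e6
  rw [Nat.mul_add, Nat.mul_one]
  omega

/-- THE STUCK THEOREM over a division ring (`g = 1`), direct rank formula -/
theorem stuck_s {N s0 : ℕ} (H : FOg A0 A M L (N ^ 2)) (hN : finrank E V = N)
    (hD : N ^ 3 < Fintype.card α) (hs0 : 1 ≤ s0)
    (hr : Fintype.card α * s0 ≤ finrank E (KK A0 A M L 0)) :
    ∃ W : Submodule E V,
      finrank E (W.map A0 ⊔ ⨆ k, W.map (A k) : Submodule E V') + s0 ≤ finrank E W := by
  obtain ⟨W, hW⟩ := stuck_g (g := 1) H one_pos (by rw [hN, mul_one]) hD hs0 (by rwa [one_mul])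
    (fun b _ => one_dvd _) (fun b _ b' _ a => one_dvd _)
  exact ⟨W, by omega⟩

/-! ### from the full first order conditions -/

section ofFOcond

variable {B : ℕ} {L' : Fin B → α → F}

/-- functionals indexed by `ℕ` -/
def extL (L' : Fin B → α → F) : ℕ → α → F := fun i => if h : i < B then L' ⟨i, h⟩ else 0

theorem mem_KK_extL {b : ℕ} (hb : b ≤ B) {κ : α → V} :
    κ ∈ KK A0 A M (extL L') b ↔ κ ∈ Kb A0 A M L' b := by
  rw [mem_KK, mem_Kb]
  refine and_congr Iff.rfl ?_
  constructor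
  · intro h j hj
    have h1 := h j hj
    rwa [extL, dif_pos j.2] at h1
  · intro h i hi
    have h1 := h ⟨i, by omega⟩ hi
    rwa [extL, dif_pos (by omega : i < B)]

theorem Tdir_single (j : ι) (a a' : α) (κ : α → V) :
    Tdir A (Pi.single j (Pi.single a (Pi.single a' (1 : F)))) κ = Pi.single a' (A j (κ a)) := by
  funext y
  rw [Tdir_apply, Finset.sum_eq_single j]
  · rw [Finset.sum_eq_single a]
    · by_cases h : y = a'
      · subst h; simp
      · simp [Pi.single_eq_of_ne h]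
    · intro b _ hb; simp [Pi.single_eq_of_ne hb]
    · simp
  · intro k _ hk; simp [Pi.single_eq_of_ne hk]
  · simp

theorem FOg_of_FOcond (H : FOcond A0 A M L') : FOg A0 A M (extL L') B := by
  refine ⟨?_, ?_, ?_⟩
  · intro i hi a κ hκ
    have hκ' := (mem_KK_extL (by omega)).mp hκ
    have h1 := comps_le_map H hi (apply_mem_comps hκ' a)
    obtain ⟨y, hy1, hy2⟩ := h1
    refine ⟨y, (mem_KK_extL (by omega)).mpr hy1, ?_⟩
    rw [extL, dif_pos hi]
    exact hy2
  · intro b hb j a a' κ hκ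
    have hκ' := (mem_KK_extL hb).mp hκ
    have h1 := H.p b hb (Pi.single j (Pi.single a (Pi.single a' 1))) 0 κ (by simpa [Kb] using hκ')
    rw [Pdir_apply, mem_range_PP, Tdir_single] at h1
    obtain ⟨y, hy1, hy2⟩ := h1
    refine ⟨y, ?_, hy1⟩
    intro i hi
    have h2 := hy2 ⟨i, by omega⟩
    rw [if_pos hi, Lpart_apply, if_pos hi] at h2
    rw [extL, dif_pos (by omega : i < B), h2]
    exact ev_zero κ
  · intro b hb j a a' κ hκ hs
    have h1 := H.h b hb (Pi.single j (Pi.single a (Pi.single a' 1))) 0 κ (by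
      refine Prod.ext ?_ ?_
      · funext c
        exact LinearMap.mem_ker.mp ((mem_KK_extL hb).mp (hκ c))
      · change dsum (E := E) κ = 0
        rw [dsum_apply]; exact hs)
    obtain ⟨z, hz⟩ := h1
    have h2 := congrArg Prod.fst hz
    have h3 := congrArg Prod.snd hz
    refine ⟨z, ?_, ?_⟩
    · intro c
      have h4 := congrFun h2 c
      change PP A0 A b M L' (z c) = Pdir A b (Pi.single j (Pi.single a (Pi.single a' 1))) 0 (κ c) at h4
      rw [PP_apply, Pdir_apply, Tdir_single, Prod.mk.injEq] at h4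
      refine ⟨?_, h4.1⟩
      intro i hi
      have h5 := congrFun h4.2 ⟨i, by omega⟩
      rw [Lpart_apply, Lpart_apply, if_pos hi, if_pos hi] at h5
      rw [extL, dif_pos (by omega : i < B), h5]
      exact ev_zero (κ c)
    · change dsum (E := E) z = 0 at h3
      rw [dsum_apply] at h3
      exact h3

end ofFOcond

end GA

namespace Pool.GA

open Module

/-- row STUCKG: the stuck theorem with the exact defect -/
theorem stuckG {F E : Type*} [Field F] [DivisionRing E] [Algebra F E]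
    {V V' : Type*} [AddCommGroup V] [Module E V] [Module F V] [IsScalarTower F E V] [FiniteDimensional E V]
    [AddCommGroup V'] [Module E V'] [Module F V'] [IsScalarTower F E V'] [FiniteDimensional E V']
    {ι α : Type*} [Fintype ι] [DecidableEq ι] [Fintype α] [DecidableEq α]
    {B : ℕ} {A0 : V →ₗ[E] V'} {A : ι → V →ₗ[E] V'} {M : ι → α → α → F} {L : Fin B → α → F}
    (H : _root_.GA.FOcond A0 A M L) {N s : ℕ} (hN : finrank E V = N) (hB : N ^ 2 ≤ B)
    (hD : N ^ 3 < Fintype.card α) (hs : 0 < s)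
    (hr : finrank E (LinearMap.range (_root_.GA.TT A0 A M)) + Fintype.card α * s ≤ Fintype.card α * N) :
    ∃ W : Submodule E V, finrank E (W.map A0 ⊔ ⨆ j, W.map (A j) : Submodule E V') + s ≤ finrank E W := by
  have H1 := _root_.GA.FOg_of_FOcond H
  have H2 : _root_.GA.FOg A0 A M (_root_.GA.extL L) (N ^ 2) :=
    ⟨fun i hi => H1.fo1 i (by omega), fun b hb => H1.fo2 b (by omega), fun b hb => H1.fo3 b (by omega)⟩
  refine _root_.GA.stuck_s H2 hN hD hs ?_
  have h1 := LinearMap.finrank_range_add_finrank_ker (_root_.GA.TT A0 A M)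
  have h3 : finrank E (α → V) = Fintype.card α * finrank E V := by
    rw [finrank_pi_fintype]; simp
  have h4 : _root_.GA.KK A0 A M (_root_.GA.extL L) 0 = LinearMap.ker (_root_.GA.TT A0 A M) := by
    ext κ
    rw [_root_.GA.mem_KK, LinearMap.mem_ker]
    simp
  rw [h4]
  rw [h3, hN] at h1
  omega

end Pool.GA
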