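import Pool.Agent.Lib.GA.Stuck

/-!
# GA: the stuck theorem (main part)
-/

namespace GA

set_option linter.unusedSectionVars false

open Module

variable {F E : Type*} [Field F] [DivisionRing E] [Algebra F E]
variable {V V' : Type*} [AddCommGroup V] [Module E V] [Module F V] [IsScalarTower F E V] [FiniteDimensional E V]
  [AddCommGroup V'] [Module E V'] [Module F V'] [IsScalarTower F E V'] [FiniteDimensional E V']
variable {ι α : Type*} [Fintype ι] [DecidableEq ι] [Fintype α] [DecidableEq α]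
variable {B : ℕ}

section dims

theorem finrank_inf_ker_add (K : Submodule E V) (f : V →ₗ[E] V') :
    finrank E (K.map f) + finrank E (K ⊓ LinearMap.ker f : Submodule E V) = finrank E K := by
  have h := LinearMap.finrank_range_add_finrank_ker (f.domRestrict K)
  have h1 : LinearMap.range (f.domRestrict K) = K.map f := by
    ext w
    simp
  have h2 : finrank E (LinearMap.ker (f.domRestrict K)) = finrank E (K ⊓ LinearMap.ker f : Submodule E V) := by
    have e : LinearMap.ker (f.domRestrict K) = (LinearMap.ker f).comap K.subtype := by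
      ext w; simp
    rw [e, ← Submodule.finrank_map_subtype_eq, Submodule.map_comap_subtype]
  rw [h1, h2] at h
  exact h

/-- `Y ≤ H`: the image of `H` is larger than the image of `Y` by at most `dim H - dim Y` -/
theorem finrank_map_le_add {Y H : Submodule E V} (hYH : Y ≤ H) (f : V →ₗ[E] V') :
    finrank E (H.map f) + finrank E Y ≤ finrank E (Y.map f) + finrank E H := by
  have h1 := finrank_inf_ker_add H f
  have h2 := finrank_inf_ker_add Y f
  have h3 : finrank E (Y ⊓ LinearMap.ker f : Submodule E V) ≤ finrank E (H ⊓ LinearMap.ker f : Submodule E V) :=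
    Submodule.finrank_mono (inf_le_inf_right _ hYH)
  omega

/-- `A ≥ f(Y)`: `dim (A + f(H)) ≤ dim A + dim H - dim Y` -/
theorem finrank_sup_map_le {Y H : Submodule E V} (hYH : Y ≤ H) (f : V →ₗ[E] V') {A : Submodule E V'}
    (hA : Y.map f ≤ A) :
    finrank E (A ⊔ H.map f : Submodule E V') + finrank E Y ≤ finrank E A + finrank E H := by
  have h1 := finrank_map_le_add hYH f
  have h2 := Submodule.finrank_sup_add_finrank_inf_eq A (H.map f)
  have h3 : finrank E (Y.map f) ≤ finrank E (A ⊓ H.map f : Submodule E V') :=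
    Submodule.finrank_mono (le_inf hA (Submodule.map_mono hYH))
  omega

/-- intersecting with the kernel of a map to a space of dimension `n` lowers the dimension by at most `n` -/
theorem finrank_le_inf_ker_add (K : Submodule E V) (f : V →ₗ[E] V') :
    finrank E K ≤ finrank E (K ⊓ LinearMap.ker f : Submodule E V) + finrank E V' := by
  have h1 := finrank_inf_ker_add K f
  have h2 : finrank E (K.map f) ≤ finrank E V' := Submodule.finrank_le _
  omega

end dims

/-! ## the kernels `K_b` -/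

variable (A0 : V →ₗ[E] V') (A : ι → V →ₗ[E] V') (M : ι → α → α → F) (L : Fin B → α → F)

/-- `K_b` -/
def Kb (b : ℕ) : Submodule E (α → V) := LinearMap.ker (PP A0 A b M L)

variable {A0 A M L}

theorem PP_apply (b : ℕ) (κ : α → V) : PP A0 A b M L κ = (TT A0 A M κ, Lpart (E := E) b L κ) := rfl

theorem Pdir_apply (b : ℕ) (dM : ι → α → α → F) (dL : Fin B → α → F) (κ : α → V) :
    Pdir A b dM dL κ = (Tdir A dM κ, Lpart (E := E) b dL κ) := rfl

theorem mem_Kb {b : ℕ} {κ : α → V} :
    κ ∈ Kb A0 A M L b ↔ TT A0 A M κ = 0 ∧ ∀ j : Fin B, j.val < b → ev (E := E) (L j) κ = 0 := by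
  rw [Kb, LinearMap.mem_ker, PP_apply, Prod.mk_eq_zero]
  refine and_congr Iff.rfl ?_
  constructor
  · intro h j hj
    have := congrFun h j
    rw [Lpart_apply, if_pos hj] at this
    exact this
  · intro h
    funext j
    rw [Lpart_apply]
    split
    · exact h j ‹_›
    · rfl

theorem Kb_anti {b b' : ℕ} (h : b ≤ b') : Kb A0 A M L b' ≤ Kb A0 A M L b := by
  intro κ hκ
  rw [mem_Kb] at hκ ⊢
  exact ⟨hκ.1, fun j hj => hκ.2 j (lt_of_lt_of_le hj h)⟩

theorem Kb_succ {b : ℕ} (hb : b < B) : Kb A0 A M L (b + 1) = Kb A0 A M L b ⊓ LinearMap.ker (ev (E := E) (L ⟨b, hb⟩)) := by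
  ext κ
  rw [Submodule.mem_inf, mem_Kb, mem_Kb, LinearMap.mem_ker]
  constructor
  · intro h
    exact ⟨⟨h.1, fun j hj => h.2 j (by omega)⟩, h.2 ⟨b, hb⟩ (by simp)⟩
  · intro h
    refine ⟨h.1.1, fun j hj => ?_⟩
    rcases Nat.lt_succ_iff_lt_or_eq.mp hj with h1 | h1
    · exact h.1.2 j h1
    · have : j = ⟨b, hb⟩ := Fin.ext h1
      rw [this]; exact h.2

theorem finrank_Kb (b : ℕ) (hb : b ≤ B) :
    finrank E (Kb A0 A M L 0) ≤ finrank E (Kb A0 A M L b) + b * finrank E V := by
  induction b with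
  | zero => simp
  | succ b ih =>
    have h1 := ih (by omega)
    rw [Kb_succ (by omega : b < B)]
    have h2 := finrank_le_inf_ker_add (Kb A0 A M L b) (ev (E := E) (L ⟨b, by omega⟩) : (α → V) →ₗ[E] V)
    rw [Nat.succ_mul]
    omega

theorem Kb_zero : Kb A0 A M L 0 = LinearMap.ker (TT A0 A M) := by
  ext κ
  rw [mem_Kb, LinearMap.mem_ker]
  constructor
  · exact fun h => h.1
  · exact fun h => ⟨h, fun j hj => absurd hj (by omega)⟩

variable (A0 A M L)

/-- the first order conditions -/
structure FOcond : Prop where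
  p : ∀ b ≤ B, ∀ (dM : ι → α → α → F) (dL : Fin B → α → F) (κ : α → V),
    PP A0 A b M L κ = 0 → Pdir A b dM dL κ ∈ LinearMap.range (PP A0 A b M L)
  h : ∀ b ≤ B, ∀ (dM : ι → α → α → F) (dL : Fin B → α → F) (κ : α → α → V),
    hat (PP A0 A b M L) κ = 0 → hatdir (Pdir A b dM dL) κ ∈ LinearMap.range (hat (PP A0 A b M L))

variable {A0 A M L}

theorem mem_range_PP {b : ℕ} {v : α → V'} {s : Fin B → V} :
    (v, s) ∈ LinearMap.range (PP A0 A b M L) ↔
      ∃ y : α → V, TT A0 A M y = v ∧ ∀ j : Fin B, (if j.val < b then ev (E := E) (L j) y else 0) = s j := by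
  rw [LinearMap.mem_range]
  constructor
  · rintro ⟨y, hy⟩
    rw [PP_apply, Prod.mk.injEq] at hy
    exact ⟨y, hy.1, fun j => by rw [← hy.2, Lpart_apply]⟩
  · rintro ⟨y, h1, h2⟩
    refine ⟨y, ?_⟩
    rw [PP_apply, Prod.mk.injEq]
    exact ⟨h1, by funext j; rw [Lpart_apply]; exact h2 j⟩

/-- (a): `W (K_{b+1})` is contained in `l_b (K_b)` -/
theorem comps_le_map (H : FOcond A0 A M L) {b : ℕ} (hb : b < B) :
    comps (Kb A0 A M L (b + 1)) ≤ (Kb A0 A M L b).map (ev (E := E) (L ⟨b, hb⟩)) := by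
  apply comps_le
  intro κ hκ a
  have h1 := H.p (b + 1) (by omega) 0 (Pi.single ⟨b, hb⟩ (Pi.single a 1)) κ (by simpa [Kb] using hκ)
  rw [Pdir_apply, mem_range_PP] at h1
  obtain ⟨y, hy1, hy2⟩ := h1
  refine ⟨y, ?_, ?_⟩
  · rw [SetLike.mem_coe, mem_Kb]
    constructor
    · rw [hy1]
      funext a'
      rw [Tdir_apply]
      simp
    · intro j hj
      have h2 := hy2 j
      rw [if_pos (by omega), Lpart_apply, if_pos (by omega)] at h2
      rw [h2, Pi.single_eq_of_ne (by intro h; rw [h] at hj; simp at hj)]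
      exact ev_zero κ
  · have h2 := hy2 ⟨b, hb⟩
    rw [if_pos (by simp), Lpart_apply, if_pos (by simp), Pi.single_eq_same, ev_single] at h2
    exact h2

theorem map_ev_le_comps (K : Submodule E (α → V)) (l : α → F) : K.map (ev (E := E) l) ≤ comps K := by
  rintro w ⟨κ, hκ, rfl⟩
  exact ev_mem l (fun a => apply_mem_comps hκ a)

/-- plateau -/
theorem exists_plateau {N : ℕ} (hN : 0 < N) (f : ℕ → ℕ) (hmono : ∀ i, f (i + 1) ≤ f i) (h0 : f 0 ≤ N)
    (h1 : 1 ≤ f N) : ∃ i < N, f (i + 1) = f i := by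
  by_contra hcon
  push Not at hcon
  have h2 : ∀ i ≤ N, f i + i ≤ N := by
    intro i hi
    induction i with
    | zero => simpa using h0
    | succ i ih =>
      have h3 := ih (by omega)
      have h4 := hcon i (by omega)
      have h5 := hmono i
      omega
  have := h2 N le_rfl
  omega

/-- (b): robustness -/
theorem robust (H : FOcond A0 A M L) {b N : ℕ} (_hN : finrank E V ≤ N) (hN0 : 0 < N) (hb : b + N ≤ B)
    (hpl : comps (Kb A0 A M L (b + N)) = comps (Kb A0 A M L b)) (x : α → F) :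
    comps (Kb A0 A M L b ⊓ LinearMap.ker (ev (E := E) x)) = comps (Kb A0 A M L b) := by
  have hall : ∀ i ≤ N, comps (Kb A0 A M L (b + i)) = comps (Kb A0 A M L b) := by
    intro i hi
    apply le_antisymm (comps_mono (Kb_anti (by omega)))
    rw [← hpl]
    exact comps_mono (Kb_anti (by omega))
  set W := comps (Kb A0 A M L b) with hW
  set W' := comps (Kb A0 A M L b ⊓ LinearMap.ker (ev (E := E) x)) with hW'
  have hle : W' ≤ W := comps_mono inf_le_left
  by_contra hne
  have hnot : ¬ W ≤ W' := fun h => hne (le_antisymm hle h)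
  set G := hyp α W' with hG
  -- S i = K_{b+i} ⊔ G
  let f : ℕ → ℕ := fun i => finrank E (Kb A0 A M L (b + i) ⊔ G : Submodule E (α → V)) - finrank E G
  have hfmono : ∀ i, f (i + 1) ≤ f i := by
    intro i
    have : finrank E (Kb A0 A M L (b + (i + 1)) ⊔ G : Submodule E (α → V)) ≤
        finrank E (Kb A0 A M L (b + i) ⊔ G : Submodule E (α → V)) :=
      Submodule.finrank_mono (sup_le_sup_right (Kb_anti (by omega)) _)
    exact Nat.sub_le_sub_right this _
  have hf0 : f 0 ≤ N := by
    have h1 := Submodule.finrank_sup_add_finrank_inf_eq (Kb A0 A M L b) G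
    have h2 : Kb A0 A M L b ⊓ LinearMap.ker (ev (E := E) x) ≤ Kb A0 A M L b ⊓ G := by
      apply le_inf inf_le_left
      intro κ hκ
      rw [hG, mem_hyp]
      intro a
      exact apply_mem_comps hκ a
    have h3 := Submodule.finrank_mono h2
    have h4 := finrank_le_inf_ker_add (Kb A0 A M L b) (ev (E := E) x : (α → V) →ₗ[E] V)
    show finrank E (Kb A0 A M L (b + 0) ⊔ G : Submodule E (α → V)) - finrank E G ≤ N
    rw [Nat.add_zero]
    omega
  have hfN : 1 ≤ f N := by
    have h1 : ¬ (Kb A0 A M L (b + N) ≤ G) := by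
      intro h
      apply hnot
      rw [← hall N le_rfl]
      apply comps_le
      intro κ hκ a
      exact mem_hyp.mp (h hκ) a
    have h2 : G < Kb A0 A M L (b + N) ⊔ G := by
      apply lt_of_le_of_ne le_sup_right
      intro h
      apply h1
      rw [h]
      exact le_sup_left
    have h3 := Submodule.finrank_lt_finrank_of_lt h2
    show 1 ≤ finrank E (Kb A0 A M L (b + N) ⊔ G : Submodule E (α → V)) - finrank E G
    omega
  obtain ⟨i, hi, hfi⟩ := exists_plateau hN0 f hfmono hf0 hfN
  have hge : ∀ i, finrank E G ≤ finrank E (Kb A0 A M L (b + i) ⊔ G : Submodule E (α → V)) :=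
    fun i => Submodule.finrank_mono le_sup_right
  have heq : Kb A0 A M L (b + (i + 1)) ⊔ G = Kb A0 A M L (b + i) ⊔ G := by
    apply Submodule.eq_of_le_of_finrank_eq (sup_le_sup_right (Kb_anti (by omega)) _)
    have h1 := hge i
    have h2 := hge (i + 1)
    have h3 : finrank E (Kb A0 A M L (b + (i + 1)) ⊔ G : Submodule E (α → V)) - finrank E G
        = finrank E (Kb A0 A M L (b + i) ⊔ G : Submodule E (α → V)) - finrank E G := hfi
    omega
  apply hnot
  have hbi : b + i < B := by omega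
  have h5 : W ≤ (Kb A0 A M L (b + i)).map (ev (E := E) (L ⟨b + i, hbi⟩)) := by
    rw [← hall (i + 1) (by omega)]
    exact comps_le_map H hbi
  refine h5.trans ?_
  rintro w ⟨κ, hκ, rfl⟩
  have h6 : κ ∈ Kb A0 A M L (b + (i + 1)) ⊔ G := by
    rw [heq]; exact Submodule.mem_sup_left hκ
  obtain ⟨κ', hκ', g, hg, rfl⟩ := Submodule.mem_sup.mp h6
  rw [map_add]
  have h7 : ev (E := E) (L ⟨b + i, hbi⟩) κ' = 0 := by
    have h8 := (mem_Kb.mp hκ').2 ⟨b + i, hbi⟩ (by show b + i < b + (i + 1); omega)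
    exact h8
  rw [h7, zero_add]
  exact ev_mem _ (mem_hyp.mp hg)

/-- (c): the solutions `y(κ)` have all components in `W` -/
theorem sol_mem (H : FOcond A0 A M L) {b : ℕ} (hb : b ≤ B) (x u : α → F) (k : ι)
    (hrob : comps (Kb A0 A M L b ⊓ LinearMap.ker (ev (E := E) x)) = comps (Kb A0 A M L b))
    {κ : α → V} (hκ : κ ∈ Kb A0 A M L b) :
    ∃ y : α → V, (∀ a, y a ∈ comps (Kb A0 A M L b)) ∧ (∀ j : Fin B, j.val < b → ev (E := E) (L j) y = 0) ∧
      TT A0 A M y = fun a' => u a' • A k (ev (E := E) x κ) := by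
  classical
  let dM : ι → α → α → F := Pi.single k (fun a a' => x a * u a')
  have hT : ∀ η : α → V, Tdir A dM η = fun a' => u a' • A k (ev (E := E) x η) := by
    intro η
    funext a'
    rw [Tdir_apply, Finset.sum_eq_single k]
    · rw [ev_apply, map_sum, Finset.smul_sum]
      refine Finset.sum_congr rfl (fun a _ => ?_)
      have h1 : dM k a a' = x a * u a' := by simp [dM]
      rw [h1, mul_comm, mul_smul]
      congr 1
      rw [← algebraMap_smul E (x a) (η a), map_smul, algebraMap_smul]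
    · intro k' _ hk'
      have h1 : ∀ a, dM k' a a' = 0 := by intro a; simp [dM, Pi.single_eq_of_ne hk']
      simp [h1]
    · simp
  have hPd : ∀ η : α → V, Pdir A b dM (0 : Fin B → α → F) η = (fun a' => u a' • A k (ev (E := E) x η), 0) := by
    intro η
    rw [Pdir_apply, hT]
    congr 1
    funext j
    rw [Lpart_apply]
    split
    · exact ev_zero η
    · rfl
  -- a solution
  have h1 := H.p b hb dM 0 κ (by simpa [Kb] using hκ)
  obtain ⟨y, hy⟩ := h1
  rw [hPd] at hy
  rw [PP_apply, Prod.mk.injEq] at hy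
  refine ⟨y, ?_, ?_, hy.1⟩
  swap
  · intro j hj
    have h2 := congrFun hy.2 j
    rw [Lpart_apply, if_pos hj] at h2
    exact h2
  intro a0
  have h3 : κ a0 ∈ comps (Kb A0 A M L b ⊓ LinearMap.ker (ev (E := E) x)) := by
    rw [hrob]; exact apply_mem_comps hκ a0
  obtain ⟨η, hη, hηs⟩ := mem_comps.mp h3
  let κh : α → α → V := fun a => (if a = a0 then κ else 0) - η a
  have hηK : ∀ a, η a ∈ Kb A0 A M L b := fun a => (hη a).1
  have hκh : ∀ a, κh a ∈ Kb A0 A M L b := by
    intro a
    refine Submodule.sub_mem _ ?_ (hηK a)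
    split
    · exact hκ
    · exact Submodule.zero_mem _
  have hhat : hat (PP A0 A b M L) κh = 0 := by
    have e1 : hat (PP A0 A b M L) κh = (fun a => PP A0 A b M L (κh a), dsum (E := E) κh) := rfl
    rw [e1, Prod.mk_eq_zero]
    constructor
    · funext a
      exact hκh a
    · rw [dsum_apply]
      have e2 : ∑ a, κh a a = ∑ a, (if a = a0 then κ else 0) a - ∑ a, η a a := by
        rw [← Finset.sum_sub_distrib]
        rfl
      rw [e2, hηs, Finset.sum_eq_single a0]
      · simp
      · intro a _ ha; simp [ha]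
      · simp
  have h4 := H.h b hb dM 0 κh hhat
  obtain ⟨yh, hyh⟩ := h4
  have e3 : hat (PP A0 A b M L) yh = (fun a => PP A0 A b M L (yh a), dsum (E := E) yh) := rfl
  have e4 : hatdir (Pdir A b dM (0 : Fin B → α → F)) κh = (fun a => Pdir A b dM (0 : Fin B → α → F) (κh a), 0) := rfl
  rw [e3, e4, Prod.mk.injEq] at hyh
  have h5 : ∀ a, PP A0 A b M L (yh a) = if a = a0 then PP A0 A b M L y else 0 := by
    intro a
    have h6 := congrFun hyh.1 a
    have h6' : PP A0 A b M L (yh a) = Pdir A b dM (0 : Fin B → α → F) (κh a) := h6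
    rw [h6', hPd]
    have h7 : ev (E := E) x (κh a) = if a = a0 then ev (E := E) x κ else 0 := by
      have h8 : ev (E := E) x (η a) = 0 := (hη a).2
      show ev (E := E) x ((if a = a0 then κ else 0) - η a) = _
      rw [map_sub, h8, sub_zero]
      split
      · rfl
      · exact map_zero _
    rw [h7]
    split
    · rw [PP_apply, Prod.mk.injEq]
      exact ⟨hy.1.symm, hy.2.symm⟩
    · simp only [map_zero, smul_zero]
      rfl
  have h9 : ∀ a, a ≠ a0 → yh a a ∈ comps (Kb A0 A M L b) := by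
    intro a ha
    apply apply_mem_comps
    have := h5 a
    rw [if_neg ha] at this
    exact this
  have h10 : yh a0 a0 ∈ comps (Kb A0 A M L b) := by
    have h11 : ∑ a, yh a a = 0 := by rw [← dsum_apply (E := E)]; exact hyh.2
    rw [← Finset.add_sum_erase _ _ (Finset.mem_univ a0)] at h11
    rw [eq_neg_of_add_eq_zero_left h11]
    refine Submodule.neg_mem _ (Submodule.sum_mem _ (fun a ha => h9 a (Finset.ne_of_mem_erase ha)))
  have h12 : y - yh a0 ∈ Kb A0 A M L b := by
    have h13 := h5 a0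
    rw [if_pos rfl] at h13
    show PP A0 A b M L (y - yh a0) = 0
    rw [map_sub, h13, sub_self]
  have h14 := apply_mem_comps h12 a0
  have h15 : y a0 = (y - yh a0) a0 + yh a0 a0 := by simp
  rw [h15]
  exact Submodule.add_mem _ h14 h10

/-- THE STUCK THEOREM -/
theorem stuck (H : FOcond A0 A M L) {N : ℕ} (hN : finrank E V = N) (hN0 : 0 < N) (hB : N * N ≤ B)
    (hD : N * N * N < Fintype.card α)
    (hr : finrank E (LinearMap.range (TT A0 A M)) ≤ Fintype.card α * (N - 1)) :
    ∃ W : Submodule E V, finrank E (W.map A0 ⊔ ⨆ k, W.map (A k) : Submodule E V') < finrank E W := by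
  classical
  set D := Fintype.card α with hDdef
  -- dimension of K_0
  have hK0 : D ≤ finrank E (Kb A0 A M L 0) := by
    have h1 := LinearMap.finrank_range_add_finrank_ker (TT A0 A M : (α → V) →ₗ[E] (α → V'))
    rw [← Kb_zero (L := L), finrank_pi_fintype] at h1
    simp only [Finset.sum_const, Finset.card_univ, smul_eq_mul, hN] at h1
    rw [← hDdef] at h1
    have h2 : D * N = D * (N - 1) + D := by
      obtain ⟨n, rfl⟩ : ∃ n, N = n + 1 := ⟨N - 1, by omega⟩
      simp [Nat.mul_succ]
    omega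
  have hKpos : ∀ b ≤ N * N, Kb A0 A M L b ≠ ⊥ := by
    intro b hb h
    have h1 := finrank_Kb (A0 := A0) (A := A) (M := M) (L := L) b (hb.trans hB)
    rw [h, finrank_bot, hN] at h1
    have h2 : b * N ≤ N * N * N := Nat.mul_le_mul_right _ hb
    omega
  have hWpos : ∀ b ≤ N * N, 1 ≤ finrank E (comps (Kb A0 A M L b)) := by
    intro b hb
    have h1 := hKpos b hb
    rw [Submodule.ne_bot_iff] at h1
    obtain ⟨κ, hκ, hκ0⟩ := h1
    obtain ⟨a, ha⟩ := Function.ne_iff.mp hκ0
    have h2 := apply_mem_comps hκ a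
    have h3 : comps (Kb A0 A M L b) ≠ ⊥ := by
      intro h
      rw [h, Submodule.mem_bot] at h2
      exact ha h2
    exact Submodule.one_le_finrank_iff.mpr h3
  -- plateau
  obtain ⟨i, hi, hfi⟩ := exists_plateau hN0 (fun i => finrank E (comps (Kb A0 A M L (i * N))))
    (fun i => Submodule.finrank_mono (comps_mono (Kb_anti (Nat.mul_le_mul_right _ (Nat.le_succ i)))))
    (by rw [← hN]; exact Submodule.finrank_le _) (hWpos _ le_rfl)
  set b := i * N with hbdef
  have hbN : b + N ≤ N * N := by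
    have : (i + 1) * N ≤ N * N := Nat.mul_le_mul_right _ hi
    rw [hbdef]; rw [Nat.succ_mul] at this; exact this
  have hbB : b + N ≤ B := hbN.trans hB
  have hpl : comps (Kb A0 A M L (b + N)) = comps (Kb A0 A M L b) := by
    apply Submodule.eq_of_le_of_finrank_eq (comps_mono (Kb_anti (by omega)))
    have : (i + 1) * N = b + N := by rw [hbdef, Nat.succ_mul]
    rw [← this]
    exact hfi
  have hrob := robust H (le_of_eq hN) hN0 hbB hpl
  set W := comps (Kb A0 A M L b) with hW
  refine ⟨W, ?_⟩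
  -- Y
  let Y : Submodule E (α → V) := hyp α W ⊓ ⨅ j : Fin B, ⨅ (_ : j.val < b), LinearMap.ker (ev (E := E) (L j))
  have hY : ∀ y : α → V, y ∈ Y ↔ (∀ a, y a ∈ W) ∧ ∀ j : Fin B, j.val < b → ev (E := E) (L j) y = 0 := by
    intro y
    simp only [Y, Submodule.mem_inf, mem_hyp, Submodule.mem_iInf, LinearMap.mem_ker]
  have hYH : Y ≤ hyp α W := inf_le_left
  -- single a' (A k w) in T(Y)
  have hAk : ∀ (k : ι) (w : V), w ∈ W → ∀ u : α → F, (fun a' => u a' • A k w) ∈ Y.map (TT A0 A M) := by
    intro k w hw u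
    obtain ⟨η, hη, hηs⟩ := mem_comps.mp hw
    have h1 : (fun a' => u a' • A k w) = ∑ a, (fun a' => u a' • A k (η a a)) := by
      funext a'
      rw [Finset.sum_apply, ← hηs, map_sum, Finset.smul_sum]
    rw [h1]
    refine Submodule.sum_mem _ (fun a _ => ?_)
    obtain ⟨y, h2, h3, h4⟩ := sol_mem H (by omega : b ≤ B) (Pi.single a (1 : F)) u k (hrob _) (hη a)
    refine ⟨y, (hY y).mpr ⟨h2, h3⟩, ?_⟩
    rw [h4]
    funext a'
    rw [ev_single]
  have hAk' : hyp α (⨆ k, W.map (A k)) ≤ Y.map (TT A0 A M) := by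
    intro v hv
    rw [mem_hyp] at hv
    have h1 : v = ∑ a, (Pi.single a (v a) : α → V') := (Finset.univ_sum_single v).symm
    rw [h1]
    refine Submodule.sum_mem _ (fun a _ => ?_)
    have h2 : ∀ z ∈ (⨆ k, W.map (A k) : Submodule E V'), (Pi.single a z : α → V') ∈ Y.map (TT A0 A M) := by
      intro z hz
      induction hz using Submodule.iSup_induction' with
      | mem k z hz =>
        obtain ⟨w, hw, rfl⟩ := hz
        have h3 := hAk k w hw (Pi.single a 1)
        convert h3 using 1
        funext a'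
        by_cases h : a' = a
        · subst h; simp
        · simp [Pi.single_eq_of_ne h]
      | zero => rw [Pi.single_zero]; exact Submodule.zero_mem _
      | add z1 z2 _ _ h1 h2 => rw [Pi.single_add]; exact Submodule.add_mem _ h1 h2
    exact h2 _ (hv a)
  have hT0Y : Y.map (T0 α A0) ≤ Y.map (TT A0 A M) := by
    rintro v ⟨y, hy, rfl⟩
    have h1 : T0 α A0 y = TT A0 A M y - Tdir A M y := by
      rw [TT, LinearMap.add_apply]; abel
    rw [h1]
    refine Submodule.sub_mem _ ⟨y, hy, rfl⟩ (hAk' ?_)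
    rw [mem_hyp]
    intro a'
    rw [Tdir_apply]
    refine Submodule.sum_mem _ (fun k _ => Submodule.sum_mem _ (fun a _ => ?_))
    rw [← algebraMap_smul E]
    refine Submodule.smul_mem _ _ (Submodule.mem_iSup_of_mem k ⟨y a, ((hY y).mp hy).1 a, rfl⟩)
  have hU : hyp α (W.map A0 ⊔ ⨆ k, W.map (A k) : Submodule E V') ≤ Y.map (TT A0 A M) ⊔ (hyp α W).map (T0 α A0) := by
    intro v hv
    rw [mem_hyp] at hv
    have h1 : ∀ a, ∃ w ∈ W, ∃ z ∈ (⨆ k, W.map (A k) : Submodule E V'), A0 w + z = v a := by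
      intro a
      obtain ⟨z1, hz1, z2, hz2, h⟩ := Submodule.mem_sup.mp (hv a)
      obtain ⟨w, hw, rfl⟩ := hz1
      exact ⟨w, hw, z2, hz2, h⟩
    choose w hw z hz hwz using h1
    have h2 : v = T0 α A0 w + z := by
      funext a
      rw [← hwz a]
      rfl
    rw [h2, add_comm]
    exact Submodule.add_mem_sup (hAk' (mem_hyp.mpr hz)) ⟨w, mem_hyp.mpr hw, rfl⟩
  have hKY : Kb A0 A M L b ≤ Y := by
    intro κ hκ
    rw [hY]
    exact ⟨fun a => apply_mem_comps hκ a, (mem_Kb.mp hκ).2⟩
  have hYK : Y ⊓ LinearMap.ker (TT A0 A M) = Kb A0 A M L b := by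
    apply le_antisymm
    · rintro y ⟨h1, h2⟩
      rw [mem_Kb]
      exact ⟨h2, ((hY y).mp h1).2⟩
    · exact le_inf hKY (fun κ hκ => (mem_Kb.mp hκ).1)
  have e1 := finrank_inf_ker_add Y (TT A0 A M)
  rw [hYK] at e1
  have e2 := finrank_sup_map_le hYH (T0 α A0) hT0Y
  have e3 := Submodule.finrank_mono hU
  rw [finrank_hyp] at e3
  rw [finrank_hyp] at e2
  have e4 : 1 ≤ finrank E (Kb A0 A M L b) := Submodule.one_le_finrank_iff.mpr (hKpos b (by omega))
  have e5 : D * finrank E (W.map A0 ⊔ ⨆ k, W.map (A k) : Submodule E V') < D * finrank E W := by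
    rw [← hDdef] at e3 e2
    omega
  exact Nat.lt_of_mul_lt_mul_left e5

end GA
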